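import Pool.Agent.Helper737.AmpleDefs

open AlgebraicGeometry CategoryTheory

namespace Pool.Agent.Helper737.Ample


section quartic

open Polynomial TensorProduct

variable {K : Type} [Field K]

/-- the polynomial `Y^4 + u⁻¹ (X^4 - 1)` over `K[X]` -/
noncomputable def qpol (u : K) : K[X][X] := X ^ 4 + C (C u⁻¹ * (X ^ 4 - 1))

lemma qpol_monic (u : K) : (qpol u).Monic := monic_X_pow_add_C _ (by norm_num)

lemma qpol_natDegree (u : K) : (qpol u).natDegree = 4 := natDegree_X_pow_add_C

lemma qpol_irreducible [CharZero K] {u : K} (hu : u ≠ 0) : Irreducible (qpol u) := by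
  have hX1 : (X - C (1 : K)) ≠ 0 := X_sub_C_ne_zero 1
  have hP : (Ideal.span {(X - C (1 : K))}).IsPrime := by
    rw [Ideal.span_singleton_prime hX1]
    exact prime_X_sub_C 1
  have hfac : (C u⁻¹ * (X ^ 4 - 1) : K[X]) = (X - C 1) * (C u⁻¹ * (X ^ 3 + X ^ 2 + X + 1)) := by
    rw [C_1]; ring
  refine irreducible_of_eisenstein_criterion hP ?_ ?_ ?_ ?_ (qpol_monic u).isPrimitive
  · rw [(qpol_monic u).leadingCoeff]
    exact fun h => hP.ne_top ((Ideal.eq_top_iff_one _).2 h)
  · intro n hn
    rw [degree_eq_natDegree (qpol_monic u).ne_zero, qpol_natDegree] at hn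
    have hn4 : n < 4 := by exact_mod_cast hn
    unfold qpol
    rw [coeff_add, coeff_X_pow, if_neg (by omega), zero_add, coeff_C]
    split_ifs
    · rw [Ideal.mem_span_singleton, hfac]
      exact dvd_mul_right _ _
    · exact Ideal.zero_mem _
  · rw [degree_eq_natDegree (qpol_monic u).ne_zero, qpol_natDegree]
    norm_num
  · unfold qpol
    rw [coeff_add, coeff_X_pow, if_neg (by norm_num), zero_add, coeff_C, if_pos rfl,
      Ideal.span_singleton_pow, Ideal.mem_span_singleton, hfac, pow_two,
      mul_dvd_mul_iff_left hX1, dvd_iff_isRoot, IsRoot.def]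
    simp only [eval_mul, eval_C, eval_add, eval_pow, eval_X, eval_one, one_pow]
    have h4 : (1 + 1 + 1 + 1 : K) ≠ 0 := by norm_num
    exact mul_ne_zero (inv_ne_zero hu) h4

/-- the coordinate ring of the curve -/
abbrev QA (u : K) : Type := AdjoinRoot (qpol u)

lemma qA_isDomain [CharZero K] {u : K} (hu : u ≠ 0) : IsDomain (QA u) :=
  AdjoinRoot.isDomain_of_prime (qpol_irreducible hu).prime

/-- the coordinate `x` -/
noncomputable def qx (u : K) : QA u := AdjoinRoot.of _ X

/-- the coordinate `y` -/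
noncomputable def qy (u : K) : QA u := AdjoinRoot.root _

lemma eval₂_qpol (u : K) {B : Type*} [CommRing B] (i : K[X] →+* B) (y : B) :
    (qpol u).eval₂ i y = y ^ 4 + i (C u⁻¹) * (i X ^ 4 - 1) := by
  unfold qpol
  rw [eval₂_add, eval₂_pow, eval₂_X, eval₂_C, map_mul, map_sub, map_pow, map_one]

lemma q_rel {u : K} (hu : u ≠ 0) :
    qx u ^ 4 + algebraMap K (QA u) u * qy u ^ 4 = 1 := by
  have h1 : (qpol u).eval₂ (AdjoinRoot.of _) (AdjoinRoot.root (qpol u)) = 0 :=
    AdjoinRoot.eval₂_root _
  rw [eval₂_qpol] at h1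
  have h2 : algebraMap K (QA u) u = AdjoinRoot.of (qpol u) (C u) := rfl
  have h3 : AdjoinRoot.of (qpol u) (C u) * AdjoinRoot.of (qpol u) (C u⁻¹) = 1 := by
    rw [← map_mul, ← C_mul, mul_inv_cancel₀ hu, C_1, map_one]
  rw [h2]
  unfold qx qy
  linear_combination (AdjoinRoot.of (qpol u) (C u)) * h1 -
    (AdjoinRoot.of (qpol u) X ^ 4 - 1) * h3

/-- the point `(x, y)` with values in an algebra -/
noncomputable def qpt {u : K} (hu : u ≠ 0) {B : Type*} [CommRing B] [Algebra K B] (x y : B)
    (h : x ^ 4 + algebraMap K B u * y ^ 4 = 1) : QA u →ₐ[K] B :=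
  AdjoinRoot.liftAlgHom (qpol u) (aeval x) y (by
    rw [eval₂_qpol]
    simp only [RingHom.coe_coe, aeval_X, aeval_C]
    have h3 : algebraMap K B u * algebraMap K B u⁻¹ = 1 := by
      rw [← map_mul, mul_inv_cancel₀ hu, map_one]
    linear_combination (algebraMap K B u⁻¹) * h - y ^ 4 * h3)

@[simp] lemma qpt_qx {u : K} (hu : u ≠ 0) {B : Type*} [CommRing B] [Algebra K B] (x y : B)
    (h : x ^ 4 + algebraMap K B u * y ^ 4 = 1) : qpt hu x y h (qx u) = x := by
  unfold qpt qx
  rw [AdjoinRoot.liftAlgHom_of, aeval_X]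

@[simp] lemma qpt_qy {u : K} (hu : u ≠ 0) {B : Type*} [CommRing B] [Algebra K B] (x y : B)
    (h : x ^ 4 + algebraMap K B u * y ^ 4 = 1) : qpt hu x y h (qy u) = y := by
  unfold qpt qy
  rw [AdjoinRoot.liftAlgHom_root]

lemma q_ext {u : K} {B : Type*} [CommRing B] [Algebra K B] {f g : QA u →ₐ[K] B}
    (hx : f (qx u) = g (qx u)) (hy : f (qy u) = g (qy u)) : f = g := by
  refine AdjoinRoot.algHom_ext' ?_ hy
  refine Polynomial.algHom_ext ?_
  exact hx

lemma tensor_isDomain [CharZero K] {u : K} (hu : u ≠ 0) (L : Type) [Field L] [Algebra K L] :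
    IsDomain (L ⊗[K] QA u) := by
  have hchar : CharZero L := charZero_of_injective_algebraMap (algebraMap K L).injective
  have hu' : algebraMap K L u ≠ 0 := by
    rwa [Ne, map_eq_zero]
  have hdom : IsDomain (QA (algebraMap K L u)) := qA_isDomain hu'
  let fL : QA u →ₐ[K] QA (algebraMap K L u) := qpt hu (qx _) (qy _) (by
    rw [IsScalarTower.algebraMap_apply K L (QA (algebraMap K L u))]
    exact q_rel hu')
  let φ : L ⊗[K] QA u →ₐ[L] QA (algebraMap K L u) :=
    Algebra.TensorProduct.lift (Algebra.ofId L _) fL (fun _ _ => Commute.all _ _)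
  let ψ : QA (algebraMap K L u) →ₐ[L] L ⊗[K] QA u :=
    qpt hu' (1 ⊗ₜ qx u) (1 ⊗ₜ qy u) (by
      have h1 : algebraMap L (L ⊗[K] QA u) (algebraMap K L u) = 1 ⊗ₜ algebraMap K (QA u) u := by
        rw [← IsScalarTower.algebraMap_apply K L (L ⊗[K] QA u)]
        exact Algebra.TensorProduct.algebraMap_apply' u
      rw [h1, Algebra.TensorProduct.tmul_pow, Algebra.TensorProduct.tmul_pow,
        Algebra.TensorProduct.tmul_mul_tmul, one_pow, one_mul, ← TensorProduct.tmul_add,
        q_rel hu]
      rfl)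
  have hψφ : ψ.comp φ = AlgHom.id L _ := by
    apply Algebra.TensorProduct.ext
    · ext
    · apply q_ext
      · simp [φ, ψ, fL]
      · simp [φ, ψ, fL]
  have hinj : Function.Injective φ := by
    intro a b hab
    have := congrArg ψ hab
    have h2 : ∀ c, ψ (φ c) = c := fun c => congrArg (fun g => g c) hψφ
    rwa [h2, h2] at this
  exact hinj.isDomain φ.toRingHom

lemma q_smooth [CharZero K] {u : K} (hu : u ≠ 0) : Algebra.Smooth K (QA u) := by
  have hform : Algebra.FormallySmooth K (QA u) := by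
    refine Algebra.FormallySmooth.of_comp_surjective fun B _ _ I hI f => ?_
    obtain ⟨x', hx'⟩ := Ideal.Quotient.mk_surjective (f (qx u))
    obtain ⟨y', hy'⟩ := Ideal.Quotient.mk_surjective (f (qy u))
    set e : B := x' ^ 4 + algebraMap K B u * y' ^ 4 - 1 with he
    have heI : e ∈ I := by
      rw [← Ideal.Quotient.eq_zero_iff_mem, he]
      have h1 := congrArg f (q_rel hu)
      rw [map_add, map_mul, map_pow, map_pow, map_one, AlgHom.commutes, ← hx', ← hy'] at h1
      rw [map_sub, map_add, map_mul, map_pow, map_pow, map_one]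
      rw [sub_eq_zero]
      exact h1
    have he2 : e * e = 0 := by
      have : e * e ∈ I ^ 2 := by
        rw [pow_two]
        exact Ideal.mul_mem_mul heI heI
      rw [hI] at this
      exact this
    have h4 : algebraMap K B 4⁻¹ * 4 = 1 := by
      have : (4 : B) = algebraMap K B 4 := by rw [map_ofNat]
      rw [this, ← map_mul, inv_mul_cancel₀ (by norm_num), map_one]
    set q := algebraMap K B 4⁻¹ with hq
    have hpt : (x' - e * x' * q) ^ 4 + algebraMap K B u * (y' - e * y' * q) ^ 4 = 1 := by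
      have h5 : algebraMap K B u * y' ^ 4 = 1 + e - x' ^ 4 := by rw [he]; ring
      have h6 : (1 - e * q) ^ 4 = 1 - e := by
        have : (1 - e * q) ^ 4 = 1 - e * (q * 4) + (e * e) * (6 * q ^ 2 - 4 * e * q ^ 3 + e * e * q ^ 4) := by
          ring
        rw [this, he2, h4]
        ring
      calc (x' - e * x' * q) ^ 4 + algebraMap K B u * (y' - e * y' * q) ^ 4
          = (x' ^ 4 + algebraMap K B u * y' ^ 4) * (1 - e * q) ^ 4 := by ring
        _ = (x' ^ 4 + (1 + e - x' ^ 4)) * (1 - e) := by rw [h5, h6]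
        _ = 1 - e * e := by ring
        _ = 1 := by rw [he2, sub_zero]
    refine ⟨qpt hu _ _ hpt, ?_⟩
    apply q_ext
    · simp only [AlgHom.comp_apply, qpt_qx]
      change Ideal.Quotient.mk I _ = _
      rw [map_sub, hx', map_mul, map_mul, Ideal.Quotient.eq_zero_iff_mem.2 heI]
      ring
    · simp only [AlgHom.comp_apply, qpt_qy]
      change Ideal.Quotient.mk I _ = _
      rw [map_sub, hy', map_mul, map_mul, Ideal.Quotient.eq_zero_iff_mem.2 heI]
      ring
  have hfp : Algebra.FinitePresentation K K[X] := inferInstance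
  have hfp2 : Algebra.FinitePresentation K (QA u) := AdjoinRoot.finitePresentation _
  exact ⟨hform, hfp2⟩

lemma q_dim [CharZero K] {u : K} (hu : u ≠ 0) : ringKrullDim (QA u) = 1 := by
  have hdom : IsDomain (QA u) := qA_isDomain hu
  have hint : Algebra.IsIntegral K[X] (QA u) := by
    have : Module.Finite K[X] (QA u) := (qpol_monic u).finite_adjoinRoot
    infer_instance
  have hinj : Function.Injective (algebraMap K[X] (QA u)) := by
    rw [AdjoinRoot.algebraMap_eq]
    refine AdjoinRoot.of.injective_of_degree_ne_zero ?_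
    rw [degree_eq_natDegree (qpol_monic u).ne_zero, qpol_natDegree]
    norm_num
  have hnf : ¬ IsField (QA u) := by
    intro h
    exact Polynomial.not_isField K (isField_of_isIntegral_of_isField hinj h)
  apply eq_of_le_of_not_lt ?_ fun h' ↦ hnf ?_
  · rw [← Nat.cast_one, ← Ring.krullDimLE_iff]
    refine Ring.KrullDimLE.mk₁' fun I hI hIp => ?_
    have h1 : I.comap (algebraMap K[X] (QA u)) ≠ ⊥ := by
      intro h
      exact hI (Ideal.eq_bot_of_comap_eq_bot h)
    have h2 : (I.comap (algebraMap K[X] (QA u))).IsPrime := Ideal.comap_isPrime _ _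
    have h3 : (I.comap (algebraMap K[X] (QA u))).IsMaximal := IsPrime.to_maximal_ideal h1
    exact Ideal.isMaximal_of_isIntegral_of_isMaximal_comap I h3
  · have h'' : ringKrullDim (QA u) ≤ 0 := Order.le_of_lt_succ h'
    rw [← Nat.cast_zero, ← Ring.krullDimLE_iff] at h''
    exact Ring.KrullDimLE.isField_of_isDomain

end quartic

theorem not_isAmple_of_quartic {M : Type} [Field M] [CharZero M] (u : M) (hu : u ≠ 0)
    (hfin : {p : M × M | p.1 ^ 4 + u * p.2 ^ 4 = 1}.Finite) : ¬ IsAmple M := by
  intro hample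
  have hdom : IsDomain (QA u) := qA_isDomain hu
  have hsm : Algebra.Smooth M (QA u) := q_smooth hu
  let f : Spec (.of (QA u)) ⟶ Spec (.of M) :=
    Spec.map (CommRingCat.ofHom (algebraMap M (QA u)))
  have hcurve : IsCurve f := by
    refine ⟨⟨?_⟩, ?_, ?_, ?_, ?_⟩
    · have hcl : ObjectProperty.IsClosedUnderIsomorphisms
          (AlgebraicGeometry.IsIntegral : ObjectProperty Scheme.{0}) := ⟨by
        intro X Y e hX
        have : Nonempty Y := ⟨e.hom (Classical.choice hX.nonempty)⟩
        exact isIntegral_of_isOpenImmersion e.inv⟩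
      rw [geometrically_iff_of_commRing_of_isClosedUnderIsomorphisms]
      intro L _ _
      have h1 : IsDomain (TensorProduct M L (QA u)) := tensor_isDomain hu L
      have h2 : IsDomain (TensorProduct M (QA u) L) :=
        (Algebra.TensorProduct.comm M (QA u) L).injective.isDomain
          (Algebra.TensorProduct.comm M (QA u) L).toRingEquiv.toRingHom
      have h3 : IsIntegral (Spec (.of (TensorProduct M (QA u) L))) := by
        have : IsDomain (CommRingCat.of (TensorProduct M (QA u) L)) := h2
        infer_instance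
      exact ObjectProperty.prop_of_iso AlgebraicGeometry.IsIntegral (pullbackSpecIso M (QA u) L).symm h3
    · infer_instance
    · refine (HasRingHomProperty.Spec_iff (P := @LocallyOfFiniteType)).2 ?_
      exact RingHom.finiteType_algebraMap.2 inferInstance
    · infer_instance
    · exact (PrimeSpectrum.topologicalKrullDim_eq_ringKrullDim (QA u)).trans (q_dim hu)
  have hsmooth : AlgebraicGeometry.Smooth f :=
    (HasRingHomProperty.Spec_iff (P := @AlgebraicGeometry.Smooth)).2
      (RingHom.smooth_algebraMap.2 hsm)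
  have hne : Nonempty (Points f M) := by
    let ψ : QA u →ₐ[M] M := qpt hu 1 0 (by simp)
    refine ⟨⟨Spec.map (CommRingCat.ofHom (ψ : QA u →+* M)), ?_⟩⟩
    rw [← Spec.map_comp, ← CommRingCat.ofHom_comp]
    congr 2
    exact ψ.comp_algebraMap
  have hp : ∀ p : Points f M, ∃ ψ : QA u →ₐ[M] M,
      p.1 = Spec.map (CommRingCat.ofHom (ψ : QA u →+* M)) := by
    rintro ⟨p, hp⟩
    obtain ⟨φ, rfl⟩ := Spec.map_surjective p
    have h1 : CommRingCat.ofHom (algebraMap M (QA u)) ≫ φ =
        CommRingCat.ofHom (algebraMap M M) := by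
      apply Spec.map_injective
      rw [Spec.map_comp]
      exact hp
    refine ⟨{ φ.hom with commutes' := fun r => ?_ }, ?_⟩
    · exact congrArg (fun g => g.hom r) h1
    · rfl
  choose ψ hψ using hp
  have hfinite : Finite (Points f M) := by
    have : Finite {p : M × M | p.1 ^ 4 + u * p.2 ^ 4 = 1} := hfin.to_subtype
    let F : Points f M → {p : M × M | p.1 ^ 4 + u * p.2 ^ 4 = 1} := fun p =>
      ⟨(ψ p (qx u), ψ p (qy u)), by
        have h1 := congrArg (ψ p) (q_rel hu)
        rw [map_add, map_mul, map_pow, map_pow, map_one, AlgHom.commutes] at h1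
        exact h1⟩
    refine Finite.of_injective F ?_
    intro p q hpq
    have h1 : (ψ p (qx u), ψ p (qy u)) = (ψ q (qx u), ψ q (qy u)) := congrArg Subtype.val hpq
    have h2 : ψ p = ψ q := q_ext (congrArg Prod.fst h1) (congrArg Prod.snd h1)
    apply Subtype.ext
    rw [hψ p, hψ q, h2]
  have hinf := hample _ f hcurve hsmooth hne
  exact hinf.not_finite hfinite


end Pool.Agent.Helper737.Ample
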