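import Pool.Agent.Helper737.AmpleDefs

open AlgebraicGeometry CategoryTheory

namespace Pool.Agent.Helper737.Ample




open MvPolynomial in
/-- in a 1-dimensional domain of finite type the transcendence degree is at most one -/
theorem trdeg_le_one (K : Type) [Field K] (A : Type) [CommRing A] [IsDomain A] [Algebra K A]
    [Algebra.FiniteType K A] (hdim : Ring.KrullDimLE 1 A) : Algebra.trdeg K A ≤ 1 := by
  obtain ⟨s, g, hinj, hint⟩ := exists_integral_inj_algHom_of_fg K A
  let : Algebra (MvPolynomial (Fin s) K) A := g.toRingHom.toAlgebra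
  have : IsScalarTower K (MvPolynomial (Fin s) K) A := IsScalarTower.of_algebraMap_eq
    (fun x => by rw [RingHom.algebraMap_toAlgebra]; exact (g.commutes x).symm)
  have hinj' : Function.Injective (algebraMap (MvPolynomial (Fin s) K) A) := hinj
  have : FaithfulSMul (MvPolynomial (Fin s) K) A :=
    (faithfulSMul_iff_algebraMap_injective _ _).mpr hinj'
  have : Algebra.IsIntegral (MvPolynomial (Fin s) K) A := ⟨hint⟩
  have hs : s ≤ 1 := by
    by_contra h
    push Not at h
    set i0 : Fin s := ⟨0, by omega⟩ with hi0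
    set i1 : Fin s := ⟨1, by omega⟩ with hi1
    have h01 : i1 ≠ i0 := by simp [hi0, hi1]
    let φ1 : MvPolynomial (Fin s) K →ₐ[K] MvPolynomial (Fin s) K :=
      aeval (fun i => if i = i0 then 0 else X i)
    let φ2 : MvPolynomial (Fin s) K →ₐ[K] MvPolynomial (Fin s) K :=
      aeval (fun i => if i = i1 then 0 else X i)
    let P1 : Ideal (MvPolynomial (Fin s) K) := RingHom.ker φ1
    let P2 : Ideal (MvPolynomial (Fin s) K) := RingHom.ker (φ2.comp φ1)
    have : P1.IsPrime := RingHom.ker_isPrime _
    have : P2.IsPrime := RingHom.ker_isPrime _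
    have h12 : P1 ≤ P2 := by
      intro p hp
      have hp' : φ1 p = 0 := hp
      change (φ2.comp φ1) p = 0
      simp [hp']
    have hX0 : (X i0 : MvPolynomial (Fin s) K) ∈ P1 := by
      change φ1 (X i0) = 0
      simp [φ1]
    have hX1 : (X i1 : MvPolynomial (Fin s) K) ∉ P1 := by
      change ¬ φ1 (X i1) = 0
      simp [φ1, h01]
    have hX1' : (X i1 : MvPolynomial (Fin s) K) ∈ P2 := by
      change (φ2.comp φ1) (X i1) = 0
      simp [φ1, φ2, h01]
    obtain ⟨Q1, -, hQ1, hQ1c⟩ := Ideal.exists_ideal_over_prime_of_isIntegral P1 (⊥ : Ideal A)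
      (by
        intro p hp
        have : algebraMap (MvPolynomial (Fin s) K) A p = 0 := hp
        have : p = 0 := (injective_iff_map_eq_zero _).1 hinj' p this
        rw [this]; exact Ideal.zero_mem _)
    obtain ⟨Q2, hQ12, hQ2, hQ2c⟩ := Ideal.exists_ideal_over_prime_of_isIntegral P2 Q1
      (by rw [hQ1c]; exact h12)
    have hQ1ne : Q1 ≠ ⊥ := by
      intro h
      have : (X i0 : MvPolynomial (Fin s) K) ∈ Q1.comap (algebraMap _ A) := by rw [hQ1c]; exact hX0
      rw [h] at this
      have h0 : (X i0 : MvPolynomial (Fin s) K) = 0 :=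
        (injective_iff_map_eq_zero _).1 hinj' _ this
      exact X_ne_zero _ h0
    have := hQ1.isMaximal_of_ne_bot hQ1ne
    have : Q1 = Q2 := Ideal.IsMaximal.eq_of_le this hQ2.ne_top hQ12
    apply hX1
    rw [← hQ1c, this, hQ2c]
    exact hX1'
  have h1 := trdeg_add_eq K (MvPolynomial (Fin s) K) (A := A)
  have h2 : Algebra.trdeg (MvPolynomial (Fin s) K) A = 0 := by
    have : Algebra.IsAlgebraic (MvPolynomial (Fin s) K) A := inferInstance
    exact trdeg_eq_zero
  rw [h2, add_zero, MvPolynomial.trdeg_of_isDomain] at h1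
  rw [← h1]
  simp
  exact_mod_cast hs



theorem inj_of_alg {R A B : Type} [CommRing R] [CommRing A] [IsDomain A] [CommRing B]
    [Algebra R A] [Algebra R B] [Algebra.IsAlgebraic R A] (f : A →ₐ[R] B)
    (hinj : Function.Injective (algebraMap R B)) : Function.Injective f := by
  rw [injective_iff_map_eq_zero]
  intro a ha
  by_contra hne
  have h1 := Ideal.comap_ne_bot_of_algebraic_mem (R := R) (I := RingHom.ker f) hne ha
    (Algebra.IsAlgebraic.isAlgebraic a)
  apply h1
  rw [eq_bot_iff]
  intro r hr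
  have h2 : f (algebraMap R A r) = 0 := hr
  rw [AlgHom.commutes] at h2
  rw [Ideal.mem_bot]
  exact (injective_iff_map_eq_zero _).1 hinj r h2

theorem mul_inj {K : Type} [Field K] {Ω : Type} [Field Ω] [Algebra K Ω]
    (A : Type) [CommRing A] [IsDomain A] [Algebra K A] (L : Type) [Field L] [Algebra K L]
    [FiniteDimensional K L] [IsDomain (TensorProduct K A L)]
    (ψ : A →ₐ[K] Ω) (hψ : Function.Injective ψ) (χ : L →ₐ[K] Ω) (q p : A) (zL : L)
    (h : ψ q * χ zL = ψ p) :
    TensorProduct.tmul K q zL = TensorProduct.tmul K p (1 : L) := by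
  let : Algebra A Ω := ψ.toRingHom.toAlgebra
  have : IsScalarTower K A Ω := IsScalarTower.of_algebraMap_eq
    (fun x => by rw [RingHom.algebraMap_toAlgebra]; exact (ψ.commutes x).symm)
  let m : TensorProduct K A L →ₐ[A] Ω :=
    Algebra.TensorProduct.lift (Algebra.ofId A Ω) χ (fun _ _ => Commute.all _ _)
  have hm : Function.Injective m := inj_of_alg m hψ
  apply hm
  simp only [m, Algebra.TensorProduct.lift_tmul]
  have e1 : (Algebra.ofId A Ω) q = ψ q := rfl
  have e2 : (Algebra.ofId A Ω) p = ψ p := rfl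
  rw [e1, e2, map_one, mul_one, h]

theorem tmul_indep {K : Type} [Field K] 
    (A : Type) [CommRing A] [IsDomain A] [Algebra K A] (L : Type) [Field L] [Algebra K L]
    (q p : A) (zL : L) (hq : q ≠ 0)
    (h2 : TensorProduct.tmul K q zL = TensorProduct.tmul K p (1 : L)) :
    ∃ c : K, algebraMap K L c = zL := by
  by_contra hcon
  have hli : zL ∉ Submodule.span K ({1} : Set L) := by
    intro h
    rw [Submodule.mem_span_singleton] at h
    obtain ⟨c, hc⟩ := h
    exact hcon ⟨c, by rw [← hc, Algebra.smul_def, mul_one]⟩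
  obtain ⟨l, hl1, hl2⟩ := Submodule.exists_dual_map_eq_bot_of_notMem hli inferInstance
  have h3 := congrArg (LinearMap.lTensor A l) h2
  rw [LinearMap.lTensor_tmul, LinearMap.lTensor_tmul] at h3
  have h4 : l 1 = 0 := by
    have : l 1 ∈ Submodule.map l (Submodule.span K ({1} : Set L)) :=
      Submodule.mem_map_of_mem (Submodule.mem_span_singleton_self _)
    rw [hl2] at this
    exact this
  rw [h4, TensorProduct.tmul_zero] at h3
  have h5 := congrArg (TensorProduct.rid K A) h3
  rw [map_zero, TensorProduct.rid_tmul] at h5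
  rcases smul_eq_zero.1 h5 with h | h
  · exact hl1 h
  · exact hq h

/-- `K` is algebraically closed in the fraction field of `A`, when `A ⊗ L` is a domain -/
theorem closed_in {K : Type} [Field K] {Ω : Type} [Field Ω] [Algebra K Ω]
    (A : Type) [CommRing A] [IsDomain A] [Algebra K A]
    (hgeo : ∀ (L : Type) [Field L] [Algebra K L], IsDomain (TensorProduct K A L))
    (ψ : A →ₐ[K] Ω) (hψ : Function.Injective ψ) (z : Ω) (p q : A) (hq : q ≠ 0)
    (hz : z * ψ q = ψ p) (halg : IsAlgebraic K z) : z ∈ (algebraMap K Ω).fieldRange := by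
  have hfd : FiniteDimensional K (IntermediateField.adjoin K {z}) :=
    IntermediateField.adjoin.finiteDimensional halg.isIntegral
  have := hgeo (IntermediateField.adjoin K {z})
  have h1 := mul_inj A (IntermediateField.adjoin K {z}) ψ hψ (IntermediateField.adjoin K {z}).val
    q p ⟨z, IntermediateField.mem_adjoin_simple_self K z⟩ (by rw [mul_comm]; exact hz)
  obtain ⟨c, hc⟩ := tmul_indep A _ q p _ hq h1
  exact ⟨c, congrArg (fun t : IntermediateField.adjoin K {z} => (t : Ω)) hc⟩

/-- the embedding of a one-dimensional domain into `Ω` -/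
theorem exists_emb {K : Type} [Field K] (Ω : Type) [Field Ω] [Algebra K Ω] [IsAlgClosed Ω]
    (hx : ∃ x : Ω, Transcendental K x)
    (A : Type) [CommRing A] [IsDomain A] [Algebra K A] [Algebra.FiniteType K A]
    (hdim : Ring.KrullDimLE 1 A) (a0 : A) (ha0 : Transcendental K a0) :
    ∃ ψ : A →ₐ[K] Ω, Function.Injective ψ ∧ Transcendental K (ψ a0) ∧
      ∀ a : A, IsAlgebraic (IntermediateField.adjoin K {ψ a0}) (ψ a) := by
  obtain ⟨x, hx⟩ := hx
  have hAI : AlgebraicIndependent K (fun _ : Unit => a0) :=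
    algebraicIndependent_unique_type_iff.2 ha0
  have hTB : IsTranscendenceBasis K (fun _ : Unit => a0) :=
    hAI.isTranscendenceBasis_of_trdeg_le_of_finite (by simpa using trdeg_le_one K A hdim)
  have halg := hTB.isAlgebraic
  let : Algebra (Polynomial K) A := (Polynomial.aeval (R := K) a0).toRingHom.toAlgebra
  let : Algebra (Polynomial K) Ω := (Polynomial.aeval (R := K) x).toRingHom.toAlgebra
  have hmA : ∀ p : Polynomial K, algebraMap (Polynomial K) A p = Polynomial.aeval a0 p :=
    fun p => rfl
  have hmΩ : ∀ p : Polynomial K, algebraMap (Polynomial K) Ω p = Polynomial.aeval x p :=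
    fun p => rfl
  have : IsScalarTower K (Polynomial K) A := IsScalarTower.of_algebraMap_eq
    (fun c => by rw [hmA]; simp)
  have : IsScalarTower K (Polynomial K) Ω := IsScalarTower.of_algebraMap_eq
    (fun c => by rw [hmΩ]; simp)
  have hiA : Function.Injective (algebraMap (Polynomial K) A) := transcendental_iff_injective.1 ha0
  have hiΩ : Function.Injective (algebraMap (Polynomial K) Ω) := transcendental_iff_injective.1 hx
  have : FaithfulSMul (Polynomial K) A := (faithfulSMul_iff_algebraMap_injective _ _).2 hiA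
  have : FaithfulSMul (Polynomial K) Ω := (faithfulSMul_iff_algebraMap_injective _ _).2 hiΩ
  have halg2 : Algebra.IsAlgebraic (Polynomial K) A := by
    let f : Polynomial K →ₐ[K] Algebra.adjoin K (Set.range (fun _ : Unit => a0)) :=
      Polynomial.aeval ⟨a0, Algebra.subset_adjoin ⟨(), rfl⟩⟩
    refine Algebra.IsAlgebraic.of_ringHom_of_comp_eq (f := f) (g := RingHom.id A) ?_
      Function.injective_id ?_
    · rintro ⟨y, hy⟩
      have hy' : y ∈ Algebra.adjoin K {a0} := by
        have : Set.range (fun _ : Unit => a0) = {a0} := by ext; simp [eq_comm]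
        rwa [this] at hy
      rw [Algebra.adjoin_singleton_eq_range_aeval] at hy'
      obtain ⟨p, hp⟩ := hy'
      refine ⟨p, Subtype.ext ?_⟩
      change ((Algebra.adjoin K (Set.range (fun _ : Unit => a0))).val (Polynomial.aeval _ p)) = y
      rw [← hp, ← Polynomial.aeval_algHom_apply]
      rfl
    · ext c
      · simp [hmA, f]
      · simp [hmA, f]
  let ψ0 : A →ₐ[Polynomial K] Ω := IsAlgClosed.lift
  have hψ0 : Function.Injective ψ0 := inj_of_alg ψ0 hiΩ
  have ha0x : ψ0 a0 = x := by
    have h1 := ψ0.commutes (Polynomial.X)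
    rw [hmA, hmΩ] at h1
    simpa using h1
  refine ⟨ψ0.restrictScalars K, hψ0, ?_, ?_⟩
  · change Transcendental K (ψ0 a0)
    rw [ha0x]; exact hx
  · intro a
    change IsAlgebraic (IntermediateField.adjoin K {ψ0 a0}) (ψ0 a)
    rw [ha0x]
    let f : Polynomial K →ₐ[K] IntermediateField.adjoin K {x} :=
      Polynomial.aeval ⟨x, IntermediateField.mem_adjoin_simple_self K x⟩
    have hf : ∀ p, ((f p : IntermediateField.adjoin K {x}) : Ω) = Polynomial.aeval x p := by
      intro p
      change ((IntermediateField.adjoin K {x}).val (Polynomial.aeval _ p)) = _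
      rw [← Polynomial.aeval_algHom_apply]
      rfl
    refine IsAlgebraic.ringHom_of_comp_eq (f := f) (g := ψ0)
      (Algebra.IsAlgebraic.isAlgebraic (R := Polynomial K) a) ?_ ?_
    · intro p q hpq
      apply hiΩ
      rw [hmΩ, hmΩ, ← hf, ← hf, hpq]
    · refine RingHom.ext fun p => ?_
      change ((f p : IntermediateField.adjoin K {x}) : Ω) = ψ0 (algebraMap (Polynomial K) A p)
      rw [AlgHom.commutes, hmΩ, hf]


theorem alg_part {K : Type} [Field K] (Ω : Type) [Field Ω] [Algebra K Ω]
    [IsAlgClosed Ω] (hx : ∃ x : Ω, Transcendental K x)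
    (H : ∀ (n : ℕ) (a : Fin n → Ω) (i₀ : Fin n), Transcendental K (a i₀) →
      (∀ i, IsAlgebraic (IntermediateField.adjoin K {a i₀}) (a i)) →
      (∀ z ∈ IntermediateField.adjoin K (Set.range a), IsAlgebraic K z →
        z ∈ (algebraMap K Ω).fieldRange) →
      ∀ T : Finset (MvPolynomial (Fin n) K), (∀ G ∈ T, MvPolynomial.aeval a G = 0) →
        ∃ s : Ω, s ^ 2 ∈ (algebraMap K Ω).fieldRange ∧
          {b : Fin n → Ω | (∀ i, b i ∈ IntermediateField.adjoin K {s}) ∧
            ∀ G ∈ T, MvPolynomial.aeval b G = 0}.Infinite)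
    (A : Type) [CommRing A] [IsDomain A] [Algebra K A] [Algebra.FiniteType K A]
    (hdim : Ring.KrullDimLE 1 A) (hfield : ¬ IsField A)
    (hgeo : ∀ (L : Type) [Field L] [Algebra K L], IsDomain (TensorProduct K A L)) :
    ∃ (L : Type) (_ : Field L) (_ : Algebra K L), FiniteDimensional K L ∧ Infinite (A →ₐ[K] L) := by
  obtain ⟨n, φ, hφ⟩ := Algebra.FiniteType.iff_quotient_mvPolynomial''.1
    (inferInstance : Algebra.FiniteType K A)
  have hadj : Algebra.adjoin K (Set.range (fun i => φ (MvPolynomial.X i))) = ⊤ := by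
    rw [Algebra.adjoin_range_eq_range_aeval]
    have : MvPolynomial.aeval (fun i => φ (MvPolynomial.X i)) = φ := by
      ext i; simp
    rw [this]
    exact (AlgHom.range_eq_top φ).2 hφ
  have hi : ∃ i0, Transcendental K (φ (MvPolynomial.X i0)) := by
    by_contra hcon
    push Not at hcon
    have h1 : (Algebra.adjoin K (Set.range (fun i => φ (MvPolynomial.X i)))).IsAlgebraic := by
      rw [Algebra.isAlgebraic_adjoin_iff]
      rintro _ ⟨i, rfl⟩
      by_contra h
      exact hcon i h
    rw [hadj] at h1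
    have h2 : Algebra.IsAlgebraic K A := Algebra.isAlgebraic_iff.2 h1
    have h3 : Algebra.IsIntegral K A := Algebra.isAlgebraic_iff_isIntegral.1 h2
    exact hfield (isField_of_isIntegral_of_isField' (Field.toIsField K))
  obtain ⟨i0, hi0⟩ := hi
  obtain ⟨ψ, hψ, hψ0, hψa⟩ := exists_emb Ω hx A hdim _ hi0
  have hcomp : MvPolynomial.aeval (fun i => ψ (φ (MvPolynomial.X i))) = ψ.comp φ := by
    ext i; simp
  have hker : ∀ G, MvPolynomial.aeval (fun i => ψ (φ (MvPolynomial.X i))) G = 0 ↔ φ G = 0 := by
    intro G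
    rw [hcomp]
    constructor
    · intro h
      apply hψ
      rw [map_zero]; exact h
    · intro h
      change ψ (φ G) = 0
      rw [h, map_zero]
  obtain ⟨T, hT⟩ : (RingHom.ker φ).FG := IsNoetherian.noetherian _
  obtain ⟨s, hs, hinf⟩ := H n (fun i => ψ (φ (MvPolynomial.X i))) i0 hψ0 (fun i => hψa _) (by
    intro z hz hzalg
    rw [IntermediateField.mem_adjoin_range_iff] at hz
    obtain ⟨r, t, hrt⟩ := hz
    rw [hcomp] at hrt
    change z = ψ (φ r) / ψ (φ t) at hrt
    by_cases ht : φ t = 0
    · rw [ht, map_zero, div_zero] at hrt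
      rw [hrt]
      exact zero_mem _
    · refine closed_in A hgeo ψ hψ z (φ r) (φ t) ht ?_ hzalg
      rw [hrt, div_mul_cancel₀]
      intro h0
      apply ht
      apply hψ
      rw [h0, map_zero]) T (by
    intro G hG
    rw [hker]
    have : G ∈ RingHom.ker φ := by rw [← hT]; exact Ideal.subset_span hG
    exact this)
  have hsalg : IsIntegral K s := by
    obtain ⟨c, hc⟩ := hs
    refine ⟨Polynomial.X ^ 2 - Polynomial.C c, Polynomial.monic_X_pow_sub_C c two_ne_zero, ?_⟩
    simp [hc]
  refine ⟨IntermediateField.adjoin K {s}, inferInstance, inferInstance,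
    IntermediateField.adjoin.finiteDimensional hsalg, ?_⟩
  have hInf : Infinite {b : Fin n → Ω | (∀ i, b i ∈ IntermediateField.adjoin K {s}) ∧
            ∀ G ∈ T, MvPolynomial.aeval b G = 0} := hinf.to_subtype
  let mk : {b : Fin n → Ω | (∀ i, b i ∈ IntermediateField.adjoin K {s}) ∧
            ∀ G ∈ T, MvPolynomial.aeval b G = 0} → (MvPolynomial (Fin n) K →ₐ[K]
              IntermediateField.adjoin K {s}) := fun b =>
    MvPolynomial.aeval (fun i => ⟨b.1 i, b.2.1 i⟩)
  have hmk : ∀ b G, ((mk b G : IntermediateField.adjoin K {s}) : Ω) = MvPolynomial.aeval b.1 G := by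
    intro b G
    change (IntermediateField.adjoin K {s}).val (MvPolynomial.aeval _ G) = _
    rw [← AlgHom.comp_apply]
    congr 1
    ext i
    simp
  have hmk0 : ∀ b G, φ G = 0 → mk b G = 0 := by
    intro b G hG
    have h1 : G ∈ Ideal.span (T : Set (MvPolynomial (Fin n) K)) := by
      have : G ∈ RingHom.ker φ := hG
      rw [← hT] at this; exact this
    have h2 : Ideal.span (T : Set (MvPolynomial (Fin n) K)) ≤ RingHom.ker (mk b) := by
      rw [Ideal.span_le]
      intro F hF
      change mk b F = 0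
      apply Subtype.ext
      rw [hmk]
      exact b.2.2 F hF
    exact h2 h1
  have hlift : ∀ b, ∃ g : A →ₐ[K] IntermediateField.adjoin K {s}, g.comp φ = mk b := by
    intro b
    let e := Ideal.quotientKerAlgEquivOfSurjective hφ
    let g0 : (MvPolynomial (Fin n) K ⧸ RingHom.ker φ) →ₐ[K] IntermediateField.adjoin K {s} :=
      Ideal.Quotient.liftₐ (RingHom.ker φ) (mk b) (fun G hG => hmk0 b G hG)
    refine ⟨g0.comp e.symm.toAlgHom, ?_⟩
    ext i
    have : e.symm (φ (MvPolynomial.X i)) = Ideal.Quotient.mk _ (MvPolynomial.X i) := by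
      rw [AlgEquiv.symm_apply_eq]
      rfl
    change ((g0 (e.symm (φ (MvPolynomial.X i))) : IntermediateField.adjoin K {s}) : Ω) = _
    rw [this]
    rfl
  choose g hg using hlift
  apply Infinite.of_injective g
  intro b b' hbb
  apply Subtype.ext
  funext i
  have h1 := hg b
  have h2 := hg b'
  rw [hbb, h2] at h1
  have h3 := congrArg (fun m : (MvPolynomial (Fin n) K →ₐ[K] IntermediateField.adjoin K {s}) =>
    ((m (MvPolynomial.X i) : IntermediateField.adjoin K {s}) : Ω)) h1
  simp only [hmk, MvPolynomial.aeval_X] at h3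
  exact h3.symm


open CategoryTheory.Limits in
/-- an affine open part of a curve, with two different points -/
theorem exists_affine {K : Type} [Field K] {C : Scheme.{0}} (f : C ⟶ Spec (.of K))
    (hC : IsCurve f) [IsIntegral C] : ∃ U : C.Opens, IsAffineOpen U ∧
      ∃ p q : C, p ∈ U ∧ q ∈ U ∧ p ≠ q := by
  have h1 : 1 ≤ Order.krullDim (TopologicalSpace.IrreducibleCloseds C) := by
    have := hC.dim_eq_one
    unfold topologicalKrullDim at this
    rw [this]
  rw [Order.one_le_krullDim_iff] at h1
  obtain ⟨Z0, Z1, hZ⟩ := h1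
  obtain ⟨p, hp⟩ := Z0.isIrreducible.nonempty
  have hη : genericPoint C ∉ (Z0 : Set C) := by
    intro h
    have h2 : closure {genericPoint C} ⊆ (Z0 : Set C) :=
      closure_minimal (Set.singleton_subset_iff.2 h) Z0.isClosed
    have h3 : closure {genericPoint C} = Set.univ := (genericPoint_spec C)
    rw [h3] at h2
    have h4 : (Z1 : Set C) ⊆ Z0 := fun x _ => h2 (Set.mem_univ x)
    exact absurd hZ (not_lt_of_ge h4)
  obtain ⟨U, hU, hpU, -⟩ := exists_isAffineOpen_mem_and_subset (TopologicalSpace.Opens.mem_top p)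
  refine ⟨U, hU, p, genericPoint C, hpU, ?_, ?_⟩
  · exact ((genericPoint_spec C).mem_open_set_iff U.isOpen).2 ⟨p, trivial, hpU⟩
  · rintro rfl
    exact hη hp

open CategoryTheory.Limits in
theorem scheme_part {K : Type} [Field K] {C : Scheme.{0}} (f : C ⟶ Spec (.of K))
    (hC : IsCurve f) : ∃ (A : Type) (_ : CommRing A) (_ : IsDomain A) (_ : Algebra K A)
      (_ : Algebra.FiniteType K A), Ring.KrullDimLE 1 A ∧ ¬ IsField A ∧
      (∀ (L : Type) [Field L] [Algebra K L], IsDomain (TensorProduct K A L)) ∧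
      ∃ j : Spec (.of A) ⟶ C, Mono j ∧ j ≫ f = Spec.map (CommRingCat.ofHom (algebraMap K A)) := by
  have := hC.geomIntegral
  have := hC.locallyOfFiniteType
  have hint : IsIntegral C := GeometricallyIntegral.isIntegral_of_subsingleton f
  obtain ⟨U, hU, p, q, hp, hq, hpq⟩ := exists_affine f hC
  have hne : Nonempty U := ⟨⟨p, hp⟩⟩
  have hdom : IsDomain Γ(C, U) := inferInstance
  let j : Spec Γ(C, U) ⟶ C := hU.fromSpec
  let φ : CommRingCat.of K ⟶ Γ(C, U) := Spec.preimage (j ≫ f)
  have hφ : Spec.map φ = j ≫ f := Spec.map_preimage _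
  let : Algebra K Γ(C, U) := φ.hom.toAlgebra
  have hmap : CommRingCat.ofHom (algebraMap K Γ(C, U)) = φ := rfl
  have hft : Algebra.FiniteType K Γ(C, U) := by
    have h1 : LocallyOfFiniteType (Spec.map φ) := by rw [hφ]; infer_instance
    rw [HasRingHomProperty.Spec_iff (P := @LocallyOfFiniteType)] at h1
    exact h1
  refine ⟨Γ(C, U), inferInstance, hdom, inferInstance, hft, ?_, ?_, ?_, j, inferInstance, ?_⟩
  · rw [Ring.krullDimLE_iff, ← PrimeSpectrum.topologicalKrullDim_eq_ringKrullDim]
    have h1 : topologicalKrullDim (PrimeSpectrum Γ(C, U)) ≤ topologicalKrullDim C :=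
      (j.isOpenEmbedding.isInducing).topologicalKrullDim_le
    rw [hC.dim_eq_one] at h1
    exact h1
  · intro hfield
    have hsub : Subsingleton (PrimeSpectrum Γ(C, U)) := by
      let := hfield.toField
      infer_instance
    have hr : ∀ x ∈ U, ∃ y : Spec Γ(C, U), j y = x := by
      intro x hx
      have : x ∈ Set.range j := by
        rw [hU.range_fromSpec]; exact hx
      exact this
    obtain ⟨p', hp'⟩ := hr p hp
    obtain ⟨q', hq'⟩ := hr q hq
    have : p' = q' := Subsingleton.elim (α := PrimeSpectrum Γ(C, U)) p' q'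
    exact hpq (by rw [← hp', ← hq', this])
  · intro L _ _
    let y : Spec (.of L) ⟶ Spec (.of K) := Spec.map (CommRingCat.ofHom (algebraMap K L))
    have hI : IsIntegral (pullback f y) :=
      pullback_of_geometrically (hC.geomIntegral.geometrically_isIntegral) L y
    let e : pullback j (pullback.fst f y) ≅ Spec (.of (TensorProduct K Γ(C, U) L)) :=
      pullbackRightPullbackFstIso f y j ≪≫ pullback.congrHom hφ.symm rfl ≪≫
        pullbackSpecIso K Γ(C, U) L
    have hnt : Nontrivial (TensorProduct K Γ(C, U) L) := by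
      have h1 : Function.Injective
          (Algebra.TensorProduct.includeRight : L →ₐ[K] TensorProduct K Γ(C, U) L) :=
        Algebra.TensorProduct.includeRight_injective (FaithfulSMul.algebraMap_injective K _)
      exact h1.nontrivial
    have hne2 : Nonempty (Spec (.of (TensorProduct K Γ(C, U) L))) :=
      (inferInstance : Nonempty (PrimeSpectrum (TensorProduct K Γ(C, U) L)))
    have h2 := isIntegral_of_isOpenImmersion (e.inv ≫ pullback.snd j (pullback.fst f y))
    exact (affine_isIntegral_iff _).1 h2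
  · rw [hmap, hφ]


theorem isWeaklyAmple_of_tuples {K : Type} [Field K] [CharZero K] (Ω : Type) [Field Ω] [Algebra K Ω]
    [IsAlgClosed Ω] (hx : ∃ x : Ω, Transcendental K x)
    (H : ∀ (n : ℕ) (a : Fin n → Ω) (i₀ : Fin n), Transcendental K (a i₀) →
      (∀ i, IsAlgebraic (IntermediateField.adjoin K {a i₀}) (a i)) →
      (∀ z ∈ IntermediateField.adjoin K (Set.range a), IsAlgebraic K z →
        z ∈ (algebraMap K Ω).fieldRange) →
      ∀ T : Finset (MvPolynomial (Fin n) K), (∀ G ∈ T, MvPolynomial.aeval a G = 0) →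
        ∃ s : Ω, s ^ 2 ∈ (algebraMap K Ω).fieldRange ∧
          {b : Fin n → Ω | (∀ i, b i ∈ IntermediateField.adjoin K {s}) ∧
            ∀ G ∈ T, MvPolynomial.aeval b G = 0}.Infinite) :
    IsWeaklyAmple K := by
  intro C f hC
  obtain ⟨A, _, _, _, _, hdim, hfield, hgeo, j, hj, hjf⟩ := scheme_part f hC
  obtain ⟨L, _, _, hfd, hinf⟩ := alg_part Ω hx H A hdim hfield hgeo
  refine ⟨L, inferInstance, inferInstance, hfd, ?_⟩
  let P : (A →ₐ[K] L) → Points f L := fun φ =>
    ⟨Spec.map (CommRingCat.ofHom φ.toRingHom) ≫ j, by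
      rw [Category.assoc, hjf, ← Spec.map_comp, ← CommRingCat.ofHom_comp]
      congr 2
      exact RingHom.ext fun x => φ.commutes x⟩
  refine Infinite.of_injective P ?_
  intro φ φ' h
  have h1 : Spec.map (CommRingCat.ofHom φ.toRingHom) ≫ j =
      Spec.map (CommRingCat.ofHom φ'.toRingHom) ≫ j := congrArg Subtype.val h
  have h2 := (cancel_mono j).1 h1
  have h3 := Spec.map_injective h2
  have h4 : φ.toRingHom = φ'.toRingHom := congrArg CommRingCat.Hom.hom h3
  ext x
  exact RingHom.congr_fun h4 x


end Pool.Agent.Helper737.Ample
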