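import Mathlib


namespace Pool.Agent.Helper737.Ample

variable {Ω : Type} [Field Ω]

/-- relative algebraic closure in `Ω` of a subfield -/
def acl (k : Subfield Ω) : Subfield Ω := (algebraicClosure k Ω).toSubfield

theorem mem_acl {k : Subfield Ω} {z : Ω} : z ∈ acl k ↔ IsAlgebraic k z := by
  simp [acl, mem_algebraicClosure_iff']
  exact isAlgebraic_iff_isIntegral.symm

theorem le_acl (k : Subfield Ω) : k ≤ acl k := fun z hz => 
  mem_acl.2 (isAlgebraic_algebraMap (⟨z, hz⟩ : k))

theorem acl_mono {k l : Subfield Ω} (h : k ≤ l) : acl k ≤ acl l := by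
  intro z hz
  rw [mem_acl] at *
  letI := (Subfield.inclusion h).toAlgebra
  haveI : IsScalarTower k l Ω := IsScalarTower.of_algebraMap_eq (fun x => rfl)
  exact hz.tower_top l

theorem acl_idem (k : Subfield Ω) : acl (acl k) = acl k := by
  apply le_antisymm _ (le_acl _)
  intro z hz
  rw [mem_acl] at *
  letI := (Subfield.inclusion (le_acl k)).toAlgebra
  haveI : IsScalarTower k (acl k) Ω := IsScalarTower.of_algebraMap_eq (fun x => rfl)
  haveI : Algebra.IsAlgebraic k (acl k) := ⟨fun x => by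
    have := mem_acl.1 x.2
    rw [← isAlgebraic_algebraMap_iff (R := k) (S := acl k) (A := Ω) Subtype.val_injective]
    exact this⟩
  exact hz.restrictScalars k

theorem acl_le_acl {k l : Subfield Ω} (h : k ≤ acl l) : acl k ≤ acl l := 
  (acl_mono h).trans (acl_idem l).le

theorem isAlgClosed_acl [IsAlgClosed Ω] {k : Subfield Ω} (hk : acl k = k) : IsAlgClosed k := by
  refine IsAlgClosed.of_exists_root _ fun p hp hirr => ?_
  obtain ⟨z, hz⟩ := IsAlgClosed.exists_aeval_eq_zero Ω p (by
    have := hirr.natDegree_pos; intro h; rw [Polynomial.degree_eq_natDegree hirr.ne_zero] at h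
    norm_cast at h; omega)
  have hz' : z ∈ k := by
    rw [← hk, mem_acl]
    exact ⟨p, hirr.ne_zero, hz⟩
  refine ⟨⟨z, hz'⟩, ?_⟩
  have : algebraMap k Ω (p.eval ⟨z, hz'⟩) = 0 := by
    rw [← Polynomial.aeval_algebraMap_apply_eq_algebraMap_eval]
    exact hz
  exact (FaithfulSMul.algebraMap_injective k Ω) (by rw [this, map_zero])

/-- subfield generated by a subfield `k` and a set -/
def adj (k : Subfield Ω) (S : Set Ω) : Subfield Ω := k ⊔ Subfield.closure S

theorem le_adj (k : Subfield Ω) (S : Set Ω) : k ≤ adj k S := le_sup_left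

theorem subset_adj (k : Subfield Ω) (S : Set Ω) : S ⊆ adj k S := fun _ hx => 
  (le_sup_right : _ ≤ adj k S) (Subfield.subset_closure hx)

theorem adj_le {k l : Subfield Ω} {S : Set Ω} (h : k ≤ l) (hS : S ⊆ l) : adj k S ≤ l := 
  sup_le h (Subfield.closure_le.2 hS)

theorem adj_mono {k l : Subfield Ω} {S T : Set Ω} (h : k ≤ l) (hS : S ⊆ T) : adj k S ≤ adj l T := 
  adj_le (h.trans (le_adj _ _)) (hS.trans (subset_adj _ _))

/-- `c` is (the coordinate vector of) a generic point of a geometrically integral curve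
over `F`, with `c i₀` a transcendental coordinate. -/
structure IsGen (F : Subfield Ω) {n : ℕ} (i₀ : Fin n) (c : Fin n → Ω) : Prop where
  trans : c i₀ ∉ acl F
  alg : ∀ i, c i ∈ acl (adj F {c i₀})
  reg : adj F (Set.range c) ⊓ acl F ≤ F

/-- `a` and `c` satisfy the same polynomial relations over `F`. -/
def Copy (F : Subfield Ω) {n : ℕ} (a c : Fin n → Ω) : Prop := 
  ∀ G : MvPolynomial (Fin n) F, MvPolynomial.aeval a G = 0 ↔ MvPolynomial.aeval c G = 0

/-- the key relation between subfields -/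
structure Pext (F F' : Subfield Ω) : Prop where
  le : F ≤ F'
  reg : F' ⊓ acl F ≤ F
  fer : ∀ a ∈ acl F ⊔ F', ∀ b ∈ acl F ⊔ F', a ^ 4 + b ^ 4 = 1 → a ∈ acl F ∧ b ∈ acl F

end Pool.Agent.Helper737.Ample
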