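import Pool.Agent.Helper737.AmpleBasic

namespace Pool.Agent.Helper737.Ample

variable {Ω : Type} [Field Ω]



theorem derivation_aeval (d : Derivation ℤ Ω Ω) {k : Subfield Ω} (θ : Ω) (p : Polynomial k) :
    d (Polynomial.aeval θ p) = p.sum (fun i c => d (c : Ω) * θ ^ i) +
      Polynomial.aeval θ (Polynomial.derivative p) * d θ := by
  induction p using Polynomial.induction_on' with
  | add p q hp hq =>
    rw [map_add, map_add, hp, hq, Polynomial.derivative_add, map_add,
      Polynomial.sum_add_index]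
    · ring
    · intro i; simp
    · intro i a b; simp [add_mul]
  | monomial n a =>
    rw [Polynomial.sum_monomial_index _ _ (by simp), Polynomial.aeval_monomial,
      Polynomial.derivative_monomial, Polynomial.aeval_monomial, Derivation.leibniz,
      Derivation.leibniz_pow]
    simp only [smul_eq_mul, nsmul_eq_mul, map_mul, map_natCast]
    have : (algebraMap k Ω a) = (a : Ω) := rfl
    rw [this]
    ring

/-- (E2) -/
theorem derivation_mem [CharZero Ω] (d : Derivation ℤ Ω Ω) {k k' : Subfield Ω} (hkk' : k ≤ k')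
    (hd : ∀ z ∈ k, d z ∈ k') {θ : Ω} (hθ : θ ∈ acl k) (hθ' : θ ∈ k') : d θ ∈ k' := by
  have hint : IsIntegral k θ := (mem_acl.1 hθ).isIntegral
  have h0 := derivation_aeval d θ (minpoly k θ)
  rw [minpoly.aeval, map_zero] at h0
  have hne : Polynomial.aeval θ (Polynomial.derivative (minpoly k θ)) ≠ 0 :=
    (minpoly.irreducible hint).separable.aeval_derivative_ne_zero (minpoly.aeval k θ)
  have hmem : ∀ p : Polynomial k, Polynomial.aeval θ p ∈ k' := by
    intro p
    rw [Polynomial.aeval_eq_sum_range]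
    refine sum_mem fun i _ => ?_
    rw [Algebra.smul_def]
    exact mul_mem (hkk' (p.coeff i).2) (pow_mem hθ' i)
  have hs : (minpoly k θ).sum (fun i c => d (c : Ω) * θ ^ i) ∈ k' := by
    rw [Polynomial.sum_def]
    exact sum_mem fun i _ => mul_mem (hd _ (Subtype.property _)) (pow_mem hθ' i)
  have : d θ = - (minpoly k θ).sum (fun i c => d (c : Ω) * θ ^ i) /
      Polynomial.aeval θ (Polynomial.derivative (minpoly k θ)) := by
    field_simp
    linear_combination -h0
  rw [this]
  exact div_mem (neg_mem hs) (hmem _)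

/-- (E3) -/
theorem derivation_eq_zero [CharZero Ω] (d : Derivation ℤ Ω Ω) {k : Subfield Ω}
    (hd : ∀ z ∈ k, d z = 0) {θ : Ω} (hθ : θ ∈ acl k) : d θ = 0 := by
  have hint : IsIntegral k θ := (mem_acl.1 hθ).isIntegral
  have h0 := derivation_aeval d θ (minpoly k θ)
  rw [minpoly.aeval, map_zero] at h0
  have hne : Polynomial.aeval θ (Polynomial.derivative (minpoly k θ)) ≠ 0 :=
    (minpoly.irreducible hint).separable.aeval_derivative_ne_zero (minpoly.aeval k θ)
  have hs : (minpoly k θ).sum (fun i c => d (c : Ω) * θ ^ i) = 0 := by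
    rw [Polynomial.sum_def]
    exact Finset.sum_eq_zero fun i _ => by rw [hd _ (Subtype.property _), zero_mul]
  rw [hs, zero_add] at h0
  exact (mul_eq_zero.1 h0.symm).resolve_left hne

/-- the dual numbers as a bare commutative ring -/
def Dual (Ω : Type) [Field Ω] : Type := TrivSqZeroExt Ω Ω

noncomputable instance : CommRing (Dual Ω) := inferInstanceAs (CommRing (TrivSqZeroExt Ω Ω))

theorem dual_mul_eq_zero (a b : TrivSqZeroExt Ω Ω) (ha : a.fst = 0) (hb : b.fst = 0) :
    a * b = 0 := by
  ext
  · simp [ha]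
  · simp [ha, hb]

theorem smooth_of_char_zero (K L : Type) [Field K] [Field L] [Algebra K L] [CharZero K] :
    Algebra.FormallySmooth K L := by
  obtain ⟨ι, v, hv⟩ := exists_isTranscendenceBasis' K L
  haveI : Algebra.IsAlgebraic (IntermediateField.adjoin K (Set.range v)) L := hv.isAlgebraic_field
  haveI : CharZero (IntermediateField.adjoin K (Set.range v)) :=
    charZero_of_injective_algebraMap (algebraMap K _).injective
  exact Algebra.FormallySmooth.of_algebraicIndependent_of_isSeparable hv.1


theorem adj_eq_closure (k : Subfield Ω) (S : Set Ω) :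
    adj k S = (IntermediateField.adjoin k S).toSubfield := by
  have : (IntermediateField.adjoin k S).toSubfield =
      Subfield.closure (Set.range (algebraMap k Ω) ∪ S) := rfl
  rw [this, adj, Subfield.closure_union]
  congr 1
  have : Set.range (algebraMap k Ω) = (k : Set Ω) := by
    ext z
    constructor
    · rintro ⟨w, rfl⟩; exact w.2
    · intro hz; exact ⟨⟨z, hz⟩, rfl⟩
  rw [this, Subfield.closure_eq]

open scoped IntermediateField.algebraAdjoinAdjoin in
theorem mem_acl_adj {k : Subfield Ω} {S : Set Ω} {y : Ω} :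
    y ∈ acl (adj k S) ↔ IsAlgebraic (Algebra.adjoin k S) y := by
  rw [mem_acl, adj_eq_closure]
  exact (IsFractionRing.isAlgebraic_iff (Algebra.adjoin k S) (IntermediateField.adjoin k S)
    Ω (x := y)).symm

theorem mem_acl_adj_empty {k : Subfield Ω} {y : Ω} :
    y ∈ acl k ↔ y ∈ acl (adj k ∅) := by
  have : adj k ∅ = k := by simp [adj]
  rw [this]

theorem mem_matroid {k : Subfield Ω} {S : Set Ω} {y : Ω} :
    y ∈ acl (adj k S) ↔ y ∈ (AlgebraicIndependent.matroid k Ω).closure S := by
  rw [AlgebraicIndependent.matroid_closure_eq, mem_acl_adj]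
  simp [Subalgebra.mem_algebraicClosure]

/-- (E4) exchange property for `acl` -/
theorem exchange {k : Subfield Ω} {x y : Ω} (h : y ∈ acl (adj k {x})) (hy : y ∉ acl k) :
    x ∈ acl (adj k {y}) := by
  rw [mem_acl_adj_empty, mem_matroid] at hy
  rw [mem_matroid] at *
  have := Matroid.closure_exchange (M := AlgebraicIndependent.matroid k Ω) (X := ∅) (e := y)
    (f := x) ⟨by simpa using h, hy⟩
  simpa using this.1


/-- (E1) -/
theorem exists_derivation [CharZero Ω] {k : Subfield Ω} {x : Ω} (hx : x ∉ acl k) :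
    ∃ d : Derivation ℤ Ω Ω, (∀ z ∈ acl k, d z = 0) ∧ d x = 1 := by
  have hx' : Transcendental k x := by
    rw [mem_acl] at hx; exact hx
  letI algPΩ : Algebra (Polynomial k) Ω := (Polynomial.aeval x).toRingHom.toAlgebra
  have halg : ∀ p : Polynomial k, algebraMap (Polynomial k) Ω p = Polynomial.aeval x p :=
    fun p => rfl
  have hinj : Function.Injective (algebraMap (Polynomial k) Ω) := by
    intro p q hpq
    rw [halg, halg] at hpq
    exact (transcendental_iff_injective.1 hx') hpq
  letI algRΩ : Algebra (RatFunc k) Ω :=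
    (IsFractionRing.lift (K := RatFunc k) hinj).toAlgebra
  haveI : IsScalarTower (Polynomial k) (RatFunc k) Ω := by
    refine IsScalarTower.of_algebraMap_eq fun p => ?_
    exact (IsFractionRing.lift_algebraMap hinj p).symm
  haveI : CharZero k := ⟨fun a b h => by
    have : ((a : k) : Ω) = ((b : k) : Ω) := by rw [h]
    exact_mod_cast this⟩
  haveI : CharZero (RatFunc k) := charZero_of_injective_algebraMap (algebraMap k (RatFunc k)).injective
  haveI h1 : Algebra.FormallySmooth (Polynomial k) (RatFunc k) :=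
    Algebra.FormallySmooth.of_isLocalization (nonZeroDivisors (Polynomial k))
  haveI h2 : Algebra.FormallySmooth (RatFunc k) Ω := smooth_of_char_zero _ _
  haveI h3 : Algebra.FormallySmooth (Polynomial k) Ω :=
    Algebra.FormallySmooth.comp (Polynomial k) (RatFunc k) Ω
  let inl : Ω →+* Dual Ω := TrivSqZeroExt.inlHom Ω Ω
  let fst : Dual Ω →+* Ω := (TrivSqZeroExt.fstHom ℤ Ω Ω : TrivSqZeroExt Ω Ω →ₐ[ℤ] Ω).toRingHom
  let e : Dual Ω := (TrivSqZeroExt.inr (1 : Ω) : TrivSqZeroExt Ω Ω)
  let φ : Polynomial k →+* Dual Ω :=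
    Polynomial.eval₂RingHom (inl.comp (algebraMap k Ω)) (inl x + e)
  letI algB : Algebra (Polynomial k) (Dual Ω) := φ.toAlgebra
  have hfe : fst e = 0 := by
    change TrivSqZeroExt.fst (TrivSqZeroExt.inr (1 : Ω) : TrivSqZeroExt Ω Ω) = 0
    simp
  have hfi : ∀ z, fst (inl z) = z := by
    intro z
    change TrivSqZeroExt.fst (TrivSqZeroExt.inl z : TrivSqZeroExt Ω Ω) = z
    simp
  have hcomp : fst.comp φ = algebraMap (Polynomial k) Ω := by
    refine Polynomial.ringHom_ext ?_ ?_
    · intro a
      rw [RingHom.comp_apply, halg, Polynomial.aeval_C]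
      change fst (Polynomial.eval₂ _ _ (Polynomial.C a)) = _
      rw [Polynomial.eval₂_C, RingHom.comp_apply, hfi]
    · rw [RingHom.comp_apply, halg, Polynomial.aeval_X]
      change fst (Polynomial.eval₂ _ _ Polynomial.X) = _
      rw [Polynomial.eval₂_X, map_add, hfi, hfe, add_zero]
  let g : Dual Ω →ₐ[Polynomial k] Ω :=
    { fst with commutes' := fun p => RingHom.congr_fun hcomp p }
  have hg : Function.Surjective g := fun z => ⟨inl z, hfi z⟩
  have hg' : IsNilpotent (RingHom.ker (g : Dual Ω →+* Ω)) := by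
    refine ⟨2, ?_⟩
    rw [pow_two, Ideal.zero_eq_bot, eq_bot_iff, Ideal.mul_le]
    intro a ha b hb
    rw [RingHom.mem_ker] at ha hb
    have ha' : TrivSqZeroExt.fst (a : TrivSqZeroExt Ω Ω) = 0 := ha
    have hb' : TrivSqZeroExt.fst (b : TrivSqZeroExt Ω Ω) = 0 := hb
    rw [Ideal.mem_bot]
    exact dual_mul_eq_zero (Ω := Ω) a b ha' hb'
  let f : Ω →ₐ[Polynomial k] Dual Ω :=
    Algebra.FormallySmooth.liftOfSurjective (AlgHom.id (Polynomial k) Ω) g hg hg'
  have hf : ∀ z, TrivSqZeroExt.fst (f z : TrivSqZeroExt Ω Ω) = z := by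
    intro z
    exact Algebra.FormallySmooth.liftOfSurjective_apply (AlgHom.id (Polynomial k) Ω) g hg hg' z
  let D : Ω →+ Ω :=
    { toFun := fun z => TrivSqZeroExt.snd (f z : TrivSqZeroExt Ω Ω)
      map_zero' := by
        rw [map_zero]; exact TrivSqZeroExt.snd_zero
      map_add' := fun a b => by
        rw [map_add]; exact TrivSqZeroExt.snd_add _ _ }
  let d : Derivation ℤ Ω Ω := Derivation.mk' D.toIntLinearMap (by
    intro a b
    change TrivSqZeroExt.snd (f (a * b) : TrivSqZeroExt Ω Ω) =
      a • TrivSqZeroExt.snd (f b : TrivSqZeroExt Ω Ω) +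
      b • TrivSqZeroExt.snd (f a : TrivSqZeroExt Ω Ω)
    rw [map_mul]
    refine (TrivSqZeroExt.snd_mul _ _).trans ?_
    rw [hf, hf]
    change a * _ + _ * b = a * _ + b * _
    ring)
  have hd : ∀ z, d z = TrivSqZeroExt.snd (f z : TrivSqZeroExt Ω Ω) := fun z => rfl
  have hdk : ∀ z ∈ k, d z = 0 := by
    intro z hz
    have h : f (algebraMap (Polynomial k) Ω (Polynomial.C ⟨z, hz⟩)) =
      algebraMap (Polynomial k) (Dual Ω) (Polynomial.C ⟨z, hz⟩) := f.commutes _
    rw [halg, Polynomial.aeval_C] at h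
    have h' : algebraMap (Polynomial k) (Dual Ω) (Polynomial.C ⟨z, hz⟩) = inl z := by
      change Polynomial.eval₂ _ _ (Polynomial.C _) = _
      rw [Polynomial.eval₂_C]
      rfl
    rw [h'] at h
    rw [hd]
    have h2 : f z = inl z := h
    rw [h2]
    exact TrivSqZeroExt.snd_inl _ _
  refine ⟨d, fun z hz => derivation_eq_zero d hdk hz, ?_⟩
  have h : f (algebraMap (Polynomial k) Ω Polynomial.X) =
      algebraMap (Polynomial k) (Dual Ω) Polynomial.X := f.commutes _
  rw [halg, Polynomial.aeval_X] at h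
  have h' : algebraMap (Polynomial k) (Dual Ω) Polynomial.X = inl x + e := by
    change Polynomial.eval₂ _ _ Polynomial.X = _
    rw [Polynomial.eval₂_X]
  rw [hd, h, h']
  refine (TrivSqZeroExt.snd_add _ _).trans ?_
  change TrivSqZeroExt.snd (TrivSqZeroExt.inl x : TrivSqZeroExt Ω Ω) +
    TrivSqZeroExt.snd (TrivSqZeroExt.inr (1 : Ω) : TrivSqZeroExt Ω Ω) = 1
  simp

/-- (E5) -/
theorem mem_acl_of_derivation_eq_zero [CharZero Ω] (d : Derivation ℤ Ω Ω) {k : Subfield Ω} {x a : Ω}
    (hd : ∀ z ∈ k, d z = 0) (hx : d x ≠ 0) (ha : a ∈ acl (adj k {x})) (hda : d a = 0) : a ∈ acl k := by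
  by_contra hna
  have hxa := exchange ha hna
  apply hx
  let K : Subfield Ω :=
    { carrier := {z | d z = 0}
      mul_mem' := by
        intro a b ha hb
        simp only [Set.mem_ofPred_eq] at *
        rw [Derivation.leibniz, ha, hb]; simp
      one_mem' := by simp
      add_mem' := by
        intro a b ha hb
        simp only [Set.mem_ofPred_eq] at *
        rw [map_add, ha, hb, add_zero]
      zero_mem' := by simp
      neg_mem' := by
        intro a ha
        simp only [Set.mem_ofPred_eq] at *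
        rw [map_neg, ha, neg_zero]
      inv_mem' := by
        intro a ha
        simp only [Set.mem_ofPred_eq] at *
        rw [Derivation.leibniz_inv, ha, smul_zero] }
  have hK : adj k {a} ≤ K := adj_le hd (by rintro z rfl; exact hda)
  exact derivation_eq_zero d (fun z hz => hK hz) hxa


end Pool.Agent.Helper737.Ample
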