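import Pool.Agent.Helper737.AmpleD
import Pool.Agent.Helper737.AmpleE

namespace Pool.Agent.Helper737.Ample

variable {Ω : Type} [Field Ω]

theorem rig_val_eq_one {B : Subfield Ω} {O : ValuationSubring Ω} (hBO : ∀ b ∈ B, b ∈ O) :
    ∀ b ∈ B, b ≠ 0 → O.valuation b = 1 := by
  intro b hb hb0
  have h1 := (O.valuation_le_one_iff b).2 (hBO b hb)
  have h2 := (O.valuation_le_one_iff b⁻¹).2 (hBO _ (B.inv_mem hb))
  apply le_antisymm h1
  rw [map_inv₀] at h2
  have h3 : O.valuation b ≠ 0 := by simpa using hb0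
  rwa [inv_le_one₀ (zero_lt_iff.2 h3)] at h2

theorem rig_mem_sup {B M : Subfield Ω} {f : Ω} (hf : f ∈ B ⊔ M) :
    ∃ r ∈ Algebra.adjoin M (B : Set Ω), ∃ s ∈ Algebra.adjoin M (B : Set Ω), f = r / s := by
  have h : B ⊔ M = adj M (B : Set Ω) := by
    rw [adj, Subfield.closure_eq, sup_comm]
  rw [h, adj_eq_closure] at hf
  exact IntermediateField.mem_adjoin_iff_div.1 hf

/-- expansion of elements of the compositum ring along a basis of `B` over `E` -/
theorem rig_expand {E B M : Subfield Ω} (hEB : E ≤ B) (hEM : E ≤ M) :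
    ∃ (ι : Type) (a : ι → Ω), (∀ i, a i ∈ B) ∧ LinearIndependent E a ∧
      ∀ f ∈ Algebra.adjoin M (B : Set Ω), ∃ (s : Finset ι) (g : ι → Ω), (∀ i, g i ∈ M) ∧
        f = ∑ i ∈ s, g i * a i := by
  classical
  let A : IntermediateField E Ω := B.toIntermediateField (fun e => hEB e.2)
  let a := Module.Free.chooseBasis E A
  refine ⟨_, A.val ∘ a, fun i => (a i).2, 
    a.linearIndependent.map' A.val.toLinearMap (LinearMap.ker_eq_bot.2 Subtype.val_injective), ?_⟩
  intro f hf
  have h1 : Subalgebra.toSubmodule (Algebra.adjoin M (B : Set Ω)) = Submodule.span M (B : Set Ω) := by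
    rw [Algebra.adjoin_eq_span]
    congr 1
    exact congrArg _ (Submonoid.closure_eq B.toSubmonoid)
  have hf1 : f ∈ Submodule.span M (B : Set Ω) := by rw [← h1]; exact hf
  have h2 : Submodule.span M (B : Set Ω) ≤ Submodule.span M (Set.range (A.val ∘ a)) := by
    rw [Submodule.span_le]
    intro b hb
    have h4 : (⟨b, hb⟩ : A) ∈ Submodule.span E (Set.range a) := by rw [a.span_eq]; trivial
    rw [Finsupp.mem_span_range_iff_exists_finsupp] at h4
    obtain ⟨c, hc⟩ := h4
    have h5 := congrArg A.val hc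
    rw [Finsupp.sum, map_sum] at h5
    have h6 : b = ∑ i ∈ c.support, (⟨c i, hEM (c i).2⟩ : M) • (A.val ∘ a) i := by
      rw [show b = A.val ⟨b, hb⟩ from rfl, ← h5]
      apply Finset.sum_congr rfl
      intro i _
      rfl
    rw [h6]
    exact sum_mem fun i _ => Submodule.smul_mem _ _ (Submodule.subset_span ⟨i, rfl⟩)
  have h7 := h2 hf1
  rw [Finsupp.mem_span_range_iff_exists_finsupp] at h7
  obtain ⟨c, hc⟩ := h7
  refine ⟨c.support, fun i => c i, fun i => (c i).2, ?_⟩
  rw [← hc, Finsupp.sum]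
  rfl

theorem rig_case1 [CharZero Ω] [IsAlgClosed Ω] {E B M : Subfield Ω} (hE : acl E = E) (hEB : E ≤ B)
    (hEM : E ≤ M) {x : Ω} (hM : M ≤ acl (adj E {x}))
    (d : Derivation ℤ Ω Ω) (hdB : ∀ b ∈ B, d b ∈ B) (hdM : ∀ m ∈ M, d m = 0)
    (O : ValuationSubring Ω) (hBO : ∀ b ∈ B, b ∈ O) {y : Ω} (hyM : y ∈ M) (hyO : y ∉ O) 
    {f : Ω} (hf : f ∈ B ⊔ M) (hfO : f ∈ O) : d f ∈ O := by
  classical
  set V := O.valuation with hV
  have hVB := rig_val_eq_one hBO
  have hy0 : y ≠ 0 := by rintro rfl; exact hyO (zero_mem _)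
  set t := y⁻¹ with ht
  have ht0 : t ≠ 0 := inv_ne_zero hy0
  have htV : V t < 1 := by
    rw [ht, map_inv₀]
    rw [inv_lt_one₀ (zero_lt_iff.2 (by simpa using hy0))]
    rw [← not_le, ValuationSubring.valuation_le_one_iff]
    exact hyO
  have htM : t ∈ M := M.inv_mem hyM
  have htE : t ∉ acl E := by
    rw [hE]
    intro h
    exact htV.ne (hVB t (hEB h) ht0)
  have hxt : x ∈ acl (adj E {t}) := exchange (hM htM) htE
  have hMt : M ≤ acl (adj E {t}) := hM.trans (acl_le_acl (adj_le ((le_adj _ _).trans (le_acl _))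
    (by rintro z rfl; exact hxt)))
  -- the main representation
  have key : ∀ f ∈ Algebra.adjoin M (B : Set Ω), f ≠ 0 → 
      ∃ g ∈ M, g ≠ 0 ∧ ∃ u, V u = 1 ∧ d u ∈ O ∧ f = g * u := by
    intro f hf hf0
    obtain ⟨ι, a, haB, hli, hexp⟩ := rig_expand hEB hEM
    obtain ⟨s, g, hgM, hfs⟩ := hexp f hf
    have hex : ∃ i ∈ s, g i ≠ 0 := by
      by_contra hcon
      push Not at hcon
      apply hf0
      rw [hfs]
      exact Finset.sum_eq_zero fun i hi => by rw [hcon i hi, zero_mul]
    obtain ⟨i1, hi1, hgi1⟩ := hex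
    obtain ⟨i0, hi0, hmax⟩ := Finset.exists_max_image s (fun i => V (g i)) ⟨i1, hi1⟩
    have hg0 : g i0 ≠ 0 := by
      intro h
      have h1 := hmax i1 hi1
      simp only [h, map_zero, le_zero_iff, map_eq_zero] at h1
      exact hgi1 h1
    have hVg0 : V (g i0) ≠ 0 := by simpa using hg0
    refine ⟨g i0, hgM i0, hg0, ∑ i ∈ s, (g i / g i0) * a i, ?_, ?_, ?_⟩
    · have hle : ∀ i ∈ s, V (g i / g i0) ≤ 1 := by
        intro i hi
        rw [map_div₀]
        exact div_le_one_of_le₀ (hmax i hi) zero_le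
      have hres : ∀ i, ∃ e : E, i ∈ s → V (g i / g i0 - e) < 1 := by
        intro i
        by_cases hi : i ∈ s
        · obtain ⟨e, he, h3⟩ := ld_res hE V (fun d hd h0 => hVB d (hEB hd) h0) htV ht0
            (hMt (M.div_mem (hgM i) (hgM i0))) (hle i hi)
          exact ⟨⟨e, he⟩, fun _ => h3⟩
        · exact ⟨0, fun h => absurd h hi⟩
      choose e he using hres
      have hsum : ∑ i ∈ s, (g i / g i0) * a i = 
          ∑ i ∈ s, (e i : Ω) * a i + ∑ i ∈ s, (g i / g i0 - e i) * a i := by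
        rw [← Finset.sum_add_distrib]
        apply Finset.sum_congr rfl
        intro i _
        ring
      have hVa : ∀ i, V (a i) ≤ 1 := fun i => (O.valuation_le_one_iff _).2 (hBO _ (haB i))
      have h2 : V (∑ i ∈ s, (g i / g i0 - e i) * a i) < 1 := by
        apply V.map_sum_lt one_ne_zero
        intro i hi
        rw [map_mul]
        calc V (g i / g i0 - e i) * V (a i) ≤ V (g i / g i0 - e i) * 1 := by
              gcongr
              exact hVa i
          _ = V (g i / g i0 - e i) := mul_one _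
          _ < 1 := he i hi
      have h3 : V (∑ i ∈ s, (e i : Ω) * a i) = 1 := by
        apply hVB _ (sum_mem fun i _ => mul_mem (hEB (e i).2) (haB i))
        intro h
        have h6 := linearIndependent_iff'.1 hli s e h i0 hi0
        have h7 := he i0 hi0
        rw [h6, div_self hg0] at h7
        simp at h7
      rw [hsum, V.map_add_eq_of_lt_left]
      · exact h3
      · rw [h3]; exact h2
    · rw [map_sum]
      apply sum_mem
      intro i hi
      rw [Derivation.leibniz, hdM _ (M.div_mem (hgM i) (hgM i0)), smul_zero, add_zero, smul_eq_mul]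
      apply mul_mem
      · rw [← O.valuation_le_one_iff, map_div₀]
        exact div_le_one_of_le₀ (hmax i hi) zero_le
      · exact hBO _ (hdB _ (haB i))
    · rw [hfs, Finset.mul_sum]
      apply Finset.sum_congr rfl
      intro i _
      field_simp
  by_cases hf0 : f = 0
  · rw [hf0, map_zero]; exact zero_mem _
  obtain ⟨r, hr, s, hs, hfrs⟩ := rig_mem_sup hf
  have hr0 : r ≠ 0 := by rintro rfl; simp [hfrs] at hf0
  have hs0 : s ≠ 0 := by rintro rfl; simp [hfrs] at hf0
  obtain ⟨g1, hg1, hg10, u1, hu1, hdu1, hr⟩ := key r hr hr0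
  obtain ⟨g2, hg2, hg20, u2, hu2, hdu2, hs⟩ := key s hs hs0
  have hu20 : u2 ≠ 0 := by
    rintro rfl
    simp at hu2
  have hu2i : u2⁻¹ ∈ O := by
    rw [← O.valuation_le_one_iff, map_inv₀, ← hV, hu2, inv_one]
  have hu1O : u1 ∈ O := by
    rw [← O.valuation_le_one_iff, ← hV, hu1]
  have hf2 : f = (g1 / g2) * (u1 * u2⁻¹) := by
    rw [hfrs, hr, hs]; field_simp
  have hgO : g1 / g2 ∈ O := by
    rw [← O.valuation_le_one_iff] at hfO ⊢
    rw [hf2, map_mul, map_mul, map_inv₀, ← hV, hu1, hu2] at hfO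
    simpa using hfO
  rw [hf2, Derivation.leibniz, hdM _ (M.div_mem hg1 hg2), smul_zero, add_zero, smul_eq_mul]
  apply mul_mem hgO
  rw [Derivation.leibniz, Derivation.leibniz_inv]
  simp only [smul_eq_mul]
  apply add_mem
  · apply mul_mem hu1O
    apply mul_mem
    · exact neg_mem (pow_mem hu2i 2)
    · exact hdu2
  · exact mul_mem hu2i hdu1

theorem rig_iInf (B : Subfield Ω) {h : Ω} (hh : ∀ O : ValuationSubring Ω, (∀ b ∈ B, b ∈ O) → h ∈ O) :
    h ∈ acl B := by
  have h1 := iInf_valuationSubring_superset (K := Ω) (s := (B : Set Ω))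
  have h2 : h ∈ (⨅ V : {V : ValuationSubring Ω // (B : Set Ω) ⊆ V.toSubring}, V.1.toSubring) := by
    rw [Subring.mem_iInf]
    intro V
    exact hh V.1 V.2
  rw [h1] at h2
  have h3 : IsIntegral (Subring.closure (B : Set Ω)) h := h2
  have h4 : Subring.closure (B : Set Ω) ≤ B.toSubring := Subring.closure_le.2 (fun z hz => hz)
  rw [mem_acl]
  letI : Algebra (Subring.closure (B : Set Ω)) B := (Subring.inclusion h4).toAlgebra
  haveI : IsScalarTower (Subring.closure (B : Set Ω)) B Ω := IsScalarTower.of_algebraMap_eq (fun x => rfl)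
  exact (h3.tower_top (A := B)).isAlgebraic

theorem rig_acl_mem {B : Subfield Ω} {O : ValuationSubring Ω} (hBO : ∀ b ∈ B, b ∈ O) {z : Ω}
    (hz : z ∈ acl B) : z ∈ O := by
  rw [mem_acl] at hz
  have h1 : IsIntegral B z := hz.isIntegral
  letI : Algebra B O := (Subring.inclusion (S := B.toSubring) (T := O.toSubring) hBO).toAlgebra
  haveI : IsScalarTower B O Ω := IsScalarTower.of_algebraMap_eq (fun x => rfl)
  have h2 : IsIntegral O z := h1.tower_top
  obtain ⟨y, hy⟩ := IsIntegrallyClosed.isIntegral_iff.1 h2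
  rw [← hy]
  exact y.2

theorem rig_concl [CharZero Ω] {B F : Subfield Ω} 
    (d : Derivation ℤ Ω Ω) 
    (H : ∀ O : ValuationSubring Ω, (∀ b ∈ B, b ∈ O) → ∀ f ∈ F, f ∈ O → d f ∈ O)
    {a b : Ω} (ha : a ∈ F) (hb : b ∈ F) (h : a ^ 4 + b ^ 4 = 1) :
    a ∈ acl B ∨ d a = 0 := by
  classical
  by_cases hb0 : b = 0
  · left
    rw [mem_acl]
    refine ⟨Polynomial.X ^ 4 - 1, ?_, ?_⟩
    · exact Polynomial.X_pow_sub_C_ne_zero (by norm_num) (1 : B)
    · simp
      rw [hb0] at h
      linear_combination h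
  by_cases haB : a ∈ acl B
  · exact Or.inl haB
  right
  have ha0 : a ≠ 0 := by rintro rfl; exact haB (zero_mem _)
  have hd4 : a ^ 3 * d a + b ^ 3 * d b = 0 := by
    have h1 := congrArg d h
    rw [map_add, Derivation.leibniz_pow, Derivation.leibniz_pow, Derivation.map_one_eq_zero] at h1
    simp only [nsmul_eq_mul, smul_eq_mul] at h1
    have h2 : (4 : Ω) * (a ^ 3 * d a + b ^ 3 * d b) = 0 := by
      push_cast at h1
      linear_combination h1
    exact (mul_eq_zero.1 h2).resolve_left (by norm_num)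
  set w := d a / b ^ 3 with hw
  have hw2 : w = - d b / a ^ 3 := by
    rw [hw]
    field_simp
    linear_combination hd4
  -- not in O
  have hout : ∀ O : ValuationSubring Ω, (∀ b ∈ B, b ∈ O) → a ∉ O → O.valuation w < 1 := by
    intro O hO haO
    set V := O.valuation with hV
    have hVa : 1 < V a := by
      rw [← not_le, ValuationSubring.valuation_le_one_iff]; exact haO
    have hVa0 : V a ≠ 0 := by simpa using ha0
    have hdu : d a⁻¹ ∈ O := H O hO _ (F.inv_mem ha) (by
      rw [← O.valuation_le_one_iff, ← hV, map_inv₀]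
      exact inv_le_one_of_one_le₀ hVa.le)
    have hba : V (b / a) = 1 := by
      have h1 : (b / a) ^ 4 = (a⁻¹) ^ 4 - 1 := by
        field_simp
        linear_combination h
      have h2 : V ((b / a) ^ 4) = 1 := by
        rw [h1]
        have h3 : V (a⁻¹ ^ 4) < V 1 := by
          rw [map_pow, map_inv₀, map_one]
          exact pow_lt_one₀ zero_le (inv_lt_one_of_one_lt₀ hVa) (by norm_num)
        rw [V.map_sub_eq_of_lt_right h3, map_one]
      rw [map_pow] at h2
      exact (pow_eq_one_iff_of_nonneg zero_le (by norm_num)).1 h2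
    have h4 : w = - d a⁻¹ * a⁻¹ / (b / a) ^ 3 := by
      rw [Derivation.leibniz_inv, hw]
      simp only [smul_eq_mul]
      field_simp
    rw [h4, map_div₀, map_pow, hba, map_mul, Valuation.map_neg]
    simp only [one_pow, div_one]
    have h5 := (O.valuation_le_one_iff _).2 hdu
    calc V (d a⁻¹) * V a⁻¹ ≤ 1 * V a⁻¹ := by gcongr
      _ = V a⁻¹ := one_mul _
      _ < 1 := by rw [map_inv₀]; exact inv_lt_one_of_one_lt₀ hVa
  have hwB : w ∈ acl B := by
    apply rig_iInf
    intro O hO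
    by_cases haO : a ∈ O
    · set V := O.valuation with hV
      have hVa : V a ≤ 1 := (O.valuation_le_one_iff _).2 haO
      have hbV : V b ≤ 1 := by
        have h1 : V (b ^ 4) ≤ 1 := by
          rw [show b ^ 4 = 1 - a ^ 4 by linear_combination h]
          apply (V.map_sub _ _).trans
          apply max_le (by simp)
          rw [map_pow]
          exact pow_le_one' hVa 4
        rw [map_pow] at h1
        exact (pow_le_one_iff_of_nonneg zero_le (by norm_num)).1 h1
      have hbO : b ∈ O := (O.valuation_le_one_iff _).1 hbV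
      have hunit : V a = 1 ∨ V b = 1 := by
        by_contra hcon
        push Not at hcon
        have h1 : V (a ^ 4 + b ^ 4) < 1 := by
          apply V.map_add_lt
          · rw [map_pow]; exact pow_lt_one₀ zero_le (lt_of_le_of_ne hVa hcon.1) (by norm_num)
          · rw [map_pow]; exact pow_lt_one₀ zero_le (lt_of_le_of_ne hbV hcon.2) (by norm_num)
        rw [h, map_one] at h1
        exact lt_irrefl _ h1
      rcases hunit with h1 | h1
      · rw [← O.valuation_le_one_iff, hw2, map_div₀, map_pow, ← hV, h1, Valuation.map_neg]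
        simp only [one_pow, div_one]
        exact (O.valuation_le_one_iff _).2 (H O hO _ hb hbO)
      · rw [← O.valuation_le_one_iff, hw, map_div₀, map_pow, ← hV, h1]
        simp only [one_pow, div_one]
        exact (O.valuation_le_one_iff _).2 (H O hO _ ha haO)
    · rw [← O.valuation_le_one_iff]
      exact (hout O hO haO).le
  -- choose O with a ∉ O
  have hex : ∃ O : ValuationSubring Ω, (∀ b ∈ B, b ∈ O) ∧ a ∉ O := by
    by_contra hcon
    push Not at hcon
    exact haB (rig_iInf B hcon)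
  obtain ⟨O, hO, haO⟩ := hex
  have hlt := hout O hO haO
  have hw0 : w = 0 := by
    by_contra hw0
    have hO' : ∀ b ∈ acl B, b ∈ O := by
      intro z hz
      exact rig_acl_mem hO hz
    have h1 := (O.valuation_le_one_iff _).2 (hO' _ ((acl B).inv_mem hwB))
    rw [map_inv₀] at h1
    have h3 : O.valuation w ≠ 0 := by simpa using hw0
    rw [inv_le_one₀ (zero_lt_iff.2 h3)] at h1
    exact absurd hlt (not_lt.2 h1)
  rw [hw] at hw0
  rcases div_eq_zero_iff.1 hw0 with h1 | h1
  · exact h1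
  · exact absurd h1 (pow_ne_zero _ hb0)

theorem rig_aeval_mem {B : Subfield Ω} {O : ValuationSubring Ω} (hBO : ∀ b ∈ B, b ∈ O) {x : Ω}
    (hx : x ∈ O) (p : Polynomial B) : Polynomial.aeval x p ∈ O := by
  rw [Polynomial.aeval_eq_sum_range]
  refine sum_mem fun i _ => ?_
  rw [Algebra.smul_def]
  exact mul_mem (hBO _ (p.coeff i).2) (pow_mem hx i)

theorem rig_d_aeval_mem {B : Subfield Ω} {O : ValuationSubring Ω} (hBO : ∀ b ∈ B, b ∈ O) {x : Ω}
    (hx : x ∈ O) (d : Derivation ℤ Ω Ω) (hdB : ∀ b ∈ B, d b ∈ B) (hdx : d x = 0)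
    (p : Polynomial B) : d (Polynomial.aeval x p) ∈ O := by
  rw [derivation_aeval, hdx, mul_zero, add_zero, Polynomial.sum_def]
  exact sum_mem fun i _ => mul_mem (hBO _ (hdB _ (Subtype.property _))) (pow_mem hx i)

theorem rig_c2a {B : Subfield Ω} {O : ValuationSubring Ω} (hBO : ∀ b ∈ B, b ∈ O) {x : Ω}
    (hx : x ∈ O) (d : Derivation ℤ Ω Ω) (hdB : ∀ b ∈ B, d b ∈ B) (hdx : d x = 0) 
    {f : Ω} (hf : f ∈ adj B {x}) (hfO : f ∈ O) : d f ∈ O := by
  classical
  rw [adj_eq_closure] at hf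
  obtain ⟨p, q, hpq⟩ := (IntermediateField.mem_adjoin_simple_iff B f).1 hf
  by_cases hq0 : Polynomial.aeval x q = 0
  · rw [hpq, hq0, div_zero, map_zero]; exact zero_mem _
  have hq : q ≠ 0 := by rintro rfl; simp at hq0
  obtain ⟨p', q', hco, hp', hq'⟩ : ∃ p' q' : Polynomial B, IsCoprime p' q' ∧ 
      p = (EuclideanDomain.gcd p q) * p' ∧ q = (EuclideanDomain.gcd p q) * q' := by
    obtain ⟨p', hp'⟩ := EuclideanDomain.gcd_dvd_left p q
    obtain ⟨q', hq'⟩ := EuclideanDomain.gcd_dvd_right p q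
    refine ⟨p', q', ?_, hp', hq'⟩
    have h1 := EuclideanDomain.gcd_eq_gcd_ab p q
    have hg : EuclideanDomain.gcd p q ≠ 0 := by
      intro h; rw [h, zero_mul] at hq'; exact hq hq'
    refine ⟨EuclideanDomain.gcdA p q, EuclideanDomain.gcdB p q, ?_⟩
    apply mul_left_cancel₀ hg
    have h2 : EuclideanDomain.gcd p q * (EuclideanDomain.gcdA p q * p' + EuclideanDomain.gcdB p q * q')
      = (EuclideanDomain.gcd p q * p') * EuclideanDomain.gcdA p q + 
        (EuclideanDomain.gcd p q * q') * EuclideanDomain.gcdB p q := by ring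
    rw [h2, ← hp', ← hq', ← h1, mul_one]
  set g := EuclideanDomain.gcd p q with hg
  have hg0 : Polynomial.aeval x g ≠ 0 := by
    intro h; rw [hq', map_mul, h, zero_mul] at hq0; exact hq0 rfl
  have hq'0 : Polynomial.aeval x q' ≠ 0 := by
    intro h; rw [hq', map_mul, h, mul_zero] at hq0; exact hq0 rfl
  have hf' : f = Polynomial.aeval x p' / Polynomial.aeval x q' := by
    rw [hpq, hp', hq', map_mul, map_mul]
    field_simp
  obtain ⟨u, v, huv⟩ := hco
  have h1 := congrArg (Polynomial.aeval x) huv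
  rw [map_add, map_mul, map_mul, map_one] at h1
  have hinv : (Polynomial.aeval x q')⁻¹ = Polynomial.aeval x u * f + Polynomial.aeval x v := by
    rw [hf']
    field_simp
    linear_combination -h1
  have hinvO : (Polynomial.aeval x q')⁻¹ ∈ O := by
    rw [hinv]
    exact add_mem (mul_mem (rig_aeval_mem hBO hx _) hfO) (rig_aeval_mem hBO hx _)
  rw [hf', div_eq_mul_inv, Derivation.leibniz, Derivation.leibniz_inv]
  simp only [smul_eq_mul]
  apply add_mem
  · apply mul_mem (rig_aeval_mem hBO hx _)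
    exact mul_mem (neg_mem (pow_mem hinvO 2)) (rig_d_aeval_mem hBO hx d hdB hdx _)
  · exact mul_mem hinvO (rig_d_aeval_mem hBO hx d hdB hdx _)

theorem rig_val_units {R : Type} [CommRing R] [IsDomain R] [ValuationRing R] (S : Finset ℕ) (c : ℕ → R)
    (hS : ∃ i ∈ S, c i ≠ 0) : ∃ i0 ∈ S, c i0 ≠ 0 ∧ ∀ i ∈ S, c i0 ∣ c i := by
  classical
  induction S using Finset.induction_on with
  | empty => simp at hS
  | insert a S ha ih =>
    by_cases h : ∃ i ∈ S, c i ≠ 0
    · obtain ⟨i0, hi0, hne, hd⟩ := ih h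
      rcases ValuationRing.dvd_total (c i0) (c a) with h1 | h1
      · refine ⟨i0, Finset.mem_insert_of_mem hi0, hne, fun i hi => ?_⟩
        rcases Finset.mem_insert.1 hi with rfl | hi
        · exact h1
        · exact hd i hi
      · refine ⟨a, Finset.mem_insert_self _ _, ?_, fun i hi => ?_⟩
        · intro h2
          rw [h2, zero_dvd_iff] at h1
          exact hne h1
        rcases Finset.mem_insert.1 hi with rfl | hi
        · exact dvd_refl _
        · exact h1.trans (hd i hi)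
    · push Not at h
      obtain ⟨i, hi, hci⟩ := hS
      rcases Finset.mem_insert.1 hi with rfl | hi
      · refine ⟨i, Finset.mem_insert_self _ _, hci, fun j hj => ?_⟩
        rcases Finset.mem_insert.1 hj with rfl | hj
        · exact dvd_refl _
        · rw [h j hj]; exact dvd_zero _
      · exact absurd (h i hi) hci

/-- finding an integral translate-inverse -/
theorem rig_c2d_gen {R L : Type} [CommRing R] [IsDomain R] [ValuationRing R] [Field L] [Algebra R L] 
    [FaithfulSMul R L] (hQ : ∀ n : ℕ, n ≠ 0 → IsUnit (n : R))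
    {f : L} (hf : IsAlgebraic R f)  :
    ∃ n : ℕ, f - n ≠ 0 ∧ IsIntegral R (f - n)⁻¹ := by
  classical
  have hinj : Function.Injective (algebraMap R L) := FaithfulSMul.algebraMap_injective R L
  obtain ⟨μ, hμ0, hμ⟩ := hf
  obtain ⟨i0, hi0, hne, hdvd⟩ := rig_val_units μ.support μ.coeff (by
    obtain ⟨i, hi⟩ := Polynomial.nonempty_support_iff.2 hμ0
    exact ⟨i, hi, Polynomial.mem_support_iff.1 hi⟩)
  have hdvd' : Polynomial.C (μ.coeff i0) ∣ μ := by
    rw [Polynomial.C_dvd_iff_dvd_coeff]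
    intro i
    by_cases hi : i ∈ μ.support
    · exact hdvd i hi
    · rw [Polynomial.notMem_support_iff.1 hi]; exact dvd_zero _
  obtain ⟨ν, hν⟩ := hdvd'
  have hν1 : ν.coeff i0 = 1 := by
    have := congrArg (fun p => Polynomial.coeff p i0) hν
    simp only [Polynomial.coeff_C_mul] at this
    apply mul_left_cancel₀ hne
    rw [mul_one, ← this]
  have hνf : Polynomial.aeval f ν = 0 := by
    rw [hν, map_mul, Polynomial.aeval_C] at hμ
    refine (mul_eq_zero.1 hμ).resolve_left ?_
    intro h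
    rw [map_eq_zero_iff _ hinj] at h
    exact hne h
  -- residue field
  have hchar : ∀ n : ℕ, n ≠ 0 → ((n : R) |> IsLocalRing.residue R) ≠ 0 := by
    intro n hn
    exact (IsLocalRing.residue_ne_zero_iff_isUnit _).2 (hQ n hn)
  have hcz : CharZero (IsLocalRing.ResidueField R) := by
    refine charZero_of_inj_zero ?_
    intro n hn
    by_contra h
    apply hchar n h
    rw [map_natCast]
    exact hn
  have hmap : ν.map (IsLocalRing.residue R) ≠ 0 := by
    intro h
    have := congrArg (fun p => Polynomial.coeff p i0) h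
    simp [Polynomial.coeff_map, hν1] at this
  have hex : ∃ n : ℕ, (ν.map (IsLocalRing.residue R)).eval (n : IsLocalRing.ResidueField R) ≠ 0 := by
    by_contra hcon
    push Not at hcon
    apply hmap
    apply Polynomial.eq_zero_of_infinite_isRoot
    apply (Set.infinite_range_of_injective (Nat.cast_injective (R := IsLocalRing.ResidueField R))).mono
    rintro _ ⟨n, rfl⟩
    exact hcon n
  obtain ⟨n, hn⟩ := hex
  have hunit : IsUnit (ν.eval (n : R)) := by
    rw [← IsLocalRing.residue_ne_zero_iff_isUnit]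
    rwa [← map_natCast (IsLocalRing.residue R) n, Polynomial.eval_map_apply] at hn
  have hfn0 : f - n ≠ 0 := by
    intro h
    have hfn : f = algebraMap R L (n : R) := by rw [map_natCast]; exact sub_eq_zero.1 h
    rw [hfn, Polynomial.aeval_algebraMap_apply_eq_algebraMap_eval, map_eq_zero_iff _ hinj] at hνf
    rw [hνf] at hunit
    exact not_isUnit_zero hunit
  refine ⟨n, hfn0, ?_⟩
  set ν' := ν.comp (Polynomial.X + Polynomial.C (n : R)) with hν'
  have h0 : ν'.coeff 0 = ν.eval (n : R) := by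
    rw [Polynomial.coeff_zero_eq_eval_zero, hν', Polynomial.eval_comp]
    simp
  have hne0 : ν'.coeff 0 ≠ 0 := by
    rw [h0]; exact hunit.ne_zero
  have h1 : Polynomial.aeval (f - n) ν' = 0 := by
    rw [hν', Polynomial.aeval_comp]
    simp [hνf]
  have h2 : Polynomial.aeval (f - n)⁻¹ ν'.reverse = 0 := by
    letI := invertibleOfNonzero hfn0
    have h3 := (Polynomial.eval₂_reverse_eq_zero_iff (algebraMap R L) (f - n) ν').2 h1
    rw [invOf_eq_inv] at h3
    exact h3
  have h3 : ν'.reverse.leadingCoeff = ν.eval (n : R) := by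
    rw [Polynomial.reverse_leadingCoeff, Polynomial.trailingCoeff, 
      Polynomial.natTrailingDegree_eq_zero.2 (Or.inr hne0), h0]
  refine ⟨Polynomial.C (↑(hunit.unit⁻¹) : R) * ν'.reverse, ?_, ?_⟩
  · rw [Polynomial.Monic, Polynomial.leadingCoeff_mul, Polynomial.leadingCoeff_C, h3]
    exact hunit.val_inv_mul
  · rw [Polynomial.eval₂_mul]
    have : Polynomial.eval₂ (algebraMap R L) (f - n)⁻¹ ν'.reverse = 0 := h2
    rw [this, mul_zero]

theorem rig_c2b [CharZero Ω] {E' k : Subfield Ω} (hE'k : E' ≤ k) {O : ValuationSubring Ω} 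
    (hE'O : ∀ e ∈ E', e ∈ O) (d : Derivation ℤ Ω Ω) (hdk : ∀ z ∈ k, z ∈ O → d z ∈ O) {w : Ω} 
    (hw : IsIntegral E' w) (hwO: w ∈ O) (hdw : d w = 0) {α : Ω} (hα : α ∈ adj k {w}) 
    (hαi : IsIntegral (O.comap (algebraMap k Ω)) α) : d α ∈ O := by
  classical
  letI : Algebra E' k := (Subfield.inclusion hE'k).toAlgebra
  haveI : IsScalarTower E' k Ω := IsScalarTower.of_algebraMap_eq (fun x => rfl)
  have hwk : IsIntegral k w := hw.tower_top
  haveI : CharZero k := (RingHom.charZero_iff (algebraMap k Ω).injective).2 inferInstance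
  let L := IntermediateField.adjoin k {w}
  haveI : FiniteDimensional k L := IntermediateField.adjoin.finiteDimensional hwk
  let pb : PowerBasis k L := IntermediateField.adjoin.powerBasis hwk
  have hgen : (pb.gen : Ω) = w := rfl
  set R := O.comap (algebraMap k Ω) with hR
  letI algER : Algebra E' R := RingHom.toAlgebra
    { toFun := fun e => ⟨⟨e, hE'k e.2⟩, hE'O e e.2⟩
      map_one' := rfl
      map_mul' := fun _ _ => rfl
      map_zero' := rfl
      map_add' := fun _ _ => rfl }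
  letI algEL : Algebra E' L := ((algebraMap k L).comp (Subfield.inclusion hE'k)).toAlgebra
  haveI : IsScalarTower E' k L := IsScalarTower.of_algebraMap_eq (fun x => rfl)
  haveI : IsScalarTower E' R L := IsScalarTower.of_algebraMap_eq (fun x => rfl)
  haveI : IsScalarTower E' L Ω := IsScalarTower.of_algebraMap_eq (fun x => rfl)
  have hgE : IsIntegral E' pb.gen := by
    apply (isIntegral_algebraMap_iff (R := E') (A := L) (B := Ω) Subtype.val_injective).1
    exact hw
  have hgR : IsIntegral R pb.gen := hgE.tower_top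
  have hαL : α ∈ L := by
    rw [adj_eq_closure] at hα
    exact hα
  have hzR : IsIntegral R (⟨α, hαL⟩ : L) := by
    apply (isIntegral_algebraMap_iff (R := R) (A := L) (B := Ω) Subtype.val_injective).1
    exact hαi
  have h1 := Algebra.discr_mul_isIntegral_mem_adjoin k hgR hzR
  have h2 : IsIntegral E' (Algebra.discr k pb.basis) := by
    apply Algebra.discr_isIntegral k
    intro i
    rw [pb.basis_eq_pow]
    exact hgE.pow _
  have h3 : Algebra.discr k pb.basis ≠ 0 := Algebra.discr_not_zero_of_basis k pb.basis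
  set D := Algebra.discr k pb.basis with hD
  have h4 : (D : Ω) ∈ acl E' := by
    rw [mem_acl]
    exact (h2.map (IsScalarTower.toAlgHom E' k Ω)).isAlgebraic
  have h5 : (D : Ω)⁻¹ ∈ O := rig_acl_mem hE'O ((acl E').inv_mem h4)
  rw [Algebra.adjoin_singleton_eq_range_aeval] at h1
  obtain ⟨p, hp⟩ := h1
  have hp2 : Polynomial.aeval w p = (D : Ω) * α := by
    have h6 := congrArg (algebraMap L Ω) hp
    change algebraMap L Ω (Polynomial.aeval pb.gen p) = _ at h6
    rw [← Polynomial.aeval_algebraMap_apply] at h6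
    exact h6
  have hD0 : (D : Ω) ≠ 0 := by
    intro h; exact h3 (Subtype.ext h)
  have hα2 : α = ∑ i ∈ Finset.range (p.natDegree + 1), ((D : Ω)⁻¹ * (p.coeff i : k)) * w ^ i := by
    rw [Polynomial.aeval_eq_sum_range] at hp2
    have h7 : α = (D : Ω)⁻¹ * ((D : Ω) * α) := by field_simp
    rw [h7, ← hp2, Finset.mul_sum]
    apply Finset.sum_congr rfl
    intro i _
    rw [mul_assoc]
    rfl
  rw [hα2, map_sum]
  apply sum_mem
  intro i _
  rw [Derivation.leibniz, Derivation.leibniz_pow, hdw]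
  simp only [smul_eq_mul, mul_zero, smul_zero, zero_add]
  apply mul_mem (pow_mem hwO i)
  apply hdk
  · exact k.mul_mem (k.inv_mem D.2) (p.coeff i : k).2
  · exact mul_mem h5 (p.coeff i).2

theorem rig_prim0 [CharZero Ω] {E' : Subfield Ω} (K : IntermediateField E' Ω) (hfin : FiniteDimensional E' K) :
    ∃ θ ∈ K, ∀ y ∈ K, y ∈ adj E' {θ} := by
  classical
  haveI : CharZero E' := (RingHom.charZero_iff (algebraMap E' Ω).injective).2 inferInstance
  obtain ⟨θ, hθ⟩ := Field.exists_primitive_element E' K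
  refine ⟨θ, θ.2, ?_⟩
  intro y hy
  have h1 : (⟨y, hy⟩ : K) ∈ IntermediateField.adjoin E' {θ} := by rw [hθ]; trivial
  have h2 := IntermediateField.adjoin_map E' ({θ} : Set K) K.val
  rw [adj_eq_closure]
  have h3 : y ∈ (IntermediateField.adjoin E' ({θ} : Set K)).map K.val := ⟨⟨y, hy⟩, h1, rfl⟩
  rw [h2, Set.image_singleton] at h3
  exact h3

theorem rig_fin {E' : Subfield Ω} {w1 w2 : Ω} (h1 : w1 ∈ acl E') (h2 : w2 ∈ acl E') :
    FiniteDimensional E' (IntermediateField.adjoin E' {w1, w2}) := by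
  have : Finite ({w1, w2} : Set Ω) := Set.Finite.subset (Set.toFinite {w1, w2}) le_rfl
  apply IntermediateField.finiteDimensional_adjoin
  intro y hy
  rcases hy with rfl | rfl
  · exact (mem_acl.1 h1).isIntegral
  · exact (mem_acl.1 h2).isIntegral

theorem rig_prim [CharZero Ω] {E' : Subfield Ω} {w1 w2 : Ω} (h1 : w1 ∈ acl E') (h2 : w2 ∈ acl E') :
    ∃ θ ∈ adj E' {w1, w2}, ∀ y ∈ adj E' {w1, w2}, y ∈ adj E' {θ} := by
  have h := rig_prim0 _ (rig_fin h1 h2)
  rw [adj_eq_closure]
  exact h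

theorem rig_c2c [CharZero Ω] {E' M k B: Subfield Ω} (hE'M : E' ≤ M) (hM : M ≤ acl E') 
    (hE'k : E' ≤ k) (hBk : B ≤ k) {α : Ω} (hα : α ∈ B ⊔ M) : ∃ w ∈ M, α ∈ adj k {w} := by
  classical
  have prim : ∀ w1 ∈ M, ∀ w2 ∈ M, ∃ w ∈ M, adj k {w1} ≤ adj k {w} ∧ adj k {w2} ≤ adj k {w} := by
    intro w1 hw1 w2 hw2
    obtain ⟨θ, hθ, hy⟩ := rig_prim (hM hw1) (hM hw2)
    have hle : adj E' {w1, w2} ≤ M := adj_le hE'M (by
      rintro y (rfl | rfl)
      · exact hw1
      · exact hw2)
    have hle2 : adj E' {θ} ≤ adj k {θ} := adj_mono hE'k le_rfl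
    refine ⟨θ, hle hθ, ?_, ?_⟩
    · apply adj_le (le_adj _ _)
      rintro y rfl
      exact hle2 (hy _ (subset_adj _ _ (Or.inl rfl)))
    · apply adj_le (le_adj _ _)
      rintro y rfl
      exact hle2 (hy _ (subset_adj _ _ (Or.inr rfl)))
  have hcl : B ⊔ M = Subfield.closure ((B : Set Ω) ∪ M) := by
    rw [Subfield.closure_union, Subfield.closure_eq, Subfield.closure_eq]
  rw [hcl] at hα
  induction hα using Subfield.closure_induction with
  | mem y hy =>
    rcases hy with hy | hy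
    · exact ⟨0, M.zero_mem, le_adj _ _ (hBk hy)⟩
    · exact ⟨y, hy, subset_adj _ _ rfl⟩
  | one => exact ⟨0, M.zero_mem, one_mem _⟩
  | add y z _ _ hy hz =>
    obtain ⟨w1, hw1, h1⟩ := hy
    obtain ⟨w2, hw2, h2⟩ := hz
    obtain ⟨w, hw, h3, h4⟩ := prim w1 hw1 w2 hw2
    exact ⟨w, hw, add_mem (h3 h1) (h4 h2)⟩
  | neg y _ hy =>
    obtain ⟨w1, hw1, h1⟩ := hy
    exact ⟨w1, hw1, neg_mem h1⟩
  | inv y _ hy =>
    obtain ⟨w1, hw1, h1⟩ := hy
    exact ⟨w1, hw1, inv_mem h1⟩
  | mul y z _ _ hy hz =>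
    obtain ⟨w1, hw1, h1⟩ := hy
    obtain ⟨w2, hw2, h2⟩ := hz
    obtain ⟨w, hw, h3, h4⟩ := prim w1 hw1 w2 hw2
    exact ⟨w, hw, mul_mem (h3 h1) (h4 h2)⟩

theorem rig_case2 [CharZero Ω] {E B M : Subfield Ω} (hEB : E ≤ B)
    (hEM : E ≤ M) {x : Ω} (hxM : x ∈ M) (hM : M ≤ acl (adj E {x}))
    (d : Derivation ℤ Ω Ω) (hdB : ∀ b ∈ B, d b ∈ B) (hdM : ∀ m ∈ M, d m = 0)
    (O : ValuationSubring Ω) (hBO : ∀ b ∈ B, b ∈ O) (hMO : ∀ m ∈ M, m ∈ O)
    {f : Ω} (hf : f ∈ B ⊔ M) (hfO : f ∈ O) : d f ∈ O := by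
  classical
  have hBk : B ≤ adj B {x} := le_adj _ _
  have hE'k : adj E {x} ≤ adj B {x} := adj_mono hEB le_rfl
  have hE'M : adj E {x} ≤ M := adj_le hEM (by rintro y rfl; exact hxM)
  generalize hk : adj B {x} = k at hBk hE'k
  have hE'O : ∀ e ∈ adj E {x}, e ∈ O := fun e he => hMO e (hE'M he)
  have hdk : ∀ z ∈ k, z ∈ O → d z ∈ O := by
    rw [← hk]
    exact fun z hz hzO => rig_c2a hBO (hMO x hxM) d hdB (hdM x hxM) hz hzO
  have hfk : IsAlgebraic k f := by
    rw [← mem_acl]
    have : B ⊔ M ≤ acl k := sup_le (hBk.trans (le_acl _)) (hM.trans (acl_mono hE'k))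
    exact this hf
  have hfR : IsAlgebraic (O.comap (algebraMap k Ω)) f :=
    (IsFractionRing.isAlgebraic_iff (O.comap (algebraMap k Ω)) k Ω).2 hfk
  haveI : FaithfulSMul (O.comap (algebraMap k Ω)) Ω := by
    rw [faithfulSMul_iff_algebraMap_injective]
    exact Subtype.val_injective.comp Subtype.val_injective
  obtain ⟨n, hn, hint⟩ := rig_c2d_gen (R := O.comap (algebraMap k Ω)) (L := Ω) (by
    intro n hn
    rw [isUnit_iff_exists_inv]
    refine ⟨⟨(n : k)⁻¹, ?_⟩, ?_⟩
    · change ((n : k)⁻¹ : Ω) ∈ O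
      have : (n : Ω)⁻¹ ∈ O := hBO _ (B.inv_mem (natCast_mem B n))
      simpa using this
    · apply Subtype.ext
      apply Subtype.ext
      have hnΩ : (n : Ω) ≠ 0 := by exact_mod_cast hn
      change ((n : k) : Ω) * ((n : k)⁻¹ : k) = 1
      push_cast
      field_simp) hfR
  have hαF : (f - n)⁻¹ ∈ B ⊔ M := (B ⊔ M).inv_mem (sub_mem hf (natCast_mem _ n))
  obtain ⟨w, hwM, hαw⟩ := rig_c2c hE'M hM hE'k hBk hαF
  have h1 := rig_c2b hE'k hE'O d hdk (mem_acl.1 (hM hwM)).isIntegral (hMO w hwM) (hdM w hwM) hαw hint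
  have h2 : d f = -((f - n) ^ 2 * d (f - n)⁻¹) := by
    rw [Derivation.leibniz_inv, map_sub, Derivation.map_natCast]
    simp only [smul_eq_mul]
    field_simp
    ring
  rw [h2]
  exact neg_mem (mul_mem (pow_mem (sub_mem hfO (natCast_mem O n)) 2) h1)

theorem rigidity [CharZero Ω] [IsAlgClosed Ω] {E B M : Subfield Ω} (hE : acl E = E) (hEB : E ≤ B)
    (hEM : E ≤ M) {x : Ω} (hxM : x ∈ M) (hM : M ≤ acl (adj E {x})) (_hxB : x ∉ acl B)
    (d : Derivation ℤ Ω Ω) (hdB : ∀ b ∈ B, d b ∈ B) (hdM : ∀ m ∈ M, d m = 0)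
    {a b : Ω} (ha : a ∈ B ⊔ M) (hb : b ∈ B ⊔ M) (h : a ^ 4 + b ^ 4 = 1) :
    a ∈ acl B ∨ d a = 0 := by
  refine rig_concl (F := B ⊔ M) d ?_ ha hb h
  intro O hBO f hf hfO
  by_cases hMO : ∀ m ∈ M, m ∈ O
  · exact rig_case2 hEB hEM hxM hM d hdB hdM O hBO hMO hf hfO
  · push Not at hMO
    obtain ⟨y, hyM, hyO⟩ := hMO
    exact rig_case1 hE hEB hEM hM d hdB hdM O hBO hyM hyO hf hfO

end Pool.Agent.Helper737.Ample
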