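import Pool.Agent.Helper737.AmpleTower


namespace Pool.Agent.Helper737.Ample

variable {Ω : Type} [Field Ω]

theorem adjoin_toSubfield (K : Subfield Ω) (S : Set Ω) : 
    (IntermediateField.adjoin K S).toSubfield = adj K S := by
  apply le_antisymm
  · rw [IntermediateField.adjoin_toSubfield]
    apply Subfield.closure_le.2
    rintro z (⟨w, rfl⟩ | hz)
    · exact le_adj _ _ w.2
    · exact subset_adj _ _ hz
  · apply adj_le
    · intro z hz
      exact (IntermediateField.adjoin K S).algebraMap_mem ⟨z, hz⟩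
    · exact IntermediateField.subset_adjoin K S

theorem exists_coeffs {K : ℕ → Subfield Ω} (hK : Monotone K) {ι : Type*} (t : Finset ι) (f : ι → Ω)
    (hf : ∀ i ∈ t, f i ∈ ⨆ j, K j) (m : ℕ) : ∃ j, m ≤ j ∧ ∀ i ∈ t, f i ∈ K j := by
  classical
  induction t using Finset.induction_on with
  | empty => exact ⟨m, le_rfl, by simp⟩
  | insert i t _ ih =>
    obtain ⟨j, hj, hj'⟩ := ih (fun i' hi' => hf i' (Finset.mem_insert_of_mem hi'))
    obtain ⟨k, hk⟩ := (mem_iSup_mono hK).1 (hf i (Finset.mem_insert_self i t))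
    refine ⟨max j k, hj.trans (le_max_left _ _), ?_⟩
    intro i' hi'
    rcases Finset.mem_insert.1 hi' with rfl | hi'
    · exact hK (le_max_right _ _) hk
    · exact hK (le_max_left _ _) (hj' i' hi')

theorem mem_acl_iff {k : Subfield Ω} {z : Ω} : z ∈ acl k ↔ 
    ∃ p : Polynomial Ω, p ≠ 0 ∧ (∀ n, p.coeff n ∈ k) ∧ p.eval z = 0 := by
  rw [mem_acl]
  constructor
  · rintro ⟨p, hp, hz⟩
    refine ⟨p.map k.subtype, (Polynomial.map_ne_zero_iff k.subtype.injective).2 hp, ?_, ?_⟩
    · intro n; rw [Polynomial.coeff_map]; exact (p.coeff n).2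
    · rw [Polynomial.eval_map]; exact hz
  · rintro ⟨p, hp, hc, hz⟩
    have h1 : p ∈ Polynomial.lifts k.subtype := by
      rw [Polynomial.lifts_iff_coeff_lifts]
      intro n
      exact ⟨⟨p.coeff n, hc n⟩, rfl⟩
    obtain ⟨q, hq⟩ := (Polynomial.mem_lifts _).1 h1
    refine ⟨q, ?_, ?_⟩
    · rintro rfl
      exact hp (by rw [← hq]; simp)
    · rw [← hq, Polynomial.eval_map] at hz
      exact hz

theorem mem_acl_iSup {K : ℕ → Subfield Ω} (hK : Monotone K) {z : Ω} (hz : z ∈ acl (⨆ j, K j)) 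
    (m : ℕ) : ∃ j, m ≤ j ∧ z ∈ acl (K j) := by
  obtain ⟨p, hp, hc, hz⟩ := mem_acl_iff.1 hz
  obtain ⟨j, hj, hj'⟩ := exists_coeffs hK (Finset.range (p.natDegree + 1)) p.coeff 
    (fun i _ => hc i) m
  refine ⟨j, hj, mem_acl_iff.2 ⟨p, hp, ?_, hz⟩⟩
  intro n
  by_cases hn : n ≤ p.natDegree
  · exact hj' n (Finset.mem_range.2 (Nat.lt_succ_of_le hn))
  · rw [Polynomial.coeff_eq_zero_of_natDegree_lt (not_le.1 hn)]
    exact Subfield.zero_mem _

theorem adj_iSup {L : ℕ → Subfield Ω} (S : Set Ω) : adj (⨆ j, L j) S = ⨆ j, adj (L j) S := by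
  apply le_antisymm
  · apply adj_le
    · exact iSup_mono fun j => le_adj _ _
    · exact (subset_adj _ _).trans (le_iSup (fun j => adj (L j) S) 0)
  · exact iSup_le fun j => adj_mono (le_iSup L j) subset_rfl

/-- The algebraic core. -/
theorem core [CharZero Ω] [IsAlgClosed Ω] [Uncountable Ω] : ∃ K : Subfield Ω, 
    (∃ x : Ω, Transcendental K x) ∧ 
    (∀ (n : ℕ) (a : Fin n → Ω) (i₀ : Fin n), Transcendental K (a i₀) →
      (∀ i, IsAlgebraic (IntermediateField.adjoin K {a i₀}) (a i)) →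
      (∀ z ∈ IntermediateField.adjoin K (Set.range a), IsAlgebraic K z →
        z ∈ (algebraMap K Ω).fieldRange) →
      ∀ T : Finset (MvPolynomial (Fin n) K), (∀ G ∈ T, MvPolynomial.aeval a G = 0) →
        ∃ s : Ω, s ^ 2 ∈ (algebraMap K Ω).fieldRange ∧
          {b : Fin n → Ω | (∀ i, b i ∈ IntermediateField.adjoin K {s}) ∧
            ∀ G ∈ T, MvPolynomial.aeval b G = 0}.Infinite) ∧ 
    (∀ (M : Type) [Field M] [Algebra K M] [FiniteDimensional K M], ∃ u : M, u ≠ 0 ∧ 
      {p : M × M | p.1 ^ 4 + u * p.2 ^ 4 = 1}.Finite) := by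
  obtain ⟨K, u, hK, hu, hP, hH⟩ := tower (Ω := Ω)
  have hP0 : ∀ j, Pext (K j) (K (j + 1)) := fun j => (Pext.adj (hu j)).trans (hP j)
  have hmono : Monotone K := monotone_nat_of_le_succ fun j => (hP0 j).le
  set L : ℕ → Subfield Ω := fun j => adj (K j) {u j} with hL
  have hKL : ∀ j, K j ≤ L j := fun j => le_adj _ _
  have hLK : ∀ j, L j ≤ K (j + 1) := fun j => (hP j).le
  have hLmono : Monotone L := monotone_nat_of_le_succ fun j => (hLK j).trans (hKL (j + 1))
  have hPL : ∀ j, Pext (L j) (L (j + 1)) := fun j => (hP j).trans (Pext.adj (hu (j + 1)))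
  have hsup : ⨆ j, L j = ⨆ j, K j := by
    apply le_antisymm
    · exact iSup_le fun j => (hLK j).trans (le_iSup K (j + 1))
    · exact iSup_mono hKL
  have hLsup : ∀ j, Pext (L j) (⨆ j, K j) := fun j => hsup ▸ Pext.iSup hPL j
  have hKc : ((⨆ j, K j : Subfield Ω) : Set Ω).Countable := by
    rw [Subfield.coe_iSup_of_directed hmono.directed_le]
    exact Set.countable_iUnion fun j => hK j
  refine ⟨⨆ j, K j, ?_, ?_, ?_⟩
  · obtain ⟨x, hx⟩ := exists_notMem_acl hKc
    exact ⟨x, fun h => hx (mem_acl.2 h)⟩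
  · intro n a i₀ h1 h2 h3 T hT
    have hx : a i₀ ∉ acl (⨆ j, K j) := fun h => h1 (mem_acl.1 h)
    have halg : ∀ i, a i ∈ acl (adj (⨆ j, K j) {a i₀}) := by
      intro i
      have h4 := h2 i
      rw [← adjoin_toSubfield, mem_acl]
      exact h4
    have hreg : adj (⨆ j, K j) (Set.range a) ⊓ acl (⨆ j, K j) ≤ ⨆ j, K j := by
      rintro z ⟨hz1, hz2⟩
      rw [← adjoin_toSubfield] at hz1
      obtain ⟨w, hw⟩ := h3 z hz1 (mem_acl.1 hz2)
      rw [← hw]; exact w.2
    -- choose a level
    have hlev : ∃ j, (∀ i, a i ∈ acl (adj (L j) {a i₀})) ∧ 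
        ∀ G ∈ T, ∀ m ∈ G.support, ((G.coeff m : ↥(⨆ j, K j)) : Ω) ∈ L j := by
      have h5 : ∀ i, ∃ j, a i ∈ acl (adj (L j) {a i₀}) := by
        intro i
        have h6 := halg i
        rw [← hsup, adj_iSup] at h6
        obtain ⟨j, -, hj⟩ := mem_acl_iSup (K := fun j => adj (L j) {a i₀}) 
          (fun _ _ hab => adj_mono (hLmono hab) subset_rfl) h6 0
        exact ⟨j, hj⟩
      choose g hg using h5
      have h7 : ∃ j, ∀ G ∈ T, ∀ m ∈ G.support, ((G.coeff m : ↥(⨆ j, K j)) : Ω) ∈ L j := by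
        classical
        obtain ⟨j, -, hj⟩ := exists_coeffs hLmono (T.sigma (fun G => G.support)) 
          (fun q => ((q.1.coeff q.2 : ↥(⨆ j, K j)) : Ω)) (by
            intro q _
            rw [hsup]
            exact (q.1.coeff q.2).2) 0
        exact ⟨j, fun G hG m hm => hj ⟨G, m⟩ (Finset.mem_sigma.2 ⟨hG, hm⟩)⟩
      obtain ⟨j₀, hj₀⟩ := h7
      refine ⟨max j₀ (Finset.univ.sup g), ?_, ?_⟩
      · intro i
        exact acl_mono (adj_mono (hLmono ((Finset.le_sup (Finset.mem_univ i)).trans 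
          (le_max_right _ _))) subset_rfl) (hg i)
      · intro G hG m hm
        exact hLmono (le_max_left _ _) (hj₀ G hG m hm)
    obtain ⟨j, hj1, hj2⟩ := hlev
    have hLK' : L j ≤ ⨆ j, K j := (hLsup j).le
    have hgen : IsGen (L j) i₀ a := by
      refine ⟨fun h => hx (acl_mono hLK' h), hj1, ?_⟩
      rintro z ⟨hz1, hz2⟩
      exact (hLsup j).reg ⟨hreg ⟨adj_mono hLK' subset_rfl hz1, acl_mono hLK' hz2⟩, hz2⟩
    obtain ⟨s, hs, c, hc, hcc⟩ := hH j n i₀ a hgen
    have hKj : K (j + 1) ≤ ⨆ j, K j := le_iSup K (j + 1)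
    refine ⟨s, ⟨⟨s ^ 2, hKj hs⟩, rfl⟩, ?_⟩
    refine Set.infinite_of_injective_forall_mem hc ?_
    intro m
    refine ⟨fun i => ?_, fun G hG => ?_⟩
    · have h8 : c m i ∈ (IntermediateField.adjoin ↥(⨆ j, K j) {s}).toSubfield := by
        rw [adjoin_toSubfield]
        exact adj_mono hKj subset_rfl ((hcc m).1 i)
      exact h8
    · -- descend G
      have h9 : ∃ G' : MvPolynomial (Fin n) (L j), MvPolynomial.map (Subfield.inclusion hLK') G' = G := by
        have : G ∈ Set.range (MvPolynomial.map (σ := Fin n) (Subfield.inclusion hLK')) := by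
          rw [MvPolynomial.mem_range_map_iff_coeffs_subset]
          intro w hw
          rw [Finset.mem_coe, MvPolynomial.mem_coeffs_iff] at hw
          obtain ⟨m', hm', rfl⟩ := hw
          exact ⟨⟨_, hj2 G hG m' hm'⟩, Subtype.ext rfl⟩
        exact this
      obtain ⟨G', hG'⟩ := h9
      have h10 : ∀ b : Fin n → Ω, MvPolynomial.aeval b G = MvPolynomial.aeval b G' := by
        intro b
        rw [← hG', MvPolynomial.aeval_def, MvPolynomial.eval₂_map, MvPolynomial.aeval_def]
        rfl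
      rw [h10]
      exact ((hcc m).2 G').1 (by rw [← h10]; exact hT G hG)
  · intro M _ _ _
    let φ : M →ₐ[↥(⨆ j, K j)] Ω := IsAlgClosed.lift
    -- a level containing M
    have hlev : ∃ j, ∀ z : M, φ z ∈ acl (K j) ⊔ ⨆ j, K j := by
      let b := Module.finBasis ↥(⨆ j, K j) M
      have h1 : ∀ i, ∃ j, φ (b i) ∈ acl (K j) := by
        intro i
        have h2 : φ (b i) ∈ acl (⨆ j, K j) := by
          rw [mem_acl]
          have h3 : IsAlgebraic ↥(⨆ j, K j) (b i) := Algebra.IsAlgebraic.isAlgebraic (b i)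
          exact h3.algHom φ
        obtain ⟨j, -, hj⟩ := mem_acl_iSup hmono h2 0
        exact ⟨j, hj⟩
      choose g hg using h1
      refine ⟨Finset.univ.sup g, fun z => ?_⟩
      rw [← b.sum_repr z, map_sum]
      refine Subfield.sum_mem _ fun i _ => ?_
      rw [map_smul, Algebra.smul_def]
      refine Subfield.mul_mem _ ((le_sup_right : _ ≤ acl (K _) ⊔ ⨆ j, K j) (b.repr z i).2) ?_
      exact (le_sup_left : _ ≤ acl (K _) ⊔ ⨆ j, K j) 
        (acl_mono (hmono (Finset.le_sup (Finset.mem_univ i))) (hg i))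
    obtain ⟨j, hj⟩ := hlev
    have huK : u j ∈ ⨆ j, K j := (hLsup j).le (subset_adj _ _ rfl)
    have hu0 : u j ≠ 0 := by
      intro h
      exact hu j (by rw [h]; exact Subfield.zero_mem _)
    refine ⟨algebraMap ↥(⨆ j, K j) M ⟨u j, huK⟩, ?_, ?_⟩
    · intro h
      apply hu0
      have := congrArg φ h
      rw [AlgHom.commutes, map_zero] at this
      exact this
    · have key : ∀ p ∈ {p : M × M | p.1 ^ 4 + algebraMap ↥(⨆ j, K j) M ⟨u j, huK⟩ * p.2 ^ 4 = 1}, 
          p.2 = 0 := by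
        rintro ⟨a, b⟩ hab
        have hab' : (φ a) ^ 4 + u j * (φ b) ^ 4 = 1 := by
          have := congrArg φ hab
          simp only [map_add, map_mul, map_pow, map_one, AlgHom.commutes] at this
          exact this
        obtain ⟨v, hv⟩ := IsAlgClosed.exists_pow_nat_eq (u j) (n := 4) (by norm_num)
        have hv0 : v ≠ 0 := by
          rintro rfl
          apply hu0
          rw [← hv]; norm_num
        have hvL : v ∈ acl (L j) := by
          rw [mem_acl_iff]
          refine ⟨Polynomial.X ^ 4 - Polynomial.C (u j), ?_, ?_, ?_⟩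
          · exact Polynomial.X_pow_sub_C_ne_zero (by norm_num) _
          · intro n
            rw [Polynomial.coeff_sub, Polynomial.coeff_X_pow, Polynomial.coeff_C]
            apply Subfield.sub_mem
            · split_ifs
              · exact Subfield.one_mem _
              · exact Subfield.zero_mem _
            · split_ifs
              · exact subset_adj _ _ rfl
              · exact Subfield.zero_mem _
          · simp [hv]
        have hAle : acl (K j) ⊔ ⨆ j, K j ≤ acl (L j) ⊔ ⨆ j, K j := 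
          sup_le_sup_right (acl_mono (hKL j)) _
        have h3 := (hLsup j).fer (φ a) (hAle (hj a)) (v * φ b) 
          (Subfield.mul_mem _ ((le_sup_left : _ ≤ acl (L j) ⊔ ⨆ j, K j) hvL) (hAle (hj b))) 
          (by rw [mul_pow, hv]; exact hab')
        have hb : φ b ∈ acl (L j) := by
          have : φ b = v⁻¹ * (v * φ b) := by field_simp
          rw [this]
          exact Subfield.mul_mem _ (Subfield.inv_mem _ hvL) h3.2
        have h4 : acl (K j) ⊔ L j ≤ adj (acl (K j)) {u j} := 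
          sup_le (le_adj _ _) (adj_mono (le_acl _) subset_rfl)
        have ha' := h4 (sup_inf_acl (hKL j) (hLsup j).le (hLsup j).reg ⟨hj a, h3.1⟩)
        have hb' := h4 (sup_inf_acl (hKL j) (hLsup j).le (hLsup j).reg ⟨hj b, hb⟩)
        have h5 := twisted_fermat_adj (acl_idem (K j)) (by rw [acl_idem]; exact hu j) ha' hb' hab'
        exact (map_eq_zero φ).1 h5
      have hfin : {a : M | a ^ 4 = 1}.Finite := by
        have h6 : (Polynomial.X ^ 4 - Polynomial.C (1 : M)) ≠ 0 := 
          Polynomial.X_pow_sub_C_ne_zero (by norm_num) _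
        refine (Polynomial.finite_setOfPred_isRoot h6).subset ?_
        intro a ha
        simp only [Set.mem_ofPred_eq] at ha ⊢
        simp [ha]
      refine ((hfin.image (fun a => ((a, 0) : M × M)))).subset ?_
      rintro ⟨a, b⟩ hab
      have hb0 := key _ hab
      simp only at hb0
      subst hb0
      refine ⟨a, ?_, rfl⟩
      have := hab
      simp only [Set.mem_ofPred_eq] at this ⊢
      simpa using this

end Pool.Agent.Helper737.Ample
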