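import Pool.Agent.Helper737.AmpleBasic

namespace Pool.Agent.Helper737.Ample

variable {Ω : Type} [Field Ω]



/-- a valuation trivial on `D` with `x` in the maximal ideal -/
theorem ld_exists_val {D : Subfield Ω} {x : Ω} (hx : x ∉ acl D) :
    ∃ (Γ : Type) (_ : LinearOrderedCommGroupWithZero Γ) (V : Valuation Ω Γ),
      (∀ d ∈ D, d ≠ 0 → V d = 1) ∧ V x < 1 := by
  classical
  let A : Subring Ω := (Polynomial.aeval (R := D) x).range.toSubring
  have hxA : x ∈ A := ⟨Polynomial.X, by simp⟩
  let I : Ideal A := Ideal.span {⟨x, hxA⟩}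
  have hI : I ≠ ⊤ := by
    rw [Ne, Ideal.eq_top_iff_one, Ideal.mem_span_singleton]
    rintro ⟨⟨_, p, rfl⟩, hp⟩
    have h1 : (1 : Ω) = x * Polynomial.aeval (R := D) x p := congrArg Subtype.val hp
    apply hx
    rw [mem_acl]
    refine ⟨Polynomial.X * p - 1, ?_, ?_⟩
    · intro h
      have := congrArg (Polynomial.eval 0) h
      simp at this
    · simp [← h1]
  obtain ⟨O, hO, hO'⟩ := Ideal.image_subset_nonunits_valuationSubring I hI
  refine ⟨O.ValueGroup, inferInstance, O.valuation, ?_, ?_⟩
  · have key : ∀ d ∈ D, O.valuation d ≤ 1 := by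
      intro d hd
      rw [ValuationSubring.valuation_le_one_iff]
      exact hO ⟨Polynomial.C ⟨d, hd⟩, by simp; rfl⟩
    intro d hd hd0
    apply le_antisymm (key d hd)
    have h2 := key d⁻¹ (D.inv_mem hd)
    rw [map_inv₀] at h2
    have h3 : O.valuation d ≠ 0 := by simpa using hd0
    rwa [inv_le_one₀ (zero_lt_iff.2 h3)] at h2
  · have : x ∈ O.nonunits := hO' ⟨⟨x, hxA⟩, Ideal.subset_span rfl, rfl⟩
    exact (ValuationSubring.mem_nonunits_iff O).1 this

open scoped IntermediateField.algebraAdjoinAdjoin in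
theorem ld_rel {E : Subfield Ω} {x m : Ω} (hx0 : x ≠ 0) (hm : m ∈ acl (adj E {x})) :
    ∃ (S : Finset ℕ) (c : ℕ → Polynomial E), (∃ i ∈ S, (c i).coeff 0 ≠ 0) ∧
      ∑ i ∈ S, Polynomial.aeval x (c i) * m ^ i = 0 := by
  classical
  have h1 : m ∈ acl (IntermediateField.adjoin E {x}).toSubfield := by
    apply acl_mono _ hm
    apply adj_le
    · intro e he
      exact (IntermediateField.adjoin E {x}).algebraMap_mem ⟨e, he⟩
    · intro y hy
      exact IntermediateField.subset_adjoin E {x} hy
  rw [mem_acl] at h1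
  have h2 : IsAlgebraic (IntermediateField.adjoin E {x}) m := h1
  have h3 : IsAlgebraic (Algebra.adjoin E {x}) m :=
    (IsFractionRing.isAlgebraic_iff (Algebra.adjoin E {x}) (IntermediateField.adjoin E {x}) Ω).2 h2
  obtain ⟨q, hq0, hq⟩ := h3
  have hc : ∀ i, ∃ c : Polynomial E, Polynomial.aeval x c = (q.coeff i : Ω) := by
    intro i
    have h : (q.coeff i : Ω) ∈ (Polynomial.aeval (R := E) x).range := by
      rw [← Algebra.adjoin_singleton_eq_range_aeval]
      exact (q.coeff i).2
    obtain ⟨c, hc⟩ := h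
    exact ⟨c, hc⟩
  choose c hc using hc
  have hne : ∀ i ∈ q.support, c i ≠ 0 := by
    intro i hi h0
    have := hc i
    rw [h0, map_zero] at this
    exact (Polynomial.mem_support_iff.1 hi) (Subtype.ext this.symm)
  have hsupp : q.support.Nonempty := by
    rw [Finset.nonempty_iff_ne_empty, Ne, Polynomial.support_eq_empty]; exact hq0
  obtain ⟨i0, hi0, hmin⟩ := Finset.exists_min_image q.support
    (fun i => (c i).natTrailingDegree) hsupp
  set k := (c i0).natTrailingDegree with hk
  have hdvd : ∀ i, ∃ d : Polynomial E, i ∈ q.support → c i = Polynomial.X ^ k * d := by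
    intro i
    by_cases hi : i ∈ q.support
    · have : (Polynomial.X ^ k : Polynomial E) ∣ c i := by
        rw [Polynomial.X_pow_dvd_iff]
        intro j hj
        exact Polynomial.coeff_eq_zero_of_lt_natTrailingDegree (hj.trans_le (hmin i hi))
      obtain ⟨d, hd⟩ := this
      exact ⟨d, fun _ => hd⟩
    · exact ⟨0, fun h => absurd h hi⟩
  choose d hd using hdvd
  refine ⟨q.support, d, ⟨i0, hi0, ?_⟩, ?_⟩
  · intro h0
    have h4 : (c i0).coeff k = 0 := by
      rw [hd i0 hi0, Polynomial.coeff_X_pow_mul', if_pos le_rfl, Nat.sub_self, h0]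
    have h5 : (c i0).trailingCoeff = 0 := h4
    rw [Polynomial.trailingCoeff_eq_zero] at h5
    exact hne i0 hi0 h5
  · have h6 : x ^ k * ∑ i ∈ q.support, Polynomial.aeval x (d i) * m ^ i = 0 := by
      rw [Finset.mul_sum]
      rw [Polynomial.aeval_eq_sum_range, ] at hq
      rw [← hq, ← Polynomial.aeval_eq_sum_range, Polynomial.aeval_def, Polynomial.eval₂_eq_sum,
        Polynomial.sum_def]
      apply Finset.sum_congr rfl
      intro i hi
      have h7 := hc i
      rw [hd i hi, map_mul, map_pow, Polynomial.aeval_X] at h7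
      rw [← mul_assoc, h7]
      rfl
    rcases mul_eq_zero.1 h6 with h | h
    · exact absurd h (pow_ne_zero _ hx0)
    · exact h

theorem ld_val_aeval {E : Subfield Ω} {Γ : Type} [LinearOrderedCommGroupWithZero Γ]
    (V : Valuation Ω Γ) (hV : ∀ d ∈ E, d ≠ 0 → V d = 1) {y : Ω} (hy : V y ≤ 1)
    (p : Polynomial E) : V (Polynomial.aeval y p) ≤ 1 := by
  rw [Polynomial.aeval_eq_sum_range]
  apply V.map_sum_le
  intro i _
  rw [Algebra.smul_def, map_mul, map_pow]
  have h1 : V (algebraMap E Ω (p.coeff i)) ≤ 1 := by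
    by_cases h : p.coeff i = 0
    · rw [h]; simp
    · exact (hV _ (p.coeff i).2 (by simpa using h)).le
  exact mul_le_one' h1 (pow_le_one' hy i)

theorem ld_res [IsAlgClosed Ω] {E : Subfield Ω} (hE : acl E = E) {x m : Ω} {Γ : Type}
    [LinearOrderedCommGroupWithZero Γ] (V : Valuation Ω Γ) (hV : ∀ d ∈ E, d ≠ 0 → V d = 1)
    (hx : V x < 1) (hx0 : x ≠ 0) (hm : m ∈ acl (adj E {x})) (hm1 : V m ≤ 1) :
    ∃ e ∈ E, V (m - e) < 1 := by
  classical
  obtain ⟨S, c, ⟨i0, hi0, hc0⟩, hsum⟩ := ld_rel hx0 hm
  by_contra hcon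
  push Not at hcon
  have hone : ∀ e ∈ E, V (m - e) = 1 := by
    intro e he
    apply le_antisymm _ (hcon e he)
    apply (V.map_sub _ _).trans
    apply max_le hm1
    by_cases h : e = 0
    · rw [h]; simp
    · exact (hV e he h).le
  haveI := isAlgClosed_acl hE
  have hall : ∀ p : Polynomial E, p ≠ 0 → V (Polynomial.aeval m p) = 1 := by
    intro p hp
    have hs := (IsAlgClosed.splits p).eq_prod_roots
    rw [hs, map_mul, map_mul, Polynomial.aeval_C]
    have h1 : V (algebraMap E Ω p.leadingCoeff) = 1 :=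
      hV _ p.leadingCoeff.2 (by simpa using hp)
    rw [h1, one_mul, map_multiset_prod, map_multiset_prod, Multiset.map_map, Multiset.map_map]
    apply Multiset.prod_eq_one
    intro a ha
    rw [Multiset.mem_map] at ha
    obtain ⟨b, _, rfl⟩ := ha
    simp only [Function.comp_apply, map_sub, Polynomial.aeval_X, Polynomial.aeval_C]
    exact hone _ b.2
  let p : Polynomial E := ∑ i ∈ S, Polynomial.monomial i ((c i).coeff 0)
  have hp : p ≠ 0 := by
    intro h
    have := congrArg (fun r => Polynomial.coeff r i0) h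
    simp only [p, Polynomial.finsetSum_coeff, Polynomial.coeff_monomial, Polynomial.coeff_zero] at this
    rw [Finset.sum_ite_eq' S i0] at this
    rw [if_pos hi0] at this
    exact hc0 this
  have h2 := hall p hp
  have h3 : Polynomial.aeval m p = ∑ i ∈ S, (-(x * Polynomial.aeval x (c i).divX)) * m ^ i := by
    rw [← sub_zero (Polynomial.aeval m p), ← hsum]
    simp only [p, map_sum, Polynomial.aeval_monomial]
    rw [← Finset.sum_sub_distrib]
    apply Finset.sum_congr rfl
    intro i _
    have h4 : Polynomial.aeval x (c i) = x * Polynomial.aeval x (c i).divX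
        + algebraMap E Ω ((c i).coeff 0) := by
      have h9 := congrArg (Polynomial.aeval x) (Polynomial.divX_mul_X_add (c i))
      rw [map_add, map_mul, Polynomial.aeval_X, Polynomial.aeval_C] at h9
      rw [← h9]
      ring
    rw [h4]
    ring
  have h5 : V (Polynomial.aeval m p) < 1 := by
    rw [h3]
    apply V.map_sum_lt one_ne_zero
    intro i _
    rw [map_mul, map_pow, Valuation.map_neg, map_mul]
    calc V x * V (Polynomial.aeval x (c i).divX) * V m ^ i ≤ V x * 1 * 1 := by
          gcongr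
          · exact ld_val_aeval V hV hx.le _
          · exact pow_le_one' hm1 i
      _ = V x := by simp
      _ < 1 := hx
  exact absurd h2 h5.ne

theorem ld_step2 [IsAlgClosed Ω] {E D : Subfield Ω} (hE : acl E = E) (hED : E ≤ D) {x : Ω}
    (hx : x ∉ acl D) {ι : Type*} (b : ι → Ω) (hb : ∀ i, b i ∈ D) (hli : LinearIndependent E b) :
    LinearIndependent (acl (adj E {x})) b := by
  classical
  obtain ⟨Γ, _, V, hV, hVx⟩ := ld_exists_val hx
  have hx0 : x ≠ 0 := by
    rintro rfl
    exact hx (zero_mem _)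
  rw [linearIndependent_iff']
  intro s g hg
  by_contra hcon
  push Not at hcon
  obtain ⟨i1, hi1, hg1⟩ := hcon
  obtain ⟨i0, hi0, hmax⟩ := Finset.exists_max_image s (fun i => V (g i : Ω)) ⟨i1, hi1⟩
  have hg0 : (g i0 : Ω) ≠ 0 := by
    intro h
    have h1 := hmax i1 hi1
    simp only [h, map_zero, le_zero_iff, map_eq_zero] at h1
    exact hg1 (Subtype.ext h1)
  have hVg0 : V (g i0 : Ω) ≠ 0 := by simpa using hg0
  have hres : ∀ i, ∃ e : E, i ∈ s → V ((g i : Ω) / g i0 - e) < 1 := by
    intro i
    by_cases hi : i ∈ s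
    · have h2 : V ((g i : Ω) / g i0) ≤ 1 := by
        rw [map_div₀]
        exact div_le_one_of_le₀ (hmax i hi) zero_le
      obtain ⟨e, he, h3⟩ := ld_res hE V (fun d hd h0 => hV d (hED hd) h0) hVx hx0
        ((acl (adj E {x})).div_mem (g i).2 (g i0).2) h2
      exact ⟨⟨e, he⟩, fun _ => h3⟩
    · exact ⟨0, fun h => absurd h hi⟩
  choose e he using hres
  have hVb : ∀ i, V (b i) ≤ 1 := by
    intro i
    by_cases h : b i = 0
    · rw [h]; simp
    · exact (hV _ (hb i) h).le
  have hsum : ∑ i ∈ s, ((g i : Ω) / g i0) * b i = 0 := by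
    have h4 : ∑ i ∈ s, (g i : Ω) * b i = 0 := hg
    have h5 : ∑ i ∈ s, ((g i : Ω) / g i0) * b i = (∑ i ∈ s, (g i : Ω) * b i) / g i0 := by
      rw [Finset.sum_div]
      apply Finset.sum_congr rfl
      intro i _
      ring
    rw [h5, h4, zero_div]
  have hsum2 : ∑ i ∈ s, (e i : Ω) * b i = - ∑ i ∈ s, ((g i : Ω) / g i0 - e i) * b i := by
    rw [← add_eq_zero_iff_eq_neg, ← Finset.sum_add_distrib, ← hsum]
    apply Finset.sum_congr rfl
    intro i _
    ring
  have hlt : V (∑ i ∈ s, (e i : Ω) * b i) < 1 := by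
    rw [hsum2, Valuation.map_neg]
    apply V.map_sum_lt one_ne_zero
    intro i hi
    rw [map_mul]
    calc V ((g i : Ω) / g i0 - e i) * V (b i) ≤ V ((g i : Ω) / g i0 - e i) * 1 := by
          gcongr
          exact hVb i
      _ = V ((g i : Ω) / g i0 - e i) := mul_one _
      _ < 1 := he i hi
  have hD : ∑ i ∈ s, (e i : Ω) * b i ∈ D := sum_mem fun i _ => mul_mem (hED (e i).2) (hb i)
  have hzero : ∑ i ∈ s, (e i : Ω) * b i = 0 := by
    by_contra h
    exact absurd (hV _ hD h) hlt.ne
  have h6 := linearIndependent_iff'.1 hli s e hzero i0 hi0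
  have h7 := he i0 hi0
  rw [h6, div_self hg0] at h7
  simp at h7

theorem ld_step3 [IsAlgClosed Ω] {E D : Subfield Ω} (hE : acl E = E) (hED : E ≤ D) {x : Ω}
    (hx : x ∉ acl D) {ι : Type*} (v : ι → Ω) (hv : ∀ i, v i ∈ acl (adj E {x}))
    (hli : LinearIndependent E v) : LinearIndependent D v := by
  classical
  let A : IntermediateField E Ω := D.toIntermediateField (fun e => hED e.2)
  let M : IntermediateField E Ω := (acl (adj E {x})).toIntermediateField
    (fun e => le_acl _ (le_adj _ _ e.2))
  let a := Module.Free.chooseBasis E A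
  have h1 : LinearIndependent E (A.val ∘ a) := 
    a.linearIndependent.map' A.val.toLinearMap (LinearMap.ker_eq_bot.2 Subtype.val_injective)
  have h2 : LinearIndependent M (A.val ∘ a) := ld_step2 hE hED hx _ (fun i => (a i).2) h1
  have hdis : A.LinearDisjoint M := IntermediateField.LinearDisjoint.of_basis_left a h2
  let w : ι → M := fun i => ⟨v i, hv i⟩
  have h3 : LinearIndependent E w := by
    apply LinearIndependent.of_comp M.val.toLinearMap
    exact hli
  exact hdis.linearIndependent_right' h3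

theorem ld_minpoly {F N : Subfield Ω} (hFN : F ≤ N) (hreg : N ⊓ acl F ≤ F) {θ : Ω}
    (hθ : IsIntegral F θ) : (minpoly N θ).natDegree = (minpoly F θ).natDegree := by
  letI := (Subfield.inclusion hFN).toAlgebra
  haveI : IsScalarTower F N Ω := IsScalarTower.of_algebraMap_eq (fun x => rfl)
  have hint : IsIntegral N θ := hθ.tower_top
  have hdvd := minpoly.dvd_map_of_isScalarTower F N θ
  have hmem := integralClosure.mem_lifts_of_monic_of_dvd_map N (minpoly.monic hθ)
    (minpoly.monic hint) hdvd
  have hco : ∀ n, ∃ c : F, algebraMap F N c = (minpoly N θ).coeff n := by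
    intro n
    rw [Polynomial.lifts_iff_coeff_lifts] at hmem
    obtain ⟨c, hc⟩ := hmem n
    have h1 : ((minpoly N θ).coeff n : Ω) ∈ acl F := by
      rw [mem_acl, ← hc]
      have h2 : IsIntegral F (c : N) := c.2
      exact (h2.map (IsScalarTower.toAlgHom F N Ω)).isAlgebraic
    have h3 : ((minpoly N θ).coeff n : Ω) ∈ F := hreg ⟨((minpoly N θ).coeff n).2, h1⟩
    exact ⟨⟨_, h3⟩, Subtype.ext rfl⟩
  have hl : minpoly N θ ∈ Polynomial.lifts (algebraMap F N) := by
    rw [Polynomial.lifts_iff_coeff_lifts]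
    intro n
    exact hco n
  obtain ⟨q, hq, hqd, hqm⟩ := Polynomial.lifts_and_natDegree_eq_and_monic hl (minpoly.monic hint)
  apply le_antisymm
  · have := Polynomial.natDegree_le_of_dvd hdvd
      ((Polynomial.map_ne_zero (minpoly.ne_zero hθ)))
    rwa [Polynomial.natDegree_map] at this
  · rw [← hqd]
    apply Polynomial.natDegree_le_of_dvd _ hqm.ne_zero
    apply minpoly.dvd
    have h4 : Polynomial.aeval θ (minpoly N θ) = 0 := minpoly.aeval N θ
    rw [← hq, Polynomial.aeval_map_algebraMap] at h4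
    exact h4

theorem ld_step1 [CharZero Ω] {F N : Subfield Ω} (hFN : F ≤ N) (hreg : N ⊓ acl F ≤ F)
    {ι : Type*} (v : ι → Ω) (hv : ∀ i, v i ∈ N) (hli : LinearIndependent F v) :
    LinearIndependent (acl F) v := by
  classical
  letI := (Subfield.inclusion hFN).toAlgebra
  haveI : IsScalarTower F N Ω := IsScalarTower.of_algebraMap_eq (fun x => rfl)
  rw [linearIndependent_iff']
  intro s g hg
  let K : IntermediateField F Ω := IntermediateField.adjoin F (s.image (fun i => (g i : Ω)) : Set Ω)
  haveI : FiniteDimensional F K := by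
    apply IntermediateField.finiteDimensional_adjoin
    intro y hy
    rw [Finset.mem_coe, Finset.mem_image] at hy
    obtain ⟨i, _, rfl⟩ := hy
    exact (mem_acl.1 (g i).2).isIntegral
  haveI : CharZero F := (RingHom.charZero_iff (algebraMap F Ω).injective).2 inferInstance
  let pb := Field.powerBasisOfFiniteOfSeparable F K
  set θ : Ω := (pb.gen : Ω) with hθdef
  have hθ : IsIntegral F θ := (pb.isIntegral_gen).map K.val
  have hmin : minpoly F θ = minpoly F pb.gen := 
    minpoly.algHom_eq K.val Subtype.val_injective pb.gen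
  have hrep : ∀ i, ∃ p : Polynomial F, i ∈ s → (p.natDegree < pb.dim ∧ Polynomial.aeval θ p = (g i : Ω)) := by
    intro i
    by_cases hi : i ∈ s
    · have hmem : (g i : Ω) ∈ K := IntermediateField.subset_adjoin F _ (by
        rw [Finset.mem_coe]; exact Finset.mem_image_of_mem _ hi)
      obtain ⟨p, hp, hp2⟩ := pb.exists_eq_aeval ⟨(g i : Ω), hmem⟩
      refine ⟨p, fun _ => ⟨hp, ?_⟩⟩
      have h1 := congrArg K.val hp2
      rw [← Polynomial.aeval_algHom_apply] at h1
      exact h1.symm
    · exact ⟨0, fun h => absurd h hi⟩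
  choose p hp using hrep
  let w : ι → N := fun i => ⟨v i, hv i⟩
  let P : Polynomial N := ∑ i ∈ s, Polynomial.C (w i) * (p i).map (algebraMap F N)
  have hPθ : Polynomial.aeval θ P = 0 := by
    simp only [P, map_sum, map_mul, Polynomial.aeval_C, Polynomial.aeval_map_algebraMap]
    have hg' : ∑ i ∈ s, (g i : Ω) * v i = 0 := hg
    rw [← hg']
    apply Finset.sum_congr rfl
    intro i hi
    rw [(hp i hi).2, mul_comm]
    rfl
  have hdim : pb.dim = (minpoly F θ).natDegree := by
    rw [hmin]
    exact pb.natDegree_minpoly.symm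
  have hdim0 : 0 < pb.dim := pb.dim_pos
  have hPdeg : P.natDegree < pb.dim := by
    have : P.natDegree ≤ pb.dim - 1 := by
      apply Polynomial.natDegree_sum_le_of_forall_le
      intro i hi
      apply (Polynomial.natDegree_C_mul_le _ _).trans
      apply (Polynomial.natDegree_map_le).trans
      have := (hp i hi).1
      omega
    omega
  have hP0 : P = 0 := by
    by_contra h
    have h1 := Polynomial.natDegree_le_natDegree (minpoly.degree_le_of_ne_zero N θ h hPθ)
    rw [ld_minpoly hFN hreg hθ, ← hdim] at h1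
    omega
  intro i hi
  have hcoef : ∀ k, ∑ j ∈ s, (p j).coeff k • v j = 0 := by
    intro k
    have h1 := congrArg (fun r => ((Polynomial.coeff r k : N) : Ω)) hP0
    simp only [P, Polynomial.finsetSum_coeff, Polynomial.coeff_C_mul, Polynomial.coeff_map,
      Polynomial.coeff_zero] at h1
    have h2 : ((0 : N) : Ω) = 0 := rfl
    rw [h2] at h1
    rw [← h1, AddSubmonoidClass.coe_finsetSum]
    apply Finset.sum_congr rfl
    intro j _
    rw [Algebra.smul_def, mul_comm]
    rfl
  have hpi : p i = 0 := by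
    ext k
    have := linearIndependent_iff'.1 hli s (fun j => (p j).coeff k) (hcoef k) i hi
    rw [this]; simp
  have := (hp i hi).2
  rw [hpi, map_zero] at this
  exact Subtype.ext this.symm

theorem linDisj [CharZero Ω] [IsAlgClosed Ω] {F N B : Subfield Ω} (hFN : F ≤ N) {x : Ω}
    (hxN : x ∈ N) (hN : N ≤ acl (adj F {x})) (hreg : N ⊓ acl F ≤ F) (hFB : F ≤ B) (hxB : x ∉ acl B)
    {ι : Type*} (v : ι → Ω) (hv : ∀ i, v i ∈ N) (hli : LinearIndependent F v) :
    LinearIndependent B v := by
  have h1 := ld_step1 hFN hreg v hv hli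
  have h2 : LinearIndependent (acl B) v := by
    apply ld_step3 (E := acl F) (D := acl B) (acl_idem F) (acl_mono hFB) (x := x)
      (by rwa [acl_idem]) v _ h1
    intro i
    exact acl_mono (adj_mono (le_acl F) le_rfl) (hN (hv i))
  letI := (Subfield.inclusion (le_acl B)).toAlgebra
  haveI : IsScalarTower B (acl B) Ω := IsScalarTower.of_algebraMap_eq (fun x => rfl)
  exact h2.restrict_scalars (by
    intro a b hab
    have : (a • (1 : acl B) : acl B) = b • (1 : acl B) := hab
    have h3 := congrArg (Subtype.val) this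
    simp only [Algebra.smul_def, mul_one] at h3
    exact Subtype.ext h3)


end Pool.Agent.Helper737.Ample
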