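import Mathlib

open AlgebraicGeometry CategoryTheory

namespace Pool.Agent.Helper737.Ample

/-- `f : C ⟶ Spec K` is a `K`-curve: a geometrically integral separated `K`-scheme of finite type
of dimension one. -/
structure IsCurve {K : Type} [Field K] {C : Scheme.{0}} (f : C ⟶ Spec (.of K)) : Prop where
  geomIntegral : GeometricallyIntegral f
  separated : IsSeparated f
  locallyOfFiniteType : LocallyOfFiniteType f
  quasiCompact : QuasiCompact f
  dim_eq_one : topologicalKrullDim C = 1

/-- The set of `L`-rational points of the `K`-scheme `f : C ⟶ Spec K`. -/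
def Points {K : Type} [Field K] {C : Scheme.{0}} (f : C ⟶ Spec (.of K))
    (L : Type) [Field L] [Algebra K L] : Type :=
  {p : Spec (.of L) ⟶ C // p ≫ f = Spec.map (CommRingCat.ofHom (algebraMap K L))}

/-- `K` is ample: every smooth `K`-curve with a rational point has infinitely many. -/
def IsAmple (K : Type) [Field K] : Prop :=
  ∀ (C : Scheme.{0}) (f : C ⟶ Spec (.of K)), IsCurve f → AlgebraicGeometry.Smooth f →
    Nonempty (Points f K) → Infinite (Points f K)

/-- `K` is virtually ample: some finite extension of `K` is ample. -/
def IsVirtuallyAmple (K : Type) [Field K] : Prop :=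
  ∃ (L : Type) (_ : Field L) (_ : Algebra K L), FiniteDimensional K L ∧ IsAmple L

/-- `K` is weakly ample: every `K`-curve has infinitely many points over some finite extension
of `K`, which may depend on the curve. -/
def IsWeaklyAmple (K : Type) [Field K] : Prop :=
  ∀ (C : Scheme.{0}) (f : C ⟶ Spec (.of K)), IsCurve f →
    ∃ (L : Type) (_ : Field L) (_ : Algebra K L), FiniteDimensional K L ∧ Infinite (Points f L)

end Pool.Agent.Helper737.Ample
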