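import Pool.Agent.Helper737.AmpleBasic

namespace Pool.Agent.Helper737.Ample

variable {Ω : Type} [Field Ω]



open IntermediateField Polynomial in
theorem exists_galois_hull [CharZero Ω] [IsAlgClosed Ω] (k : Subfield Ω) (S : Finset Ω)
    (hS : ∀ s ∈ S, IsAlgebraic k s) :
    ∃ N : IntermediateField k Ω, FiniteDimensional k N ∧ IsGalois k N ∧ (S : Set Ω) ⊆ N := by
  classical
  let p : k[X] := ∏ s ∈ S, minpoly k s
  have hp0 : p ≠ 0 := by
    refine Finset.prod_ne_zero_iff.2 fun s hs => minpoly.ne_zero (hS s hs).isIntegral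
  let N : IntermediateField k Ω := adjoin k (p.rootSet Ω)
  haveI hsp : p.IsSplittingField k N :=
    adjoin_rootSet_isSplittingField (IsAlgClosed.splits _)
  haveI : FiniteDimensional k N := IsSplittingField.finiteDimensional N p
  haveI : CharZero k := inferInstance
  haveI : Normal k N := Normal.of_isSplittingField p
  refine ⟨N, inferInstance, ⟨⟩, ?_⟩
  intro s hs
  apply subset_adjoin
  rw [mem_rootSet_of_ne hp0]
  simp only [p, map_prod]
  exact Finset.prod_eq_zero hs (minpoly.aeval k s)

set_option synthInstance.maxHeartbeats 400000 in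
open IntermediateField in
theorem sup_inf_acl [CharZero Ω] [IsAlgClosed Ω] {F F' F'' : Subfield Ω} (h1 : F ≤ F')
    (h2 : F' ≤ F'') (hreg : F'' ⊓ acl F' ≤ F') : (acl F ⊔ F'') ⊓ acl F' ≤ acl F ⊔ F' := by
  classical
  rintro z ⟨hz1, hz2⟩
  have hzadj : z ∈ IntermediateField.adjoin F'' (acl F : Set Ω) := by
    have : acl F ⊔ F'' ≤ (IntermediateField.adjoin F'' (acl F : Set Ω)).toSubfield := by
      apply sup_le
      · intro y hy
        exact subset_adjoin F'' (acl F : Set Ω) hy
      · intro y hy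
        exact (IntermediateField.adjoin F'' (acl F : Set Ω)).algebraMap_mem ⟨y, hy⟩
    exact this hz1
  obtain ⟨T, hT, hzT⟩ := exists_finset_of_mem_adjoin hzadj
  obtain ⟨N, hfin, hgal, hSN⟩ := exists_galois_hull F' (insert z T) (by
    intro s hs
    rcases Finset.mem_insert.1 hs with rfl | hs
    · exact mem_acl.1 hz2
    · exact mem_acl.1 (acl_mono h1 (hT hs)))
  let L0 : IntermediateField F' Ω := F''.toIntermediateField (fun x => h2 x.2)
  let E0 : IntermediateField F' Ω := N ⊔ L0
  let K' : IntermediateField F' E0 := IntermediateField.restrict (le_sup_left : N ≤ N ⊔ L0)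
  let L' : IntermediateField F' E0 := IntermediateField.restrict (le_sup_right : L0 ≤ N ⊔ L0)
  have hsup : K' ⊔ L' = ⊤ := by
    rw [← lift_inj, lift_top, lift_sup, lift_restrict le_sup_left, lift_restrict le_sup_right]
  have hinf : K' ⊓ L' = ⊥ := by
    rw [← lift_inj, lift_bot, lift_inf, lift_restrict le_sup_left, lift_restrict le_sup_right]
    rw [eq_bot_iff]
    rintro x ⟨hxN, hxL⟩
    have hx1 : x ∈ acl F' := by
      rw [mem_acl]
      have := Algebra.IsAlgebraic.isAlgebraic (R := F') (⟨x, hxN⟩ : N)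
      exact (isAlgebraic_algebraMap_iff (R := F') (S := N) (A := Ω) Subtype.val_injective).2 this
    have hx2 : x ∈ F' := hreg ⟨hxL, hx1⟩
    exact IntermediateField.mem_bot.2 ⟨⟨x, hx2⟩, rfl⟩
  haveI : IsGalois F' K' := IsGalois.of_algEquiv <| restrictAlgEquiv ..
  haveI : FiniteDimensional F' K' := (restrictAlgEquiv ..).toLinearEquiv.finiteDimensional
  haveI : IsGalois L' E0 := IsGalois.sup_right K' L' hsup
  haveI : FiniteDimensional L' E0 := by
    obtain ⟨R, hR⟩ := Module.finite_def.1 (inferInstance : FiniteDimensional F' K')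
    have hfd : FiniteDimensional L' (adjoin L' ((fun x : K' => (x : E0)) '' (R : Set K'))) := by
      refine finiteDimensional_adjoin ?_
      rintro _ ⟨x, -, rfl⟩
      have hx : IsIntegral F' (x : E0) := (Algebra.IsIntegral.isIntegral x).map K'.val
      exact hx.tower_top
    have htop : adjoin L' ((fun x : K' => (x : E0)) '' (R : Set K')) = ⊤ := by
      rw [← restrictScalars_eq_top_iff (K := F'), restrictScalars_adjoin, eq_top_iff, ← hsup]
      refine sup_le ?_ ?_
      · intro x hx
        have hx' : (⟨x, hx⟩ : K') ∈ Submodule.span F' (R : Set K') := hR ▸ Submodule.mem_top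
        have := Submodule.mem_map_of_mem (f := K'.val.toLinearMap) hx'
        rw [Submodule.map_span] at this
        have h3 : Submodule.span F' (K'.val.toLinearMap '' (R : Set K')) ≤
            Subalgebra.toSubmodule (adjoin F' ((L' : Set E0) ∪ ((fun x : K' => (x : E0)) '' (R : Set K')))).toSubalgebra := by
          rw [Submodule.span_le]
          intro y hy
          exact subset_adjoin _ _ (Or.inr hy)
        exact h3 this
      · intro x hx
        exact subset_adjoin _ _ (Or.inl hx)
    rw [htop] at hfd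
    exact topEquiv.toLinearEquiv.finiteDimensional
  haveI : Normal F' K' := IsGalois.to_normal
  have hsurj := restrictRestrictAlgEquivMapHom_surjective (F := F') (E := E0) K' L' hinf
  -- the relative field
  let B : Subfield Ω := acl F ⊔ F'
  let W : IntermediateField F' K' :=
    (B.comap ((algebraMap E0 Ω).comp (algebraMap K' E0))).toIntermediateField (by
      intro x
      rw [Subfield.mem_comap]
      exact (le_sup_right : F' ≤ acl F ⊔ F') x.2)
  have hzE : z ∈ E0 := (le_sup_left : N ≤ N ⊔ L0) (hSN (by simp))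
  have hzK : (⟨z, hzE⟩ : E0) ∈ K' := by
    rw [mem_restrict]
    exact hSN (by simp)
  suffices hW : (⟨⟨z, hzE⟩, hzK⟩ : K') ∈ W from hW
  rw [← IsGalois.fixedField_fixingSubgroup W, mem_fixedField_iff]
  intro τ hτ
  obtain ⟨φ, hφ⟩ := hsurj τ
  have hφz : φ ⟨z, hzE⟩ = ⟨z, hzE⟩ := by
    let M : Subfield Ω := ((φ : E0 →+* E0).eqLocusField (RingHom.id E0)).map (algebraMap E0 Ω)
    have hM1 : F'' ≤ M := by
      intro x hx
      have hxE : x ∈ E0 := (le_sup_right : L0 ≤ N ⊔ L0) hx
      have hxL : (⟨x, hxE⟩ : E0) ∈ L' := by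
        rw [mem_restrict]
        exact hx
      refine ⟨⟨x, hxE⟩, ?_, rfl⟩
      exact φ.commutes ⟨⟨x, hxE⟩, hxL⟩
    have hM2 : (T : Set Ω) ⊆ M := by
      intro t ht
      have htN : t ∈ N := hSN (by simp [Finset.mem_coe.1 ht])
      have htE : t ∈ E0 := (le_sup_left : N ≤ N ⊔ L0) htN
      have htK : (⟨t, htE⟩ : E0) ∈ K' := by
        rw [mem_restrict]
        exact htN
      refine ⟨⟨t, htE⟩, ?_, rfl⟩
      have h4 : (⟨⟨t, htE⟩, htK⟩ : K') ∈ W := (le_sup_left : acl F ≤ acl F ⊔ F') (hT ht)
      have h5 : τ ⟨⟨t, htE⟩, htK⟩ = ⟨⟨t, htE⟩, htK⟩ := hτ ⟨_, h4⟩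
      have h6 := restrictRestrictAlgEquivMapHom_apply K' L' φ ⟨⟨t, htE⟩, htK⟩
      rw [hφ, h5] at h6
      exact h6.symm
    let M' : IntermediateField F'' Ω := M.toIntermediateField (fun x => hM1 x.2)
    have hM : adjoin F'' (T : Set Ω) ≤ M' := adjoin_le_iff.2 hM2
    obtain ⟨y, hy1, hy2⟩ := hM hzT
    have : y = ⟨z, hzE⟩ := Subtype.ext hy2
    rw [← this]
    exact hy1
  rw [← hφ]
  apply Subtype.ext
  rw [restrictRestrictAlgEquivMapHom_apply]
  exact hφz


end Pool.Agent.Helper737.Ample
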