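import Pool.Agent.Helper737.AmpleBasic

namespace Pool.Agent.Helper737.Ample

variable {Ω : Type} [Field Ω]



theorem gX_adj_eq (E : Subfield Ω) (x : Ω) :
    adj E {x} = (IntermediateField.adjoin E {x}).toSubfield := by
  apply le_antisymm
  · apply adj_le
    · intro z hz
      exact (IntermediateField.adjoin E {x}).algebraMap_mem ⟨z, hz⟩
    · exact IntermediateField.subset_adjoin E {x}
  · intro z hz
    have hz' : z ∈ Subfield.closure (Set.range (algebraMap E Ω) ∪ {x}) := hz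
    rw [Subfield.closure_union] at hz'
    have hle : Subfield.closure (Set.range (algebraMap E Ω)) ≤ E := by
      rw [Subfield.closure_le]
      rintro _ ⟨w, rfl⟩
      exact w.2
    exact sup_le_sup_right hle _ hz'

theorem gX_mem_adj {E : Subfield Ω} {x z : Ω} :
    z ∈ adj E {x} ↔ ∃ p q : Polynomial E, z = Polynomial.aeval x p / Polynomial.aeval x q := by
  rw [gX_adj_eq]
  exact IntermediateField.mem_adjoin_simple_iff E z

theorem gX_aeval_eq_zero {E : Subfield Ω} {x : Ω} (hx : x ∉ acl E) {p : Polynomial E}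
    (h : Polynomial.aeval x p = 0) : p = 0 := by
  by_contra hp
  exact hx (mem_acl.2 ⟨p, hp, h⟩)

theorem gX_aeval_inj {E : Subfield Ω} {x : Ω} (hx : x ∉ acl E) {p q : Polynomial E}
    (h : Polynomial.aeval x p = Polynomial.aeval x q) : p = q := by
  rw [← sub_eq_zero]
  apply gX_aeval_eq_zero hx
  rw [map_sub, h, sub_self]

/-- nice representation -/
theorem gX_repr {E : Subfield Ω} {x z : Ω} (hx : x ∉ acl E) (hz : z ∈ adj E {x}) :
    ∃ p q : Polynomial E, q ≠ 0 ∧ z * Polynomial.aeval x q = Polynomial.aeval x p := by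
  obtain ⟨p, q, h⟩ := gX_mem_adj.1 hz
  by_cases hq : q = 0
  · refine ⟨0, 1, one_ne_zero, ?_⟩
    rw [h, hq]; simp
  · refine ⟨p, q, hq, ?_⟩
    have : Polynomial.aeval x q ≠ 0 := fun h0 => hq (gX_aeval_eq_zero hx h0)
    rw [h, div_mul_cancel₀ _ this]

theorem fermat_adj [CharZero Ω] [IsAlgClosed Ω] {E : Subfield Ω} (hE : acl E = E) {s : Ω}
    (hs : s ∉ acl E) {a b : Ω} (ha : a ∈ adj E {s}) (hb : b ∈ adj E {s})
    (h : a ^ 4 + b ^ 4 = 1) : a ∈ E ∧ b ∈ E := by
  have root : ∀ c : Ω, c ^ 4 = 1 → c ∈ E := by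
    intro c hc
    rw [← hE, mem_acl]
    refine ⟨Polynomial.X ^ 4 - 1, ?_, ?_⟩
    · exact (Polynomial.monic_X_pow_sub_C (1 : E) (by norm_num)).ne_zero
    · simp [hc]
  by_cases ha0 : a = 0
  · refine ⟨by rw [ha0]; exact E.zero_mem, root b ?_⟩
    rw [ha0] at h
    simpa using h
  by_cases hb0 : b = 0
  · refine ⟨root a ?_, by rw [hb0]; exact E.zero_mem⟩
    rw [hb0] at h
    simpa using h
  obtain ⟨p1, q1, hq1, h1⟩ := gX_repr hs ha
  obtain ⟨p2, q2, hq2, h2⟩ := gX_repr hs hb
  have hQ1 : Polynomial.aeval s q1 ≠ 0 := fun h0 => hq1 (gX_aeval_eq_zero hs h0)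
  have hQ2 : Polynomial.aeval s q2 ≠ 0 := fun h0 => hq2 (gX_aeval_eq_zero hs h0)
  have hp1 : p1 ≠ 0 := by
    rintro rfl
    rw [map_zero] at h1
    exact (mul_ne_zero ha0 hQ1) h1
  have hp2 : p2 ≠ 0 := by
    rintro rfl
    rw [map_zero] at h2
    exact (mul_ne_zero hb0 hQ2) h2
  have key : (p1 * q2) ^ 4 + (p2 * q1) ^ 4 = (q1 * q2) ^ 4 := by
    apply gX_aeval_inj hs
    simp only [map_add, map_pow, map_mul, ← h1, ← h2]
    linear_combination (Polynomial.aeval s q1 * Polynomial.aeval s q2) ^ 4 * h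
  have h4 : ((4 : ℕ) : E) ≠ 0 := by
    intro h0
    have : ((4 : ℕ) : Ω) = 0 := by exact_mod_cast congrArg (fun z : E => (z : Ω)) h0
    norm_num at this
  obtain ⟨d, a', b', c', ⟨e1, e2, e3⟩, ua, ub, uc⟩ := fermatLastTheoremWith'_polynomial (k := E)
    (n := 4) (by norm_num) h4 (p1 * q2) (p2 * q1) (q1 * q2) (mul_ne_zero hp1 hq2)
    (mul_ne_zero hp2 hq1) (mul_ne_zero hq1 hq2) key
  obtain ⟨α, hα, rfl⟩ := Polynomial.isUnit_iff.1 ua
  obtain ⟨β, hβ, rfl⟩ := Polynomial.isUnit_iff.1 ub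
  obtain ⟨γ, hγ, rfl⟩ := Polynomial.isUnit_iff.1 uc
  have hd : Polynomial.aeval s d ≠ 0 := by
    intro h0
    have : d = 0 := gX_aeval_eq_zero hs h0
    rw [this, mul_zero] at e3
    exact mul_ne_zero hq1 hq2 e3
  have f1 := congrArg (Polynomial.aeval s) e1
  have f2 := congrArg (Polynomial.aeval s) e2
  have f3 := congrArg (Polynomial.aeval s) e3
  simp only [map_mul, Polynomial.aeval_C, ← h1, ← h2] at f1 f2 f3
  have hγ0 : (algebraMap E Ω) γ ≠ 0 := by
    intro h0
    rw [h0, zero_mul] at f3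
    exact mul_ne_zero hQ1 hQ2 f3
  have ga : a * (algebraMap E Ω) γ = (algebraMap E Ω) α := by
    apply mul_right_cancel₀ hd
    rw [mul_assoc, ← f3, ← f1]; ring
  have gb : b * (algebraMap E Ω) γ = (algebraMap E Ω) β := by
    apply mul_right_cancel₀ hd
    rw [mul_assoc, ← f3, ← f2]; ring
  constructor
  · rw [← mul_div_cancel_right₀ a hγ0, ga]
    exact E.div_mem α.2 γ.2
  · rw [← mul_div_cancel_right₀ b hγ0, gb]
    exact E.div_mem β.2 γ.2

theorem twisted_fermat_adj [CharZero Ω] [IsAlgClosed Ω] {E : Subfield Ω} (hE : acl E = E) {u : Ω}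
    (hu : u ∉ acl E) {a b : Ω} (ha : a ∈ adj E {u}) (hb : b ∈ adj E {u})
    (h : a ^ 4 + u * b ^ 4 = 1) : b = 0 := by
  obtain ⟨v, hv⟩ := IsAlgClosed.exists_pow_nat_eq u (n := 4) (by norm_num)
  have hvE : v ∉ acl E := by
    intro h0
    apply hu
    rw [← hv]
    exact (acl E).pow_mem h0 4
  have hle : adj E {u} ≤ adj E {v} := by
    apply adj_le (le_adj _ _)
    rintro _ rfl
    rw [← hv]
    exact (adj E {v}).pow_mem (subset_adj _ _ rfl) 4
  have h1 := fermat_adj hE hvE (hle ha) (b := v * b)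
    ((adj E {v}).mul_mem (subset_adj _ _ rfl) (hle hb)) (by
      rw [mul_pow, hv]; exact h)
  by_contra hb0
  have hvu : v ∈ adj E {u} := by
    have : v = (v * b) / b := by field_simp
    rw [this]
    exact (adj E {u}).div_mem (le_adj _ _ h1.2) hb
  obtain ⟨p, q, hq, hpq⟩ := gX_repr hu hvu
  have e : Polynomial.X * Polynomial.expand E 4 q = Polynomial.expand E 4 p := by
    apply gX_aeval_inj hvE
    rw [map_mul, Polynomial.aeval_X, Polynomial.expand_aeval, Polynomial.expand_aeval, hv, hpq]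
  have hd := congrArg Polynomial.natDegree e
  rw [Polynomial.natDegree_mul Polynomial.X_ne_zero
    ((Polynomial.expand_ne_zero (by norm_num)).2 hq), Polynomial.natDegree_X,
    Polynomial.natDegree_expand, Polynomial.natDegree_expand] at hd
  omega

/-- `E(x)` is regular over `E` -/
theorem adj_inf_acl {E : Subfield Ω} {x : Ω} (hx : x ∉ acl E) : adj E {x} ⊓ acl E ≤ E := by
  rintro z ⟨hz, hza⟩
  obtain ⟨p, q, hq, hpq⟩ := gX_repr hx hz
  have hx' : x ∉ acl (acl E) := by rwa [acl_idem]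
  let i : E →+* acl E := Subfield.inclusion (le_acl E)
  have hi : ∀ r : Polynomial E, Polynomial.aeval x (r.map i) = Polynomial.aeval x r := by
    intro r
    rw [Polynomial.aeval_def, Polynomial.aeval_def, Polynomial.eval₂_map]
    rfl
  have e : Polynomial.C (⟨z, hza⟩ : acl E) * q.map i = p.map i := by
    apply gX_aeval_inj hx'
    rw [map_mul, Polynomial.aeval_C, hi, hi]
    exact hpq
  obtain ⟨j, hj⟩ : ∃ j, q.coeff j ≠ 0 := by
    by_contra hcon
    push Not at hcon
    exact hq (Polynomial.ext fun j => by rw [hcon j, Polynomial.coeff_zero])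
  have ej := congrArg (fun r => Polynomial.coeff r j) e
  simp only [Polynomial.coeff_C_mul, Polynomial.coeff_map] at ej
  have ej' : z * (q.coeff j : Ω) = (p.coeff j : Ω) := congrArg (fun r : acl E => (r : Ω)) ej
  have hj' : (q.coeff j : Ω) ≠ 0 := fun h0 => hj (Subtype.ext h0)
  rw [← mul_div_cancel_right₀ z hj', ej']
  exact E.div_mem (p.coeff j).2 (q.coeff j).2

/-- extension of a homomorphism to a transcendental simple extension -/
theorem exists_extension_transcendental {B : Subfield Ω} (τ : B →+* Ω) {x x' : Ω} (hx : x ∉ acl B)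
    (hx' : x' ∉ acl τ.fieldRange) :
    ∃ τ' : ↥(adj B {x}) →+* Ω, (∀ z (hz : z ∈ B), τ' ⟨z, le_adj _ _ hz⟩ = τ ⟨z, hz⟩) ∧
      τ' ⟨x, subset_adj _ _ rfl⟩ = x' := by
  have hmem : ∀ p : Polynomial B, Polynomial.aeval x p ∈ adj B {x} := by
    intro p
    rw [gX_adj_eq]
    have h1 : x ∈ IntermediateField.adjoin B {x} := IntermediateField.subset_adjoin B {x} rfl
    have := (Polynomial.aeval (⟨x, h1⟩ : IntermediateField.adjoin B {x}) p).2
    rwa [← IntermediateField.aeval_coe] at this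
  let f : Polynomial B →+* ↥(adj B {x}) :=
    (Polynomial.aeval x : Polynomial B →ₐ[B] Ω).toRingHom.codRestrict (adj B {x}) hmem
  letI : Algebra (Polynomial B) ↥(adj B {x}) := f.toAlgebra
  have hf : ∀ p : Polynomial B, ((algebraMap (Polynomial B) ↥(adj B {x}) p : ↥(adj B {x})) : Ω) =
      Polynomial.aeval x p := fun p => rfl
  haveI : IsFractionRing (Polynomial B) ↥(adj B {x}) := by
    refine ⟨?_, ?_, ?_⟩
    · rintro ⟨p, hp⟩
      rw [isUnit_iff_ne_zero]
      intro h0
      have h1 := congrArg (fun r : ↥(adj B {x}) => (r : Ω)) h0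
      simp only [hf] at h1
      exact nonZeroDivisors.ne_zero hp (gX_aeval_eq_zero hx h1)
    · intro z
      obtain ⟨p, q, hq, hpq⟩ := gX_repr hx z.2
      refine ⟨⟨p, ⟨q, mem_nonZeroDivisors_of_ne_zero hq⟩⟩, ?_⟩
      apply Subtype.ext
      exact hpq
    · intro p q hpq
      refine ⟨1, ?_⟩
      have h1 := congrArg (fun r : ↥(adj B {x}) => (r : Ω)) hpq
      simp only [hf] at h1
      rw [gX_aeval_inj hx h1]
  let g : Polynomial B →+* Ω := Polynomial.eval₂RingHom τ x'
  have hg : Function.Injective g := by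
    rw [injective_iff_map_eq_zero]
    intro p hp
    let j : B →+* τ.fieldRange := τ.rangeRestrictField
    have h1 : Polynomial.aeval x' (p.map j) = 0 := by
      rw [Polynomial.aeval_def, Polynomial.eval₂_map]
      exact hp
    have h2 := gX_aeval_eq_zero hx' h1
    rwa [Polynomial.map_eq_zero_iff j.injective] at h2
  refine ⟨IsFractionRing.lift (K := ↥(adj B {x})) hg, ?_, ?_⟩
  · intro z hz
    have h1 : (⟨z, le_adj _ _ hz⟩ : ↥(adj B {x})) =
        algebraMap (Polynomial B) ↥(adj B {x}) (Polynomial.C ⟨z, hz⟩) := by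
      apply Subtype.ext
      rw [hf, Polynomial.aeval_C]
      rfl
    rw [h1, IsFractionRing.lift_algebraMap]
    simp [g]
  · have h1 : (⟨x, subset_adj _ _ rfl⟩ : ↥(adj B {x})) =
        algebraMap (Polynomial B) ↥(adj B {x}) Polynomial.X := by
      apply Subtype.ext
      rw [hf, Polynomial.aeval_X]
    rw [h1, IsFractionRing.lift_algebraMap]
    simp [g]


end Pool.Agent.Helper737.Ample
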