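import Pool.Agent.Helper737.AmpleBasic
import Pool.Agent.Helper737.AmpleD

namespace Pool.Agent.Helper737.Ample

variable {Ω : Type} [Field Ω]




theorem adj_eq (k : Subfield Ω) (S : Set Ω) :
    adj k S = (IntermediateField.adjoin k S).toSubfield := by
  apply le_antisymm
  · apply adj_le
    · intro z hz
      exact (IntermediateField.adjoin k S).algebraMap_mem ⟨z, hz⟩
    · exact IntermediateField.subset_adjoin k S
  · rw [IntermediateField.adjoin_toSubfield, Subfield.closure_le]
    rintro z (⟨w, rfl⟩ | hz)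
    · exact le_adj k S w.2
    · exact subset_adj k S hz

theorem mem_adj_iff_div {k : Subfield Ω} {S : Set Ω} {z : Ω} :
    z ∈ adj k S ↔ ∃ r ∈ Algebra.adjoin k S, ∃ s ∈ Algebra.adjoin k S, z = r / s := by
  rw [adj_eq]
  exact IntermediateField.mem_adjoin_iff_div

/-- a basis-like family of `N` over `F` that stays independent over `B`; everything in
`adj B S` (with `S ⊆ N`) is a quotient of `B`-combinations of it -/
theorem exists_family {F N : Subfield Ω} (hFN : F ≤ N) :
    ∃ (ι : Type) (v : ι → Ω), (∀ i, v i ∈ N) ∧ LinearIndependent F v ∧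
      ∀ y ∈ N, y ∈ Submodule.span F (Set.range v) := by
  let E := Subfield.extendScalars hFN
  let bas := Module.Basis.ofVectorSpace F E
  refine ⟨_, fun i => (bas i : Ω), fun i => (bas i).2, ?_, ?_⟩
  · exact bas.linearIndependent.map' E.val.toLinearMap (by
      rw [LinearMap.ker_eq_bot]; exact Subtype.val_injective)
  · intro y hy
    have h1 : (⟨y, hy⟩ : E) ∈ Submodule.span F (Set.range bas) := by
      rw [bas.span_eq]; trivial
    have h2 := Submodule.mem_map_of_mem (f := E.val.toLinearMap) h1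
    rw [Submodule.map_span, ← Set.range_comp] at h2
    exact h2

theorem adjoin_le_span {F N B : Subfield Ω} (hFB : F ≤ B) {S : Set Ω}
    (hS : S ⊆ N) {ι : Type} {v : ι → Ω} (_hv : ∀ i, v i ∈ N)
    (hspan : ∀ y ∈ N, y ∈ Submodule.span F (Set.range v)) :
    ∀ z ∈ Algebra.adjoin B S, z ∈ Submodule.span B (Set.range v) := by
  have h0 : ∀ y ∈ N, y ∈ Submodule.span B (Set.range v) := by
    intro y hy
    refine Submodule.span_induction (p := fun y _ => y ∈ Submodule.span B (Set.range v))
      ?_ ?_ ?_ ?_ (hspan y hy)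
    · intro x hx; exact Submodule.subset_span hx
    · exact Submodule.zero_mem _
    · intro x y _ _ hx hy; exact Submodule.add_mem _ hx hy
    · intro a x _ hx
      exact Submodule.smul_mem _ (⟨a, hFB a.2⟩ : B) hx
  intro z hz
  have h1 : z ∈ Algebra.adjoin B (N : Set Ω) := Algebra.adjoin_mono hS hz
  rw [← Subalgebra.mem_toSubmodule, Algebra.adjoin_eq_span] at h1
  have h2 : (Submonoid.closure (N : Set Ω) : Set Ω) = N := by
    have : Submonoid.closure (N : Set Ω) = N.toSubmonoid := Submonoid.closure_eq N.toSubmonoid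
    rw [this]; rfl
  rw [h2] at h1
  exact (Submodule.span_le.2 h0) h1

/-- (H2) a generic point over `F` which is free from `B` stays generic over `B` -/
theorem IsGen.extend [CharZero Ω] [IsAlgClosed Ω] {F B : Subfield Ω} {n : ℕ} {i₀ : Fin n}
    {c : Fin n → Ω} (hc : IsGen F i₀ c) (hFB : F ≤ B) (hcB : c i₀ ∉ acl B) : IsGen B i₀ c := by
  refine ⟨hcB, fun i => acl_mono (adj_mono hFB le_rfl) (hc.alg i), ?_⟩
  rintro z ⟨hz1, hz2⟩
  obtain ⟨ι, v, hvN, hvli, hspan⟩ := exists_family (le_adj F (Set.range c))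
  have hli : LinearIndependent (acl B) v := by
    refine linDisj (le_adj F (Set.range c)) (subset_adj _ _ ⟨i₀, rfl⟩) ?_ hc.reg
      (hFB.trans (le_acl B)) ?_ v hvN hvli
    · apply adj_le ((le_adj _ _).trans (le_acl _))
      rintro _ ⟨i, rfl⟩
      exact hc.alg i
    · rwa [acl_idem]
  obtain ⟨r, hr, s, hs, hrs⟩ := mem_adj_iff_div.1 hz1
  have hr' := adjoin_le_span hFB (subset_adj F (Set.range c)) hvN hspan r hr
  have hs' := adjoin_le_span hFB (subset_adj F (Set.range c)) hvN hspan s hs
  rw [Finsupp.mem_span_range_iff_exists_finsupp] at hr' hs'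
  obtain ⟨b, hb⟩ := hr'
  obtain ⟨b', hb'⟩ := hs'
  by_cases hs0 : s = 0
  · rw [hrs, hs0, div_zero]; exact B.zero_mem
  have hzs : z * s = r := by rw [hrs]; field_simp
  -- compare coefficients
  let g : ι →₀ acl B := b.mapRange (fun w : B => (⟨(w : Ω), le_acl B w.2⟩ : acl B)) rfl
  let g' : ι →₀ acl B := b'.mapRange (fun w : B => (⟨z, hz2⟩ : acl B) * (⟨(w : Ω), le_acl B w.2⟩ : acl B)) (by
    ext; simp)
  have hg : Finsupp.linearCombination (acl B) v g = r := by
    rw [← hb, Finsupp.linearCombination_apply, Finsupp.sum_mapRange_index (by simp)]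
    rfl
  have hg' : Finsupp.linearCombination (acl B) v g' = z * s := by
    rw [← hb', Finsupp.linearCombination_apply, Finsupp.sum_mapRange_index (by simp),
      Finsupp.mul_sum]
    refine Finsupp.sum_congr fun i _ => ?_
    simp only [Subfield.smul_def, smul_eq_mul, MulMemClass.mk_mul_mk, mul_assoc]
  have hgg : g = g' := by
    apply hli
    rw [hg, hg', hzs]
  have hb'0 : b' ≠ 0 := by
    rintro rfl
    apply hs0
    rw [← hb']; simp
  obtain ⟨i, hi⟩ := Finsupp.ne_iff.1 hb'0
  have h1 := congrArg (fun g => ((g i : acl B) : Ω)) hgg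
  simp only [g, g', Finsupp.mapRange_apply, Subfield.coe_mul] at h1
  have hi' : ((b' i : B) : Ω) ≠ 0 := by
    intro h; apply hi; simpa using h
  have : z = (b i : Ω) / (b' i : Ω) := by field_simp; rw [h1]
  rw [this]
  exact B.div_mem (b i).2 (b' i).2

open IntermediateField in
/-- (H1) generic copies exist -/
theorem exists_copy [CharZero Ω] [IsAlgClosed Ω] {F : Subfield Ω} {n : ℕ} {i₀ : Fin n}
    {a : Fin n → Ω} (ha : IsGen F i₀ a) {x : Ω} (hx : x ∉ acl F) :
    ∃ c : Fin n → Ω, c i₀ = x ∧ Copy F a c ∧ IsGen F i₀ c := by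
  have hta : Transcendental F (a i₀) := fun h => ha.trans (mem_acl.2 h)
  have htx : Transcendental F x := fun h => hx (mem_acl.2 h)
  let L := IntermediateField.adjoin F {a i₀}
  let L' := IntermediateField.adjoin F {x}
  let φ₁ : L →ₐ[F] L' := 
    ((RatFunc.algEquivOfTranscendental x htx).toAlgHom.comp
      (RatFunc.algEquivOfTranscendental (a i₀) hta).symm.toAlgHom)
  let φ₀ : L →ₐ[F] Ω := L'.val.comp φ₁
  let E := algebraicClosure L Ω
  obtain ⟨φ, hφ⟩ := IsAlgClosed.surjective_domRestrict_of_isAlgebraic (K := F) (L := L) (M := Ω)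
    (E := E) φ₀
  have hφ' : ∀ l : L, φ (algebraMap L E l) = φ₀ l := fun l => by
    rw [← hφ]; rfl
  have haE : ∀ i, a i ∈ E := by
    intro i
    have h1 := ha.alg i
    rw [mem_acl] at h1
    have h2 : IsAlgebraic L (a i) := by
      refine h1.ringHom_of_comp_eq (S := L) (B := Ω)
        (Subfield.inclusion (adj_eq F {a i₀}).le) (RingHom.id Ω) ?_ ?_
      · exact RingHom.injective _
      · ext; rfl
    rw [mem_algebraicClosure_iff]
    exact h2
  let a' : Fin n → E := fun i => ⟨a i, haE i⟩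
  have hx₀ : φ (a' i₀) = x := by
    have : a' i₀ = algebraMap L E (AdjoinSimple.gen F (a i₀)) := rfl
    rw [this, hφ']
    simp only [φ₀, φ₁, L', AlgHom.comp_apply]
    have h1 : (RatFunc.algEquivOfTranscendental (a i₀) hta).symm (AdjoinSimple.gen F (a i₀))
      = RatFunc.X := RatFunc.algEquivOfTranscendental_symm_gen (a i₀) hta
    have h2 : RatFunc.algEquivOfTranscendental x htx RatFunc.X = AdjoinSimple.gen F x := by
      apply Subtype.ext
      exact RatFunc.algEquivOfTranscendental_X x htx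
    erw [h1, h2]
    rfl
  let ev : E →ₐ[F] Ω := (E.val.restrictScalars F)
  have hev : ∀ e : E, ev e = (e : Ω) := fun e => rfl
  -- evaluation
  have haev : ∀ G : MvPolynomial (Fin n) F, 
      MvPolynomial.aeval a G = ((MvPolynomial.aeval a' G : E) : Ω) := by
    intro G
    rw [← hev, MvPolynomial.comp_aeval_apply]
    rfl
  have hcev : ∀ G : MvPolynomial (Fin n) F, 
      MvPolynomial.aeval (fun i => φ (a' i)) G = φ (MvPolynomial.aeval a' G) := by
    intro G
    rw [MvPolynomial.comp_aeval_apply]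
  have hadj : ∀ r ∈ Algebra.adjoin F (Set.range fun i => φ (a' i)), 
      ∃ r' : E, φ r' = r ∧ (r' : Ω) ∈ adj F (Set.range a) := by
    intro r hr
    rw [Algebra.adjoin_range_eq_range_aeval] at hr
    obtain ⟨G, rfl⟩ := hr
    refine ⟨MvPolynomial.aeval a' G, (hcev G).symm, ?_⟩
    rw [← haev, adj_eq]
    apply IntermediateField.algebra_adjoin_le_adjoin
    rw [Algebra.adjoin_range_eq_range_aeval]
    exact ⟨G, rfl⟩
  refine ⟨fun i => φ (a' i), hx₀, fun G => ?_, ?_, fun i => ?_, ?_⟩
  · rw [haev, hcev, map_eq_zero, ZeroMemClass.coe_eq_zero]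
  · simp only [hx₀]; exact hx
  · have h1 : IsAlgebraic L (a i) := mem_algebraicClosure_iff.1 (haE i)
    have h2 : IsAlgebraic L (a' i) := 
      (isAlgebraic_algHom_iff E.val E.val.injective).1 h1
    have h3 : ∀ l : L, φ₀ l ∈ adj F {φ (a' i₀)} := by
      intro l
      rw [hx₀, adj_eq]
      exact (φ₁ l).2
    rw [mem_acl]
    refine h2.ringHom_of_comp_eq (S := adj F {φ (a' i₀)}) (B := Ω) 
      (φ₀.toRingHom.codRestrict _ h3) φ.toRingHom ?_ ?_
    · exact RingHom.injective _
    · ext l
      exact (hφ' l).symm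
  · rintro z ⟨hz1, hz2⟩
    obtain ⟨r, hr, s, hs, rfl⟩ := mem_adj_iff_div.1 hz1
    obtain ⟨r', rfl, hr'⟩ := hadj r hr
    obtain ⟨s', rfl, hs'⟩ := hadj s hs
    rw [← map_div₀] at hz2 ⊢
    have h1 : ((r' / s' : E) : Ω) ∈ acl F := by
      rw [mem_acl]
      have h2 : IsAlgebraic F (φ (r' / s')) := mem_acl.1 hz2
      have h3 : IsAlgebraic F (r' / s') := (isAlgebraic_algHom_iff φ φ.injective).1 h2
      exact (isAlgebraic_algHom_iff ev ev.injective).2 h3
    have h4 : ((r' / s' : E) : Ω) ∈ adj F (Set.range a) := by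
      push_cast
      exact Subfield.div_mem _ hr' hs'
    have h5 := ha.reg ⟨h4, h1⟩
    have h6 : (r' / s' : E) = algebraMap F E ⟨_, h5⟩ := rfl
    rw [h6, AlgHom.commutes]
    exact h5

/-- the `F`-linear independence passes from `B` to `N` -/
theorem indep_symm {F N B : Subfield Ω} (hFN : F ≤ N) (hFB : F ≤ B)
    (H : ∀ (ι : Type) (v : ι → Ω), (∀ i, v i ∈ N) → LinearIndependent F v →
      LinearIndependent B v)
    {ι : Type} (w : ι → Ω) (hw : ∀ i, w i ∈ B) (hli : LinearIndependent F w) :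
    LinearIndependent N w := by
  let A := Subfield.extendScalars hFN
  let L := Subfield.extendScalars hFB
  let bas := Module.Basis.ofVectorSpace F A
  have h1 : A.LinearDisjoint L := by
    apply IntermediateField.LinearDisjoint.of_basis_left bas
    exact H _ _ (fun i => (bas i).2) (bas.linearIndependent.map' A.val.toLinearMap (by
      rw [LinearMap.ker_eq_bot]; exact Subtype.val_injective))
  have h2 : LinearIndependent F (fun i => (⟨w i, hw i⟩ : L)) := by
    apply LinearIndependent.of_comp L.val.toLinearMap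
    exact hli
  exact h1.linearIndependent_right h2

/-- decomposition of a polynomial over `B` with respect to an `F`-basis of `B` -/
theorem exists_decomp {F B : Subfield Ω} (hFB : F ≤ B) {ι : Type}
    (β : ι → Ω) (hβ : ∀ i, β i ∈ B) (hspan : ∀ y ∈ B, y ∈ Submodule.span F (Set.range β))
    {n : ℕ} (G : MvPolynomial (Fin n) B) :
    ∃ g : ι →₀ MvPolynomial (Fin n) F, G = g.sum fun j q => 
      MvPolynomial.C (⟨β j, hβ j⟩ : B) * MvPolynomial.map (Subfield.inclusion hFB) q := by
  induction G using MvPolynomial.induction_on with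
  | C b =>
    have h1 := hspan b b.2
    rw [Finsupp.mem_span_range_iff_exists_finsupp] at h1
    obtain ⟨f, hf⟩ := h1
    refine ⟨f.mapRange MvPolynomial.C (map_zero _), ?_⟩
    rw [Finsupp.sum_mapRange_index (by simp)]
    simp only [MvPolynomial.map_C, ← map_mul]
    rw [Finsupp.sum, ← map_sum]
    congr 1
    apply Subtype.ext
    rw [← hf, Finsupp.sum]
    simp only [AddSubmonoidClass.coe_finsetSum, MulMemClass.coe_mul]
    refine Finset.sum_congr rfl fun i _ => ?_
    rw [Subfield.smul_def, smul_eq_mul, mul_comm]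
    rfl
  | add p q hp hq =>
    obtain ⟨g, hg⟩ := hp
    obtain ⟨g', hg'⟩ := hq
    refine ⟨g + g', ?_⟩
    rw [Finsupp.sum_add_index', ← hg, ← hg']
    · intro i; simp
    · intro i a b; rw [map_add, mul_add]
  | mul_X p i hp =>
    obtain ⟨g, hg⟩ := hp
    refine ⟨g.mapRange (fun q => q * MvPolynomial.X i) (by simp), ?_⟩
    rw [Finsupp.sum_mapRange_index (by simp), hg, Finsupp.sum_mul]
    refine Finsupp.sum_congr fun j _ => ?_
    rw [map_mul, MvPolynomial.map_X, mul_assoc]

theorem eval_zero_iff {F N : Subfield Ω} {ι : Type} {β : ι → Ω} (hli : LinearIndependent N β)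
    (hFN : F ≤ N) {n : ℕ} {c : Fin n → Ω} (hc : ∀ i, c i ∈ N) (g : ι →₀ MvPolynomial (Fin n) F) :
    (g.sum fun j q => β j * MvPolynomial.aeval c q) = 0 ↔ 
      ∀ j, MvPolynomial.aeval c (g j) = 0 := by
  have hmem : ∀ q : MvPolynomial (Fin n) F, MvPolynomial.aeval c q ∈ N := by
    intro q
    have h1 : MvPolynomial.aeval c q ∈ Algebra.adjoin F (Set.range c) := by
      rw [Algebra.adjoin_range_eq_range_aeval]; exact ⟨q, rfl⟩
    have h2 : adj F (Set.range c) ≤ N := adj_le hFN (by rintro _ ⟨i, rfl⟩; exact hc i)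
    apply h2
    rw [adj_eq]
    exact IntermediateField.algebra_adjoin_le_adjoin _ _ h1
  constructor
  · intro h
    let g' : ι →₀ N := g.mapRange (fun q => (⟨MvPolynomial.aeval c q, hmem q⟩ : N)) (by
      apply Subtype.ext; simp)
    have h1 : Finsupp.linearCombination N β g' = 0 := by
      rw [Finsupp.linearCombination_apply, Finsupp.sum_mapRange_index (by simp), ← h]
      refine Finsupp.sum_congr fun i _ => ?_
      rw [Subfield.smul_def, smul_eq_mul, mul_comm]
    have h2 : g' = 0 := (linearIndependent_iff.1 hli) g' h1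
    intro j
    have h3 := congrArg (fun g => ((g j : N) : Ω)) h2
    exact h3
  · intro h
    refine Finset.sum_eq_zero fun j _ => ?_
    simp only [h j, mul_zero]

/-- (H3) extension of homomorphisms -/
theorem exists_extension [CharZero Ω] [IsAlgClosed Ω] {F : Subfield Ω} {n : ℕ} {i₀ : Fin n}
    {c c' : Fin n → Ω} (hc : IsGen F i₀ c) (hc' : IsGen F i₀ c') (hcc' : Copy F c c')
    {B : Subfield Ω} (hFB : F ≤ B) (τ : B →+* Ω) (hτ : ∀ z (hz : z ∈ F), τ ⟨z, hFB hz⟩ = z)
    (hcB : c i₀ ∉ acl B) (hc'B : c' i₀ ∉ acl τ.fieldRange) :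
    ∃ τ' : ↥(adj B (Set.range c)) →+* Ω, (∀ z (hz : z ∈ B), τ' ⟨z, le_adj _ _ hz⟩ = τ ⟨z, hz⟩) ∧
      ∀ i, τ' ⟨c i, subset_adj _ _ ⟨i, rfl⟩⟩ = c' i := by
  have hFB' : F ≤ τ.fieldRange := fun z hz => ⟨⟨z, hFB hz⟩, hτ z hz⟩
  have hNacl : ∀ {d : Fin n → Ω}, IsGen F i₀ d → adj F (Set.range d) ≤ acl (adj F {d i₀}) := by
    intro d hd
    apply adj_le ((le_adj _ _).trans (le_acl _))
    rintro _ ⟨i, rfl⟩
    exact hd.alg i
  obtain ⟨ι, β, hβB, hβli, hspan⟩ := exists_family hFB
  have hN : LinearIndependent (adj F (Set.range c)) β := 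
    indep_symm (le_adj F _) hFB (fun ι v hv hli => 
      linDisj (le_adj F (Set.range c)) (subset_adj _ _ ⟨i₀, rfl⟩) (hNacl hc) hc.reg hFB hcB v hv hli)
      β hβB hβli
  let β' : ι → Ω := fun i => τ ⟨β i, hβB i⟩
  have hβ'li : LinearIndependent F β' := by
    letI : Algebra F B := (Subfield.inclusion hFB).toAlgebra
    haveI : IsScalarTower F B Ω := IsScalarTower.of_algebraMap_eq (fun x => rfl)
    let τl : B →ₐ[F] Ω := { τ with commutes' := fun z => hτ z z.2 }
    let il : B →ₐ[F] Ω := { B.subtype with commutes' := fun z => rfl }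
    have h1 : LinearIndependent F (fun i => (⟨β i, hβB i⟩ : B)) := by
      apply LinearIndependent.of_comp il.toLinearMap
      exact hβli
    exact h1.map' τl.toLinearMap (by rw [LinearMap.ker_eq_bot]; exact τl.injective)
  have hN' : LinearIndependent (adj F (Set.range c')) β' := 
    indep_symm (le_adj F _) hFB' (fun ι v hv hli => 
      linDisj (le_adj F (Set.range c')) (subset_adj _ _ ⟨i₀, rfl⟩) (hNacl hc') hc'.reg hFB' hc'B 
        v hv hli)
      β' (fun i => ⟨_, rfl⟩) hβ'li
  have key : ∀ G : MvPolynomial (Fin n) B, MvPolynomial.aeval c G = 0 ↔ 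
      MvPolynomial.eval₂Hom τ c' G = 0 := by
    intro G
    obtain ⟨g, hg⟩ := exists_decomp hFB β hβB hspan G
    have h1 : MvPolynomial.aeval c G = g.sum fun j q => β j * MvPolynomial.aeval c q := by
      rw [hg, Finsupp.sum, map_sum]
      refine Finset.sum_congr rfl fun j _ => ?_
      rw [map_mul, MvPolynomial.aeval_C]
      congr 1
      rw [MvPolynomial.aeval_def, MvPolynomial.eval₂_map]
      rfl
    have h2 : MvPolynomial.eval₂Hom τ c' G = g.sum fun j q => β' j * MvPolynomial.aeval c' q := by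
      rw [hg, Finsupp.sum, map_sum]
      refine Finset.sum_congr rfl fun j _ => ?_
      rw [map_mul, MvPolynomial.eval₂Hom_C]
      congr 1
      rw [MvPolynomial.coe_eval₂Hom, MvPolynomial.eval₂_map, MvPolynomial.aeval_def]
      congr 1
      ext z
      exact hτ z z.2
    rw [h1, h2, eval_zero_iff hN (le_adj _ _) (fun i => subset_adj _ _ ⟨i, rfl⟩),
      eval_zero_iff hN' (le_adj _ _) (fun i => subset_adj _ _ ⟨i, rfl⟩)]
    exact forall_congr' fun j => hcc' (g j)
  -- the ring hom on the subalgebra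
  let A := Algebra.adjoin B (Set.range c)
  have hmemA : ∀ G : MvPolynomial (Fin n) B, MvPolynomial.aeval c G ∈ A := fun G => by
    change _ ∈ Algebra.adjoin B (Set.range c)
    rw [Algebra.adjoin_range_eq_range_aeval]; exact ⟨G, rfl⟩
  let π : MvPolynomial (Fin n) B →ₐ[B] A := (MvPolynomial.aeval c).codRestrict A hmemA
  have hπ : Function.Surjective π := by
    rintro ⟨y, hy⟩
    have hy' := hy
    change _ ∈ Algebra.adjoin B (Set.range c) at hy'
    rw [Algebra.adjoin_range_eq_range_aeval] at hy'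
    obtain ⟨G, hG⟩ := hy'
    exact ⟨G, Subtype.ext hG⟩
  have hπ0 : ∀ G, π G = 0 ↔ MvPolynomial.aeval c G = 0 := fun G => by
    rw [← ZeroMemClass.coe_eq_zero]; rfl
  let σ : A →+* Ω := (RingHom.liftOfSurjective π.toRingHom hπ) ⟨MvPolynomial.eval₂Hom τ c', by
    intro G hG
    rw [RingHom.mem_ker] at hG ⊢
    exact (key G).1 ((hπ0 G).1 hG)⟩
  have hσ : ∀ G, σ (π G) = MvPolynomial.eval₂Hom τ c' G := fun G => 
    RingHom.liftOfRightInverse_comp_apply _ _ _ _ G
  have hσinj : Function.Injective σ := by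
    rw [injective_iff_map_eq_zero]
    intro y hy
    obtain ⟨G, rfl⟩ := hπ y
    rw [hσ] at hy
    exact (hπ0 G).2 ((key G).2 hy)
  open scoped IntermediateField.algebraAdjoinAdjoin in
  let ψ : IntermediateField.adjoin B (Set.range c) →+* Ω := 
    IsFractionRing.lift (A := Algebra.adjoin B (Set.range c)) hσinj
  have hψ : ∀ (y : A), ψ ⟨y, IntermediateField.algebra_adjoin_le_adjoin _ _ y.2⟩ = σ y := by
    intro y
    exact IsFractionRing.lift_algebraMap hσinj y
  refine ⟨ψ.comp (Subfield.inclusion (adj_eq B (Set.range c)).le), fun z hz => ?_, fun i => ?_⟩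
  · have h1 := hψ (π (MvPolynomial.C ⟨z, hz⟩))
    rw [hσ, MvPolynomial.eval₂Hom_C] at h1
    rw [← h1]
    change ψ _ = _
    apply congrArg ψ
    apply Subtype.ext
    change z = MvPolynomial.aeval c (MvPolynomial.C (⟨z, hz⟩ : B))
    rw [MvPolynomial.aeval_C]
    rfl
  · have h1 := hψ (π (MvPolynomial.X i))
    rw [hσ, MvPolynomial.eval₂Hom_X'] at h1
    rw [← h1]
    change ψ _ = _
    apply congrArg ψ
    apply Subtype.ext
    change c i = MvPolynomial.aeval c (MvPolynomial.X i : MvPolynomial (Fin n) B)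
    rw [MvPolynomial.aeval_X]


end Pool.Agent.Helper737.Ample
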