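import Pool.Agent.Helper737.AmpleC
import Pool.Agent.Helper737.AmpleD
import Pool.Agent.Helper737.AmpleE
import Pool.Agent.Helper737.AmpleF
import Pool.Agent.Helper737.AmpleG
import Pool.Agent.Helper737.AmpleH

namespace Pool.Agent.Helper737.Ample

variable {Ω : Type} [Field Ω]

end Pool.Agent.Helper737.Ample
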