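import Pool.Agent.Helper737.AmpleLemmas


namespace Pool.Agent.Helper737.Ample

variable {Ω : Type} [Field Ω]

theorem map_acl {D' k l : Subfield Ω} (hk : k ≤ D') (σ : D' →+* Ω)
    (hσ : ∀ z (hz : z ∈ k), σ ⟨z, hk hz⟩ ∈ l) {a : Ω} (ha' : a ∈ D') (ha : a ∈ acl k) :
    σ ⟨a, ha'⟩ ∈ acl l := by
  rw [mem_acl] at *
  obtain ⟨p, hp0, hp⟩ := ha
  let f : k →+* l := (σ.comp (Subfield.inclusion hk)).codRestrict l (fun z => hσ z z.2)
  refine ⟨p.map f, (Polynomial.map_ne_zero_iff f.injective).2 hp0, ?_⟩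
  have h1 : Polynomial.aeval (σ ⟨a, ha'⟩) (p.map f) 
      = Polynomial.eval₂ (σ.comp (Subfield.inclusion hk)) (σ ⟨a, ha'⟩) p := by
    rw [Polynomial.aeval_def, Polynomial.eval₂_map]
    congr 1
  rw [h1, ← Polynomial.hom_eval₂]
  have h2 : Polynomial.eval₂ (Subfield.inclusion hk) (⟨a, ha'⟩ : D') p = 0 := by
    apply Subtype.val_injective
    have := Polynomial.hom_eval₂ p (Subfield.inclusion hk) D'.subtype ⟨a, ha'⟩
    have e : D'.subtype.comp (Subfield.inclusion hk) = algebraMap k Ω := rfl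
    rw [e] at this
    change D'.subtype _ = _
    rw [this]
    simpa [Polynomial.aeval_def] using hp
  rw [h2, map_zero]

theorem hom_mem {B : Subfield Ω} {S : Set Ω} (σ : ↥(adj B S) →+* Ω) (K : Subfield Ω)
    (h1 : ∀ z (hz : z ∈ B), σ ⟨z, le_adj _ _ hz⟩ ∈ K)
    (h2 : ∀ z (hz : z ∈ S), σ ⟨z, subset_adj _ _ hz⟩ ∈ K) (z : ↥(adj B S)) : σ z ∈ K := by
  have : adj B S ≤ (K.comap σ).map (adj B S).subtype := by
    apply adj_le
    · intro z hz
      exact ⟨⟨z, le_adj _ _ hz⟩, h1 z hz, rfl⟩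
    · intro z hz
      exact ⟨⟨z, subset_adj _ _ hz⟩, h2 z hz, rfl⟩
  obtain ⟨w, hw, hwz⟩ := this z.2
  have : w = z := Subtype.ext hwz
  rw [← this]; exact hw

theorem derivation_adj (d : Derivation ℤ Ω Ω) {B : Subfield Ω} {S : Set Ω} {K : Subfield Ω}
    (hK : adj B S ≤ K)
    (h1 : ∀ z ∈ B, d z ∈ K) (h2 : ∀ z ∈ S, d z ∈ K) : ∀ z ∈ adj B S, d z ∈ K := by
  let L : Subfield Ω := 
    { carrier := {z | z ∈ K ∧ d z ∈ K}
      mul_mem' := by
        rintro a b ⟨ha, ha'⟩ ⟨hb, hb'⟩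
        refine ⟨K.mul_mem ha hb, ?_⟩
        rw [Derivation.leibniz]
        exact K.add_mem (K.mul_mem ha hb') (K.mul_mem hb ha')
      one_mem' := ⟨K.one_mem, by simp⟩
      add_mem' := by
        rintro a b ⟨ha, ha'⟩ ⟨hb, hb'⟩
        exact ⟨K.add_mem ha hb, by rw [map_add]; exact K.add_mem ha' hb'⟩
      zero_mem' := ⟨K.zero_mem, by simp⟩
      neg_mem' := by
        rintro a ⟨ha, ha'⟩
        exact ⟨K.neg_mem ha, by rw [map_neg]; exact K.neg_mem ha'⟩
      inv_mem' := by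
        rintro a ⟨ha, ha'⟩
        refine ⟨K.inv_mem ha, ?_⟩
        rw [Derivation.leibniz_inv]
        exact K.mul_mem (K.neg_mem (K.pow_mem (K.inv_mem ha) 2)) ha' }
  have : adj B S ≤ L := adj_le (fun z hz => ⟨hK (le_adj _ _ hz), h1 z hz⟩) 
    (fun z hz => ⟨hK (subset_adj _ _ hz), h2 z hz⟩)
  exact fun z hz => (this hz).2

theorem acl_adj_le {k l : Subfield Ω} {S : Set Ω} (h : k ≤ acl l) (hS : S ⊆ acl l) : 
    acl (adj k S) ≤ acl l := acl_le_acl (adj_le h hS)

theorem pair_step [CharZero Ω] [IsAlgClosed Ω] {F D : Subfield Ω} (hED : acl F ≤ D)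
    {n : ℕ} {i₀ : Fin n} {c c' : Fin n → Ω} (hc : IsGen F i₀ c) (hc' : IsGen F i₀ c')
    (hcD : c i₀ ∉ acl D) (hc'D : c' i₀ ∉ acl (adj D (Set.range c)))
    (σ : ↥(adj (adj D (Set.range c)) (Set.range c')) →+* Ω)
    (hσD : ∀ z (hz : z ∈ D), σ ⟨z, le_adj _ _ (le_adj _ _ hz)⟩ ∈ D)
    (hσc : ∀ i, σ ⟨c i, le_adj _ _ (subset_adj _ _ ⟨i, rfl⟩)⟩ = c' i)
    (hσc' : ∀ i, σ ⟨c' i, subset_adj _ _ ⟨i, rfl⟩⟩ = c i)
    {a b : Ω} (ha : a ∈ adj (adj D (Set.range c)) (Set.range c'))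
    (hb : b ∈ adj (adj D (Set.range c)) (Set.range c')) (hσa : σ ⟨a, ha⟩ = a)
    (h : a ^ 4 + b ^ 4 = 1) : a ∈ D := by
  have hFD : F ≤ D := (le_acl F).trans hED
  set x := c i₀ with hx
  set x' := c' i₀ with hx'
  have hca : ∀ i, c i ∈ acl (adj D {x}) := fun i => acl_mono (adj_mono hFD subset_rfl) (hc.alg i)
  have hca' : ∀ i, c' i ∈ acl (adj D {x'}) := fun i => acl_mono (adj_mono hFD subset_rfl) (hc'.alg i)
  have e1 : acl (adj D (Set.range c)) ≤ acl (adj D {x}) := acl_adj_le 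
    ((le_adj _ _).trans (le_acl _)) (by rintro _ ⟨i, rfl⟩; exact hca i)
  have e1' : acl (adj D (Set.range c')) ≤ acl (adj D {x'}) := acl_adj_le 
    ((le_adj _ _).trans (le_acl _)) (by rintro _ ⟨i, rfl⟩; exact hca' i)
  have e2 : acl (adj D {x}) ≤ acl (adj D (Set.range c)) := 
    acl_mono (adj_mono le_rfl (by rintro _ rfl; exact ⟨i₀, rfl⟩))
  have e2' : acl (adj D {x'}) ≤ acl (adj D (Set.range c')) := 
    acl_mono (adj_mono le_rfl (by rintro _ rfl; exact ⟨i₀, rfl⟩))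
  -- x is transcendental over D(c')
  have hxk : x ∉ acl (adj D (Set.range c')) := by
    intro hxx
    exact hc'D (e2 (exchange (e1' hxx) hcD))
  obtain ⟨d, hd0, hdx⟩ := exists_derivation hxk
  have hdD : ∀ z ∈ D, d z = 0 := fun z hz => hd0 z (le_acl _ (le_adj _ _ hz))
  -- d preserves (adj D (Set.range c))
  have hd1 : ∀ z ∈ adj F {x}, d z ∈ (adj D (Set.range c)) := by
    apply derivation_adj d (K := (adj D (Set.range c)))
    · exact adj_mono hFD (by rintro _ rfl; exact ⟨i₀, rfl⟩)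
    · intro z hz; rw [hdD z (hFD hz)]; exact (adj D (Set.range c)).zero_mem
    · rintro _ rfl; rw [hdx]; exact (adj D (Set.range c)).one_mem
  have hdB : ∀ z ∈ (adj D (Set.range c)), d z ∈ (adj D (Set.range c)) := by
    apply derivation_adj d (K := (adj D (Set.range c))) le_rfl
    · intro z hz; rw [hdD z hz]; exact (adj D (Set.range c)).zero_mem
    · rintro _ ⟨i, rfl⟩
      exact derivation_mem d (adj_mono hFD (by rintro _ rfl; exact ⟨i₀, rfl⟩)) hd1 (hc.alg i)
        (subset_adj _ _ ⟨i, rfl⟩)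
  have hMk : (adj (acl F) (Set.range c')) ≤ (adj D (Set.range c')) := adj_mono hED subset_rfl
  have hdM : ∀ m ∈ (adj (acl F) (Set.range c')), d m = 0 := fun m hm => hd0 m (le_acl _ (hMk hm))
  have hsup : adj (adj D (Set.range c)) (Set.range c') = (adj D (Set.range c)) ⊔ (adj (acl F) (Set.range c')) := by
    apply le_antisymm
    · exact adj_le le_sup_left ((subset_adj _ _).trans (le_sup_right : (adj (acl F) (Set.range c')) ≤ (adj D (Set.range c)) ⊔ (adj (acl F) (Set.range c'))))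
    · exact sup_le (le_adj _ _) (adj_mono (hED.trans (le_adj _ _)) subset_rfl)
  have key := rigidity (acl_idem F) (hED.trans (le_adj D (Set.range c))) (le_adj _ (Set.range c'))
    (x := x') (subset_adj _ _ ⟨i₀, rfl⟩) (adj_le ((le_adj _ _).trans (le_acl _)) (by
      rintro _ ⟨i, rfl⟩
      exact acl_mono (adj_mono (le_acl F) subset_rfl) (hc'.alg i))) hc'D d hdB hdM (hsup ▸ ha) 
      (hsup ▸ hb) h
  -- transport by σ
  have hσ1 : ∀ z (hz : z ∈ (adj D (Set.range c))), σ ⟨z, le_adj _ _ hz⟩ ∈ (adj D (Set.range c')) := by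
    intro z hz
    have := hom_mem (σ.comp (Subfield.inclusion (le_adj (adj D (Set.range c)) (Set.range c')))) (adj D (Set.range c')) ?_ ?_ ⟨z, hz⟩
    · exact this
    · intro w hw
      exact le_adj _ _ (hσD w hw)
    · rintro _ ⟨i, rfl⟩
      exact (hσc i).symm ▸ subset_adj _ _ ⟨i, rfl⟩
  have hkD' : (adj D (Set.range c')) ≤ adj (adj D (Set.range c)) (Set.range c') := adj_mono (le_adj _ _) subset_rfl
  have hσ2 : ∀ z (hz : z ∈ (adj D (Set.range c'))), σ ⟨z, hkD' hz⟩ ∈ (adj D (Set.range c)) := by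
    intro z hz
    have := hom_mem (σ.comp (Subfield.inclusion hkD')) (adj D (Set.range c)) ?_ ?_ ⟨z, hz⟩
    · exact this
    · intro w hw
      exact le_adj _ _ (hσD w hw)
    · rintro _ ⟨i, rfl⟩
      exact (hσc' i).symm ▸ subset_adj _ _ ⟨i, rfl⟩
  have hboth : a ∈ acl (adj D (Set.range c)) ∧ a ∈ acl (adj D (Set.range c')) := by
    rcases key with key | key
    · refine ⟨key, ?_⟩
      have := map_acl (le_adj (adj D (Set.range c)) (Set.range c')) σ hσ1 ha key
      rwa [hσa] at this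
    · have hak : a ∈ acl (adj D (Set.range c')) := by
        refine mem_acl_of_derivation_eq_zero d (x := x) (fun z hz => hd0 z (le_acl _ hz)) 
          (by rw [hdx]; exact one_ne_zero) ?_ key
        have h3 : adj (adj D (Set.range c)) (Set.range c') ≤ acl (adj (adj D (Set.range c')) {x}) := by
          apply adj_le
          · apply adj_le
            · exact (le_adj _ _).trans ((le_adj _ _).trans (le_acl _))
            · rintro _ ⟨i, rfl⟩
              exact acl_mono (adj_mono (le_adj _ _) subset_rfl) (hca i)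
          · rintro _ ⟨i, rfl⟩
            exact le_acl _ (le_adj _ _ (subset_adj _ _ ⟨i, rfl⟩))
        exact h3 ha
      refine ⟨?_, hak⟩
      have := map_acl hkD' σ hσ2 ha hak
      rwa [hσa] at this
  have haD : a ∈ acl D := by
    by_contra hcon
    have h4 := exchange (e1 hboth.1) hcon
    have h5 : acl (adj D {a}) ≤ acl (adj D (Set.range c')) := acl_adj_le ((le_adj _ _).trans (le_acl _)) (by
      rintro _ rfl; exact hboth.2)
    exact hxk (h5 h4)
  have g1 := hc.extend hFD hcD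
  have g2 := hc'.extend (B := (adj D (Set.range c))) (hFD.trans (le_adj _ _)) hc'D
  have h6 : a ∈ (adj D (Set.range c)) := g2.reg ⟨ha, acl_mono (le_adj _ _) haD⟩
  exact g1.reg ⟨h6, haD⟩

end Pool.Agent.Helper737.Ample
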