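import Pool.Agent.Helper737.AmplePair


namespace Pool.Agent.Helper737.Ample

variable {Ω : Type} [Field Ω]

theorem countable_acl {k : Subfield Ω} (hk : (k : Set Ω).Countable) : 
    (acl k : Set Ω).Countable := by
  have : Countable k := hk.to_subtype
  have h := Algebraic.countable k Ω
  have e : (acl k : Set Ω) = {x : Ω | IsAlgebraic k x} := by
    ext z; exact mem_acl
  rw [e]; exact h

theorem countable_adj {k : Subfield Ω} (hk : (k : Set Ω).Countable) {S : Set Ω} 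
    (hS : S.Countable) : (adj k S : Set Ω).Countable := by
  have h1 : adj k S = Subfield.closure ((k : Set Ω) ∪ S) := by
    rw [Subfield.closure_union, Subfield.closure_eq]; rfl
  have h2 := Subfield.cardinalMk_closure_le_max ((k : Set Ω) ∪ S)
  have h3 : Cardinal.mk ((k : Set Ω) ∪ S : Set Ω) ≤ Cardinal.aleph0 := 
    Cardinal.mk_le_aleph0_iff.2 (hk.union hS).to_subtype
  rw [max_eq_right h3] at h2
  rw [h1]
  exact Set.countable_coe_iff.1 (Cardinal.mk_le_aleph0_iff.1 h2)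

theorem exists_notMem_acl [Uncountable Ω] {k : Subfield Ω} (hk : (k : Set Ω).Countable) : 
    ∃ x : Ω, x ∉ acl k := by
  by_contra h
  push Not at h
  exact Set.not_countable_univ (α := Ω) ((countable_acl hk).mono (fun x _ => h x))

theorem mem_adj_iUnion {k : Subfield Ω} {S : ℕ → Set Ω} (hS : Monotone S) {z : Ω}
    (hz : z ∈ adj k (⋃ r, S r)) : ∃ r, z ∈ adj k (S r) := by
  have h1 : adj k (⋃ r, S r) = ⨆ r, adj k (S r) := by
    apply le_antisymm
    · refine adj_le ?_ ?_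
      · exact (le_adj k (S 0)).trans (le_iSup (fun r => adj k (S r)) 0)
      · intro w hw
        obtain ⟨r, hr⟩ := Set.mem_iUnion.1 hw
        exact (le_iSup (fun r => adj k (S r)) r) (subset_adj _ _ hr)
    · exact iSup_le fun r => adj_mono le_rfl (Set.subset_iUnion S r)
  rw [h1] at hz
  exact (Subfield.mem_iSup_of_directed (Monotone.directed_le 
    (fun i j hij => adj_mono le_rfl (hS hij)))).1 hz

theorem Copy.trans {F : Subfield Ω} {n : ℕ} {a b c : Fin n → Ω} (h : Copy F a b)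
    (h' : Copy F b c) : Copy F a c := fun G => (h G).trans (h' G)

theorem Copy.symm {F : Subfield Ω} {n : ℕ} {a b : Fin n → Ω} (h : Copy F a b) : Copy F b a := 
  fun G => (h G).symm

theorem exists_next [CharZero Ω] [IsAlgClosed Ω] [Uncountable Ω] {F : Subfield Ω} {n : ℕ}
    {i₀ : Fin n} {a : Fin n → Ω} (ha : IsGen F i₀ a) (B : Subfield Ω)
    (h : (B : Set Ω).Countable ∧ F ≤ B) : 
    ∃ c : Fin n → Ω, Copy F a c ∧ IsGen F i₀ c ∧ c i₀ ∉ acl B := by
  obtain ⟨x, hx⟩ := exists_notMem_acl h.1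
  obtain ⟨c, hc1, hc2, hc3⟩ := exists_copy ha (x := x) (fun h' => hx (acl_mono h.2 h'))
  exact ⟨c, hc2, hc3, hc1 ▸ hx⟩

open Classical in
/-- the next generic copy over a given field -/
noncomputable def nx [CharZero Ω] [IsAlgClosed Ω] [Uncountable Ω] {F : Subfield Ω} {n : ℕ}
    {i₀ : Fin n} {a : Fin n → Ω} (ha : IsGen F i₀ a) (B : Subfield Ω) : Fin n → Ω := 
  if h : (B : Set Ω).Countable ∧ F ≤ B then Classical.choose (exists_next ha B h) else a

theorem nx_spec [CharZero Ω] [IsAlgClosed Ω] [Uncountable Ω] {F : Subfield Ω} {n : ℕ}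
    {i₀ : Fin n} {a : Fin n → Ω} (ha : IsGen F i₀ a) {B : Subfield Ω}
    (h1 : (B : Set Ω).Countable) (h2 : F ≤ B) : 
    Copy F a (nx ha B) ∧ IsGen F i₀ (nx ha B) ∧ nx ha B i₀ ∉ acl B := by
  unfold nx
  rw [dif_pos ⟨h1, h2⟩]
  exact Classical.choose_spec (exists_next ha B ⟨h1, h2⟩)

/-- the tower of fields generated by `s` and pairs of generic copies -/
noncomputable def GG [CharZero Ω] [IsAlgClosed Ω] [Uncountable Ω] {F : Subfield Ω} {n : ℕ}
    {i₀ : Fin n} {a : Fin n → Ω} (ha : IsGen F i₀ a) (s : Ω) : ℕ → Subfield Ω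
  | 0 => adj (acl F) {s}
  | r + 1 => adj (adj (GG ha s r) (Set.range (nx ha (GG ha s r)))) 
      (Set.range (nx ha (adj (GG ha s r) (Set.range (nx ha (GG ha s r))))))

section
variable [CharZero Ω] [IsAlgClosed Ω] [Uncountable Ω] {F : Subfield Ω} {n : ℕ}
    {i₀ : Fin n} {a : Fin n → Ω} (ha : IsGen F i₀ a) (s : Ω)

/-- first members of the pairs -/
noncomputable def pp (r : ℕ) : Fin n → Ω := nx ha (GG ha s r)
/-- second members of the pairs -/
noncomputable def qq (r : ℕ) : Fin n → Ω := nx ha (adj (GG ha s r) (Set.range (pp ha s r)))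

theorem GG_succ (r : ℕ) : GG ha s (r + 1) = adj (adj (GG ha s r) (Set.range (pp ha s r))) 
    (Set.range (qq ha s r)) := rfl

theorem GG_mono : Monotone (GG ha s) := monotone_nat_of_le_succ fun _ => 
  (le_adj _ _).trans (le_adj _ _)

theorem aclF_le_GG (r : ℕ) : acl F ≤ GG ha s r := (le_adj _ _).trans (GG_mono ha s (Nat.zero_le r))

theorem GG_countable (hF : (F : Set Ω).Countable) (r : ℕ) : (GG ha s r : Set Ω).Countable := by
  induction r with
  | zero => exact countable_adj (countable_acl hF) (Set.countable_singleton s)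
  | succ r ih => 
    exact countable_adj (countable_adj ih (Set.countable_range (nx ha (GG ha s r)))) 
      (Set.countable_range (nx ha (adj (GG ha s r) (Set.range (nx ha (GG ha s r))))))

theorem pp_spec (hF : (F : Set Ω).Countable) (r : ℕ) : 
    Copy F a (pp ha s r) ∧ IsGen F i₀ (pp ha s r) ∧ pp ha s r i₀ ∉ acl (GG ha s r) := 
  nx_spec ha (GG_countable ha s hF r) ((le_acl F).trans (aclF_le_GG ha s r))

theorem qq_spec (hF : (F : Set Ω).Countable) (r : ℕ) : 
    Copy F a (qq ha s r) ∧ IsGen F i₀ (qq ha s r) ∧ 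
      qq ha s r i₀ ∉ acl (adj (GG ha s r) (Set.range (pp ha s r))) := 
  nx_spec ha (countable_adj (GG_countable ha s hF r) (Set.countable_range _)) 
    (((le_acl F).trans (aclF_le_GG ha s r)).trans (le_adj _ _))

/-- the statement proved by induction -/
def PP (r : ℕ) : Prop := ∃ σ : ↥(GG ha s r) →+* Ω, 
  (∀ z (hz : z ∈ acl F), σ ⟨z, aclF_le_GG ha s r hz⟩ = z) ∧
  (∀ z (hz : z = s), σ ⟨z, GG_mono ha s (Nat.zero_le r) (subset_adj _ _ hz)⟩ = -s) ∧ 
  (∀ z, σ z ∈ GG ha s r) ∧ 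
  (∀ j < r, ∀ i, (∀ h, σ ⟨pp ha s j i, h⟩ = qq ha s j i) ∧ (∀ h, σ ⟨qq ha s j i, h⟩ = pp ha s j i)) ∧
  (∀ u v (hu : u ∈ GG ha s r) (hv : v ∈ GG ha s r), σ ⟨u, hu⟩ = u → σ ⟨v, hv⟩ = v → 
    u ^ 4 + v ^ 4 = 1 → u ∈ acl F ∧ v ∈ acl F)


theorem PP_zero (hs : s ∉ acl F) : PP ha s 0 := by
  have hs' : s ∉ acl (acl F) := by rwa [acl_idem]
  have hsneg : -s ∉ acl (acl F).subtype.fieldRange := by
    have : (acl F).subtype.fieldRange = acl F := by
      ext z; simp
    rw [this, acl_idem]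
    intro h
    exact hs (by simpa using (acl F).neg_mem h)
  obtain ⟨σ, h1, h2⟩ := exists_extension_transcendental (acl F).subtype hs' hsneg
  refine ⟨σ, ?_, ?_, ?_, ?_, ?_⟩
  · intro z hz
    exact h1 z hz
  · intro z hz
    subst hz
    exact h2
  · intro z
    apply hom_mem σ
    · intro w hw
      rw [h1 w hw]
      exact le_adj _ _ hw
    · rintro _ rfl
      rw [h2]
      exact Subfield.neg_mem _ (subset_adj _ _ rfl)
  · intro j hj; omega
  · intro u v hu hv _ _ huv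
    exact fermat_adj (acl_idem F) hs' hu hv huv

theorem PP_succ (hF : (F : Set Ω).Countable) {r : ℕ} (h : PP ha s r) : PP ha s (r + 1) := by
  obtain ⟨σ, hE, hss, hmem, hsw, hfer⟩ := h
  obtain ⟨hp1, hp2, hp3⟩ := pp_spec ha s hF r
  obtain ⟨hq1, hq2, hq3⟩ := qq_spec ha s hF r
  have hFG : F ≤ GG ha s r := (le_acl F).trans (aclF_le_GG ha s r)
  have hrange : σ.fieldRange ≤ GG ha s r := by
    rintro _ ⟨z, rfl⟩; exact hmem z
  obtain ⟨τ, hτ1, hτ2⟩ := exists_extension hp2 hq2 (hp1.symm.trans hq1) hFG σ 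
    (fun z hz => hE z (le_acl _ hz)) hp3 
    (fun h' => hq3 (acl_mono (hrange.trans (le_adj _ _)) h'))
  -- exchange
  have hpq : pp ha s r i₀ ∉ acl (adj (GG ha s r) (Set.range (qq ha s r))) := by
    intro h'
    have e1 : acl (adj (GG ha s r) (Set.range (qq ha s r))) ≤ 
        acl (adj (GG ha s r) {qq ha s r i₀}) := acl_adj_le ((le_adj _ _).trans (le_acl _)) (by
      rintro _ ⟨i, rfl⟩
      exact acl_mono (adj_mono hFG subset_rfl) (hq2.alg i))
    have e2 := exchange (e1 h') hp3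
    exact hq3 (acl_mono (adj_mono le_rfl (by rintro _ rfl; exact ⟨i₀, rfl⟩)) e2)
  have hτmem : ∀ z, τ z ∈ adj (GG ha s r) (Set.range (qq ha s r)) := by
    intro z
    apply hom_mem τ
    · intro w hw
      rw [hτ1 w hw]
      exact le_adj _ _ (hmem _)
    · rintro _ ⟨i, rfl⟩
      rw [hτ2 i]
      exact subset_adj _ _ ⟨i, rfl⟩
  have hτrange : τ.fieldRange ≤ adj (GG ha s r) (Set.range (qq ha s r)) := by
    rintro _ ⟨z, rfl⟩; exact hτmem z
  obtain ⟨ρ, hρ1, hρ2⟩ := exists_extension (B := adj (GG ha s r) (Set.range (pp ha s r))) hq2 hp2 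
    (hq1.symm.trans hp1) (hFG.trans (le_adj _ _)) τ 
    (fun z hz => by rw [hτ1 z (hFG hz)]; exact hE z (le_acl _ hz)) hq3 
    (fun h' => hpq (acl_mono hτrange h'))
  have hρσ : ∀ z (hz : z ∈ GG ha s r), ρ ⟨z, GG_mono ha s (Nat.le_succ r) hz⟩ = σ ⟨z, hz⟩ := by
    intro z hz
    rw [← hτ1 z hz, ← hρ1 z (le_adj _ _ hz)]
  have hρp : ∀ i, ∀ h, ρ ⟨pp ha s r i, h⟩ = qq ha s r i := by
    intro i h
    rw [← hτ2 i, ← hρ1 _ (subset_adj _ _ ⟨i, rfl⟩)]
  refine ⟨ρ, ?_, ?_, ?_, ?_, ?_⟩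
  · intro z hz
    exact (hρσ z (aclF_le_GG ha s r hz)).trans (hE z hz)
  · intro z hz
    exact (hρσ z (GG_mono ha s (Nat.zero_le r) (subset_adj _ _ hz))).trans (hss z hz)
  · intro z
    apply hom_mem ρ
    · intro w hw
      rw [hρ1 w hw]
      have := hτmem ⟨w, hw⟩
      exact (adj_mono (le_adj _ _) subset_rfl) this
    · rintro _ ⟨i, rfl⟩
      rw [hρ2 i]
      exact le_adj _ _ (subset_adj _ _ ⟨i, rfl⟩)
  · intro j hj i
    rcases Nat.lt_succ_iff_lt_or_eq.1 hj with hj | rfl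
    · have m1 : pp ha s j i ∈ GG ha s r := GG_mono ha s (Nat.succ_le_of_lt hj) 
        (le_adj _ _ (subset_adj _ _ ⟨i, rfl⟩))
      have m2 : qq ha s j i ∈ GG ha s r := GG_mono ha s (Nat.succ_le_of_lt hj) 
        (subset_adj _ _ ⟨i, rfl⟩)
      refine ⟨fun h => ?_, fun h => ?_⟩
      · exact (hρσ _ m1).trans ((hsw j hj i).1 m1)
      · exact (hρσ _ m2).trans ((hsw j hj i).2 m2)
    · exact ⟨hρp i, fun h => hρ2 i⟩
  · intro u v hu hv hρu hρv huv
    have hu' : u ∈ GG ha s r := pair_step (aclF_le_GG ha s r) hp2 hq2 hp3 hq3 ρ 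
      (fun z hz => by
        have := hρσ z hz
        rw [this]; exact hmem _) 
      (fun i => hρp i _) hρ2 hu hv hρu huv
    have hv' : v ∈ GG ha s r := pair_step (aclF_le_GG ha s r) hp2 hq2 hp3 hq3 ρ 
      (fun z hz => by
        have := hρσ z hz
        rw [this]; exact hmem _) 
      (fun i => hρp i _) hρ2 hv hu hρv (by rw [add_comm]; exact huv)
    exact hfer u v hu' hv' (by rw [← hρσ u hu']; exact hρu) (by rw [← hρσ v hv']; exact hρv) huv

theorem PP_all (hF : (F : Set Ω).Countable) (hs : s ∉ acl F) (r : ℕ) : PP ha s r := by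
  induction r with
  | zero => exact PP_zero ha s hs
  | succ r ih => exact PP_succ ha s hF ih

/-- generators of the fixed field, up to level `r` -/
def SS (r : ℕ) : Set Ω := {z | z = s ^ 2 ∨ ∃ j < r, ∃ i, z = pp ha s j i + qq ha s j i ∨ 
  z = s * (pp ha s j i - qq ha s j i)}

theorem SS_mono : Monotone (SS ha s) := by
  intro r r' hr z hz
  rcases hz with hz | ⟨j, hj, i, h⟩
  · exact Or.inl hz
  · exact Or.inr ⟨j, hj.trans_le hr, i, h⟩

theorem s_mem_GG (r : ℕ) : s ∈ GG ha s r := GG_mono ha s (Nat.zero_le r) (subset_adj _ _ rfl)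

theorem pp_mem_GG {j r : ℕ} (h : j < r) (i : Fin n) : pp ha s j i ∈ GG ha s r := 
  GG_mono ha s (Nat.succ_le_of_lt h) (le_adj _ _ (subset_adj _ _ ⟨i, rfl⟩))

theorem qq_mem_GG {j r : ℕ} (h : j < r) (i : Fin n) : qq ha s j i ∈ GG ha s r := 
  GG_mono ha s (Nat.succ_le_of_lt h) (subset_adj _ _ ⟨i, rfl⟩)

theorem SS_subset (r : ℕ) : SS ha s r ⊆ GG ha s r := by
  rintro z (rfl | ⟨j, hj, i, rfl | rfl⟩)
  · exact Subfield.pow_mem _ (s_mem_GG ha s r) 2
  · exact Subfield.add_mem _ (pp_mem_GG ha s hj i) (qq_mem_GG ha s hj i)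
  · exact Subfield.mul_mem _ (s_mem_GG ha s r) 
      (Subfield.sub_mem _ (pp_mem_GG ha s hj i) (qq_mem_GG ha s hj i))

theorem adj_SS_le (r : ℕ) : adj (acl F) (SS ha s r) ≤ GG ha s r := 
  adj_le (aclF_le_GG ha s r) (SS_subset ha s r)

theorem fer_adj_SS (hF : (F : Set Ω).Countable) (hs : s ∉ acl F) (r : ℕ) {u v : Ω} 
    (hu : u ∈ adj (acl F) (SS ha s r)) (hv : v ∈ adj (acl F) (SS ha s r)) 
    (huv : u ^ 4 + v ^ 4 = 1) : u ∈ acl F ∧ v ∈ acl F := by
  obtain ⟨σ, hE, hss, hmem, hsw, hfer⟩ := PP_all ha s hF hs r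
  let L : Subfield Ω := (RingHom.eqLocusField σ (GG ha s r).subtype).map (GG ha s r).subtype
  have hL : adj (acl F) (SS ha s r) ≤ L := by
    apply adj_le
    · intro z hz
      exact ⟨⟨z, aclF_le_GG ha s r hz⟩, hE z hz, rfl⟩
    · intro z hz
      refine ⟨⟨z, SS_subset ha s r hz⟩, ?_, rfl⟩
      have hσs : σ ⟨s, s_mem_GG ha s r⟩ = -s := hss s rfl
      rcases hz with hz | ⟨j, hj, i, hz | hz⟩
      · have : (⟨z, SS_subset ha s r (Or.inl hz)⟩ : GG ha s r) = ⟨s, s_mem_GG ha s r⟩ ^ 2 := 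
          Subtype.ext hz
        change σ _ = z
        rw [this, map_pow, hσs, hz]; ring
      · have : (⟨z, SS_subset ha s r (Or.inr ⟨j, hj, i, Or.inl hz⟩)⟩ : GG ha s r) = 
          ⟨pp ha s j i, pp_mem_GG ha s hj i⟩ + ⟨qq ha s j i, qq_mem_GG ha s hj i⟩ := 
          Subtype.ext hz
        change σ _ = z
        rw [this, map_add, (hsw j hj i).1, (hsw j hj i).2, hz]; ring
      · have : (⟨z, SS_subset ha s r (Or.inr ⟨j, hj, i, Or.inr hz⟩)⟩ : GG ha s r) = 
          ⟨s, s_mem_GG ha s r⟩ * 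
          (⟨pp ha s j i, pp_mem_GG ha s hj i⟩ - ⟨qq ha s j i, qq_mem_GG ha s hj i⟩) := 
          Subtype.ext hz
        change σ _ = z
        rw [this, map_mul, map_sub, (hsw j hj i).1, (hsw j hj i).2, hσs, hz]; ring
  have fix : ∀ z (hz : z ∈ adj (acl F) (SS ha s r)), σ ⟨z, adj_SS_le ha s r hz⟩ = z := by
    intro z hz
    obtain ⟨w, hw, hwz⟩ := hL hz
    have : w = ⟨z, adj_SS_le ha s r hz⟩ := Subtype.ext hwz
    rw [← this]
    exact hw.trans hwz
  exact hfer u v (adj_SS_le ha s r hu) (adj_SS_le ha s r hv) (fix u hu) (fix v hv) huv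

/-- tower over `F` itself -/
noncomputable def BF : ℕ → Subfield Ω
  | 0 => adj F {s}
  | r + 1 => adj (adj (BF r) (Set.range (pp ha s r))) (Set.range (qq ha s r))

theorem BF_le_GG (r : ℕ) : BF ha s r ≤ GG ha s r := by
  induction r with
  | zero => exact adj_mono (le_acl F) subset_rfl
  | succ r ih => exact adj_mono (adj_mono ih subset_rfl) subset_rfl

theorem BF_mono : Monotone (BF ha s) := monotone_nat_of_le_succ fun _ => 
  (le_adj _ _).trans (le_adj _ _)

theorem F_le_BF (r : ℕ) : F ≤ BF ha s r := (le_adj _ _).trans (BF_mono ha s (Nat.zero_le r))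

theorem BF_reg (hF : (F : Set Ω).Countable) (hs : s ∉ acl F) (r : ℕ) : 
    BF ha s r ⊓ acl F ≤ F := by
  induction r with
  | zero => exact adj_inf_acl hs
  | succ r ih =>
    obtain ⟨_, hp2, hp3⟩ := pp_spec ha s hF r
    obtain ⟨_, hq2, hq3⟩ := qq_spec ha s hF r
    have g1 := hp2.extend (F_le_BF ha s r) (fun h => hp3 (acl_mono (BF_le_GG ha s r) h))
    have g2 := hq2.extend (B := adj (BF ha s r) (Set.range (pp ha s r))) 
      ((F_le_BF ha s r).trans (le_adj _ _)) 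
      (fun h => hq3 (acl_mono (adj_mono (BF_le_GG ha s r) subset_rfl) h))
    rintro z ⟨hz1, hz2⟩
    have h1 : z ∈ adj (BF ha s r) (Set.range (pp ha s r)) := 
      g2.reg ⟨hz1, acl_mono ((F_le_BF ha s r).trans (le_adj _ _)) hz2⟩
    have h2 : z ∈ BF ha s r := g1.reg ⟨h1, acl_mono (F_le_BF ha s r) hz2⟩
    exact ih ⟨h2, hz2⟩

theorem adj_SS_le_BF (r : ℕ) : adj F (SS ha s r) ≤ BF ha s r := by
  have hsm : s ∈ BF ha s r := BF_mono ha s (Nat.zero_le r) (subset_adj _ _ rfl)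
  apply adj_le (F_le_BF ha s r)
  have hp : ∀ {j}, j < r → ∀ i, pp ha s j i ∈ BF ha s r := fun hj i => 
    BF_mono ha s (Nat.succ_le_of_lt hj) (le_adj _ _ (subset_adj _ _ ⟨i, rfl⟩))
  have hq : ∀ {j}, j < r → ∀ i, qq ha s j i ∈ BF ha s r := fun hj i => 
    BF_mono ha s (Nat.succ_le_of_lt hj) (subset_adj _ _ ⟨i, rfl⟩)
  rintro z (rfl | ⟨j, hj, i, rfl | rfl⟩)
  · exact Subfield.pow_mem _ hsm 2
  · exact Subfield.add_mem _ (hp hj i) (hq hj i)
  · exact Subfield.mul_mem _ hsm (Subfield.sub_mem _ (hp hj i) (hq hj i))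

end

/-- Handling one curve. -/
theorem small_step [CharZero Ω] [IsAlgClosed Ω] [Uncountable Ω] {F : Subfield Ω}
    (hF : (F : Set Ω).Countable) {n : ℕ} {i₀ : Fin n} {a : Fin n → Ω} (ha : IsGen F i₀ a) : 
    ∃ F' : Subfield Ω, (F' : Set Ω).Countable ∧ Pext F F' ∧ ∃ s : Ω, s ^ 2 ∈ F' ∧ 
      ∃ c : ℕ → Fin n → Ω, Function.Injective c ∧ 
        ∀ m, (∀ i, c m i ∈ adj F' {s}) ∧ Copy F a (c m) := by
  obtain ⟨s, hs⟩ := exists_notMem_acl hF
  have hSc : (⋃ r, SS ha s r).Countable := by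
    apply Set.countable_iUnion
    intro r
    have : SS ha s r = {s ^ 2} ∪ ⋃ j : Fin r, ⋃ i : Fin n, 
        ({pp ha s j i + qq ha s j i, s * (pp ha s j i - qq ha s j i)} : Set Ω) := by
      ext z
      simp only [SS, Set.mem_union, Set.mem_singleton_iff, Set.mem_iUnion, Set.mem_insert_iff]
      constructor
      · rintro (h | ⟨j, hj, i, h⟩)
        · exact Or.inl h
        · exact Or.inr ⟨⟨j, hj⟩, i, h⟩
      · rintro (h | ⟨j, i, h⟩)
        · exact Or.inl h
        · exact Or.inr ⟨j, j.2, i, h⟩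
    rw [this]
    refine (Set.countable_singleton _).union (Set.countable_iUnion fun j => 
      Set.countable_iUnion fun i => ?_)
    exact (Set.toFinite _).countable
  have h2s : (2 : Ω) * s ≠ 0 := by
    refine mul_ne_zero two_ne_zero ?_
    rintro rfl
    exact hs (Subfield.zero_mem _)
  refine ⟨adj F (⋃ r, SS ha s r), countable_adj hF hSc, ⟨le_adj _ _, ?_, ?_⟩, s, ?_, pp ha s, ?_, ?_⟩
  · rintro z ⟨hz1, hz2⟩
    obtain ⟨r, hr⟩ := mem_adj_iUnion (SS_mono ha s) hz1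
    exact BF_reg ha s hF hs r ⟨adj_SS_le_BF ha s r hr, hz2⟩
  · intro u hu v hv huv
    have e : acl F ⊔ adj F (⋃ r, SS ha s r) = adj (acl F) (⋃ r, SS ha s r) := by
      apply le_antisymm
      · exact sup_le (le_adj _ _) (adj_mono (le_acl F) subset_rfl)
      · exact adj_le le_sup_left ((subset_adj F _).trans (le_sup_right : _ ≤ acl F ⊔ _))
    rw [e] at hu hv
    obtain ⟨r1, hr1⟩ := mem_adj_iUnion (SS_mono ha s) hu
    obtain ⟨r2, hr2⟩ := mem_adj_iUnion (SS_mono ha s) hv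
    exact fer_adj_SS ha s hF hs (max r1 r2) 
      (adj_mono le_rfl (SS_mono ha s (le_max_left _ _)) hr1)
      (adj_mono le_rfl (SS_mono ha s (le_max_right _ _)) hr2) huv
  · exact subset_adj _ _ (Set.mem_iUnion.2 ⟨0, Or.inl rfl⟩)
  · intro m m' hmm
    by_contra hne
    wlog hlt : m < m' generalizing m m'
    · exact this hmm.symm (Ne.symm hne) (lt_of_le_of_ne (not_lt.1 hlt) (Ne.symm hne))
    have h1 := (pp_spec ha s hF m').2.2
    rw [← hmm] at h1
    exact h1 (le_acl _ (pp_mem_GG ha s hlt i₀))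
  · intro m
    refine ⟨fun i => ?_, (pp_spec ha s hF m).1⟩
    have m1 : pp ha s m i + qq ha s m i ∈ adj F (⋃ r, SS ha s r) := 
      subset_adj _ _ (Set.mem_iUnion.2 ⟨m + 1, Or.inr ⟨m, Nat.lt_succ_self m, i, Or.inl rfl⟩⟩)
    have m2 : s * (pp ha s m i - qq ha s m i) ∈ adj F (⋃ r, SS ha s r) := 
      subset_adj _ _ (Set.mem_iUnion.2 ⟨m + 1, Or.inr ⟨m, Nat.lt_succ_self m, i, Or.inr rfl⟩⟩)
    have m3 : s ∈ adj (adj F (⋃ r, SS ha s r)) {s} := subset_adj _ _ rfl
    have m1' := le_adj _ {s} m1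
    have m2' := le_adj _ {s} m2
    have e : pp ha s m i = (pp ha s m i + qq ha s m i) * 2⁻¹ + 
        (s * (pp ha s m i - qq ha s m i)) * (2 * s)⁻¹ := by
      have hs0 : s ≠ 0 := by rintro rfl; simp at h2s
      field_simp
      ring
    rw [e]
    have two_mem : (2 : Ω) ∈ adj (adj F (⋃ r, SS ha s r)) {s} := by
      rw [← one_add_one_eq_two]
      exact Subfield.add_mem _ (Subfield.one_mem _) (Subfield.one_mem _)
    exact Subfield.add_mem _ (Subfield.mul_mem _ m1' (Subfield.inv_mem _ two_mem)) 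
      (Subfield.mul_mem _ m2' (Subfield.inv_mem _ (Subfield.mul_mem _ two_mem m3)))

end Pool.Agent.Helper737.Ample
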