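import Pool.Agent.Helper737.AmpleSmall


namespace Pool.Agent.Helper737.Ample

variable {Ω : Type} [Field Ω]

theorem Pext.refl (F : Subfield Ω) : Pext F F where
  le := le_rfl
  reg := fun _ hz => hz.1
  fer := fun a ha b hb _ => by
    have : acl F ⊔ F = acl F := sup_eq_left.2 (le_acl F)
    rw [this] at ha hb
    exact ⟨ha, hb⟩

theorem Pext.trans [CharZero Ω] [IsAlgClosed Ω] {F F' F'' : Subfield Ω} (h1 : Pext F F')
    (h2 : Pext F' F'') : Pext F F'' where
  le := h1.le.trans h2.le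
  reg := fun z hz => h1.reg ⟨h2.reg ⟨hz.1, acl_mono h1.le hz.2⟩, hz.2⟩
  fer := fun a ha b hb h => by
    have h3 : acl F ⊔ F'' ≤ acl F' ⊔ F'' := sup_le_sup_right (acl_mono h1.le) _
    obtain ⟨ha', hb'⟩ := h2.fer a (h3 ha) b (h3 hb) h
    exact h1.fer a (sup_inf_acl h1.le h2.le h2.reg ⟨ha, ha'⟩) b 
      (sup_inf_acl h1.le h2.le h2.reg ⟨hb, hb'⟩) h

theorem Pext.of_le [CharZero Ω] [IsAlgClosed Ω] {K : ℕ → Subfield Ω}
    (h : ∀ j, Pext (K j) (K (j + 1))) {i j : ℕ} (hij : i ≤ j) : Pext (K i) (K j) := by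
  induction hij with
  | refl => exact Pext.refl _
  | step _ ih => exact ih.trans (h _)

theorem mem_iSup_mono {K : ℕ → Subfield Ω} (hK : Monotone K) {z : Ω} : 
    z ∈ ⨆ j, K j ↔ ∃ j, z ∈ K j := Subfield.mem_iSup_of_directed hK.directed_le

theorem sup_iSup_mono {K : ℕ → Subfield Ω} (hK : Monotone K) {E : Subfield Ω} {z : Ω}
    (hz : z ∈ E ⊔ ⨆ j, K j) (i : ℕ) : ∃ j, i ≤ j ∧ z ∈ E ⊔ K j := by
  have h1 : E ⊔ ⨆ j, K j ≤ ⨆ j, (E ⊔ K j) := by
    apply sup_le
    · exact le_sup_left.trans (le_iSup (fun j => E ⊔ K j) 0)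
    · exact iSup_le fun j => le_sup_right.trans (le_iSup (fun j => E ⊔ K j) j)
  have hm : Monotone (fun j => E ⊔ K j) := fun a b hab => sup_le_sup_left (hK hab) _
  obtain ⟨j, hj⟩ := (mem_iSup_mono hm).1 (h1 hz)
  exact ⟨max i j, le_max_left _ _, hm (le_max_right i j) hj⟩

theorem Pext.iSup [CharZero Ω] [IsAlgClosed Ω] {K : ℕ → Subfield Ω}
    (h : ∀ j, Pext (K j) (K (j + 1))) (i : ℕ) : Pext (K i) (⨆ j, K j) := by
  have hK : Monotone K := monotone_nat_of_le_succ fun j => (h j).le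
  refine ⟨le_iSup K i, ?_, ?_⟩
  · rintro z ⟨hz1, hz2⟩
    obtain ⟨j, hj⟩ := (mem_iSup_mono hK).1 hz1
    exact (Pext.of_le h (le_max_left i j)).reg ⟨hK (le_max_right i j) hj, hz2⟩
  · intro a ha b hb hab
    obtain ⟨j, hj, hj'⟩ := sup_iSup_mono hK ha i
    obtain ⟨k, hk, hk'⟩ := sup_iSup_mono hK hb j
    exact (Pext.of_le h (hj.trans hk)).fer a (sup_le_sup_left (hK hk) _ hj') b hk' hab

theorem Pext.adj [CharZero Ω] [IsAlgClosed Ω] {F : Subfield Ω} {u : Ω} (hu : u ∉ acl F) : 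
    Pext F (adj F {u}) where
  le := le_adj _ _
  reg := adj_inf_acl hu
  fer := fun a ha b hb h => by
    have e : acl F ⊔ Ample.adj F {u} ≤ Ample.adj (acl F) {u} := 
      sup_le (le_adj _ _) (adj_mono (le_acl F) subset_rfl)
    exact fermat_adj (acl_idem F) (by rwa [acl_idem]) (e ha) (e hb) h

/-- all curves over `F` acquire infinitely many points over a quadratic extension of `K` -/
def Handles (F K : Subfield Ω) : Prop := ∀ (n : ℕ) (i₀ : Fin n) (a : Fin n → Ω), IsGen F i₀ a → 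
  ∃ s : Ω, s ^ 2 ∈ K ∧ ∃ c : ℕ → Fin n → Ω, Function.Injective c ∧ 
    ∀ m, (∀ i, c m i ∈ adj K {s}) ∧ Copy F a (c m)

theorem Copy.mono {F F' : Subfield Ω} (hF : F ≤ F') {n : ℕ} {a c : Fin n → Ω} (h : Copy F' a c) : 
    Copy F a c := by
  intro G
  have h1 : ∀ b : Fin n → Ω, MvPolynomial.aeval b (MvPolynomial.map (Subfield.inclusion hF) G) = 
      MvPolynomial.aeval b G := by
    intro b
    rw [MvPolynomial.aeval_def, MvPolynomial.eval₂_map, MvPolynomial.aeval_def]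
    rfl
  rw [← h1 a, ← h1 c]
  exact h _

theorem countable_ideal {R : Type} [CommRing R] [Countable R] [IsNoetherianRing R] : 
    Countable (Ideal R) := by
  have : Function.Surjective (fun s : Finset R => Ideal.span (s : Set R)) := fun I => 
    (isNoetherian_def.1 inferInstance I)
  exact this.countable

theorem big_step [CharZero Ω] [IsAlgClosed Ω] [Uncountable Ω] {F : Subfield Ω}
    (hF : (F : Set Ω).Countable) : 
    ∃ F' : Subfield Ω, (F' : Set Ω).Countable ∧ Pext F F' ∧ Handles F F' := by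
  have : Countable F := hF.to_subtype
  have hcI : ∀ n, Countable (Ideal (MvPolynomial (Fin n) F)) := fun n => by
    have : Countable (MvPolynomial (Fin n) F) := by
      have h1 := MvPolynomial.cardinalMk_le_max (σ := Fin n) (R := F)
      rw [← Cardinal.mk_le_aleph0_iff]
      refine h1.trans ?_
      simp
    exact countable_ideal
  have : Nonempty (Σ n : ℕ, Fin n × Ideal (MvPolynomial (Fin n) F)) := ⟨⟨1, 0, ⊥⟩⟩
  obtain ⟨e, he⟩ := exists_surjective_nat (Σ n : ℕ, Fin n × Ideal (MvPolynomial (Fin n) F))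
  let HT : (Σ n : ℕ, Fin n × Ideal (MvPolynomial (Fin n) F)) → Subfield Ω → Prop := fun t K =>
    ∀ a : Fin t.1 → Ω, IsGen F t.2.1 a → RingHom.ker (MvPolynomial.aeval (R := F) a) = t.2.2 → 
      ∃ s : Ω, s ^ 2 ∈ K ∧ ∃ c : ℕ → Fin t.1 → Ω, Function.Injective c ∧ 
        ∀ m, (∀ i, c m i ∈ adj K {s}) ∧ Copy F a (c m)
  have step : ∀ (l : ℕ) (K : {K : Subfield Ω // (K : Set Ω).Countable ∧ F ≤ K}), 
      ∃ K' : {K : Subfield Ω // (K : Set Ω).Countable ∧ F ≤ K}, Pext K.1 K'.1 ∧ HT (e l) K'.1 := by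
    rintro l ⟨K, hK1, hK2⟩
    by_cases hgood : ∃ a : Fin (e l).1 → Ω, IsGen F (e l).2.1 a ∧ 
        RingHom.ker (MvPolynomial.aeval (R := F) a) = (e l).2.2
    · obtain ⟨a, ha, hker⟩ := hgood
      obtain ⟨c₀, hc1, hc2, hc3⟩ := exists_next ha K ⟨hK1, hK2⟩
      have hc4 : IsGen K (e l).2.1 c₀ := hc2.extend hK2 hc3
      obtain ⟨F', hF'1, hF'2, s, hs, c, hc, hcc⟩ := small_step hK1 hc4
      refine ⟨⟨F', hF'1, hK2.trans hF'2.le⟩, hF'2, ?_⟩
      intro a' _ hker'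
      refine ⟨s, hs, c, hc, fun m => ⟨(hcc m).1, ?_⟩⟩
      have : Copy F a' a := by
        intro G
        have := SetLike.ext_iff.1 (hker'.trans hker.symm) G
        simpa [RingHom.mem_ker] using this
      exact (this.trans hc1).trans ((hcc m).2.mono hK2)
    · refine ⟨⟨K, hK1, hK2⟩, Pext.refl K, ?_⟩
      intro a ha hker
      exact absurd ⟨a, ha, hker⟩ hgood
  choose f hf1 hf2 using step
  let q : ℕ → {K : Subfield Ω // (K : Set Ω).Countable ∧ F ≤ K} := 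
    fun l => Nat.rec ⟨F, hF, le_rfl⟩ (fun l K => f l K) l
  have hq : ∀ j, Pext (q j).1 (q (j + 1)).1 := fun j => hf1 j (q j)
  have hmono : Monotone (fun j => (q j).1) := monotone_nat_of_le_succ fun j => (hq j).le
  refine ⟨⨆ j, (q j).1, ?_, Pext.iSup hq 0, ?_⟩
  · rw [Subfield.coe_iSup_of_directed hmono.directed_le]
    exact Set.countable_iUnion fun j => (q j).2.1
  · intro n i₀ a ha
    obtain ⟨l, hl⟩ := he ⟨n, i₀, RingHom.ker (MvPolynomial.aeval (R := F) a)⟩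
    have h1 := hf2 l (q l)
    rw [hl] at h1
    obtain ⟨s, hs, c, hc, hcc⟩ := h1 a ha rfl
    have hle : (f l (q l)).1 ≤ ⨆ j, (q j).1 := le_iSup (fun j => (q j).1) (l + 1)
    exact ⟨s, hle hs, c, hc, fun m => ⟨fun i => adj_mono hle subset_rfl ((hcc m).1 i), (hcc m).2⟩⟩

/-- the tower -/
theorem tower [CharZero Ω] [IsAlgClosed Ω] [Uncountable Ω] : 
    ∃ (K : ℕ → Subfield Ω) (u : ℕ → Ω), (∀ j, (K j : Set Ω).Countable) ∧ (∀ j, u j ∉ acl (K j)) ∧
      (∀ j, Pext (adj (K j) {u j}) (K (j + 1))) ∧ ∀ j, Handles (adj (K j) {u j}) (K (j + 1)) := by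
  have step : ∀ (K : {K : Subfield Ω // (K : Set Ω).Countable}), 
      ∃ (K' : {K : Subfield Ω // (K : Set Ω).Countable}) (u : Ω), u ∉ acl K.1 ∧ 
        Pext (adj K.1 {u}) K'.1 ∧ Handles (adj K.1 {u}) K'.1 := by
    rintro ⟨K, hK⟩
    obtain ⟨u, hu⟩ := exists_notMem_acl hK
    obtain ⟨F', h1, h2, h3⟩ := big_step (countable_adj hK (Set.countable_singleton u))
    exact ⟨⟨F', h1⟩, u, hu, h2, h3⟩
  choose f u h1 h2 h3 using step
  have hbot : ((⊥ : Subfield Ω) : Set Ω).Countable := by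
    have := Subfield.cardinalMk_closure_le_max (∅ : Set Ω)
    rw [Subfield.closure_empty] at this
    exact Set.countable_coe_iff.1 (Cardinal.mk_le_aleph0_iff.1 (this.trans (by simp)))
  let q : ℕ → {K : Subfield Ω // (K : Set Ω).Countable} := 
    fun l => Nat.rec ⟨⊥, hbot⟩ (fun _ K => f K) l
  exact ⟨fun j => (q j).1, fun j => u (q j), fun j => (q j).2, fun j => h1 (q j), 
    fun j => h2 (q j), fun j => h3 (q j)⟩

end Pool.Agent.Helper737.Ample
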