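import Mathlib

set_option autoImplicit false

namespace Pool.Agent.Helper737.FF

open MvPolynomial

section Basic

variable {F : Type} [Field F] (p : ℕ) [hp : Fact p.Prime] [CharP F p]

/-- exponent vector attached to a residue pair -/
noncomputable def ex (e : Fin 2 → Fin p) : Fin 2 →₀ ℕ :=
  Finsupp.equivFunOnFinite.symm (fun i => (e i : ℕ))

omit hp in
@[simp] lemma ex_apply (e : Fin 2 → Fin p) (i : Fin 2) : ex p e i = (e i : ℕ) := rfl

open Classical in
/-- the coefficient monomials -/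
noncomputable def mc (e : Fin 2 → Fin p) : MvPolynomial (Fin 2) F :=
  if (∀ i, (e i : ℕ) = 0) then 0 else monomial (ex p e) 1

lemma coeff_pow_char_smul (f : MvPolynomial (Fin 2) F) (s : Fin 2 →₀ ℕ) :
    coeff (p • s) (f ^ p) = (coeff s f) ^ p := by
  rw [← map_frobenius_expand p, coeff_map, coeff_expand_smul p hp.out.ne_zero]
  rfl

lemma coeff_pow_char_not (f : MvPolynomial (Fin 2) F) (s : Fin 2 →₀ ℕ) (i : Fin 2)
    (h : ¬ p ∣ s i) : coeff s (f ^ p) = 0 := by
  rw [← map_frobenius_expand p, coeff_map, coeff_expand_of_not_dvd _ h, map_zero]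

lemma coeff_mc_mul (e : Fin 2 → Fin p) (f : MvPolynomial (Fin 2) F) (s : Fin 2 →₀ ℕ) :
    coeff (p • s) (mc p e * f ^ p) = 0 := by
  classical
  unfold mc
  split_ifs with h
  · simp
  · rw [coeff_monomial_mul']
    split_ifs with h2
    · rw [one_mul]
      push Not at h
      obtain ⟨i, hi⟩ := h
      apply coeff_pow_char_not p f _ i
      intro hd
      have h3 : ((p • s - ex p e) i : ℕ) = p * s i - e i := by simp
      rw [h3] at hd
      have h4 : (e i : ℕ) ≤ p * s i := by
        have := h2 i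
        simpa using this
      have h5 : p ∣ (e i : ℕ) := by
        have h6 : p ∣ p * s i := dvd_mul_right _ _
        have h7 := (Nat.dvd_sub h6 hd)
        rwa [Nat.sub_sub_self h4] at h7
      exact hi (Nat.eq_zero_of_dvd_of_lt h5 (e i).isLt)
    · rfl

/-- the basic form -/
noncomputable def form (a : F) (x G : MvPolynomial (Fin 2) F)
    (y : (Fin 2 → Fin p) → MvPolynomial (Fin 2) F) : MvPolynomial (Fin 2) F :=
  x ^ p - x * G ^ (p - 1) + C a * G ^ p + ∑ e, mc p e * (y e) ^ p

lemma norm_ne_zero (a : F) (ha : ∀ t : F, t ^ p - t + a ≠ 0) (ξ γ : F) (h : ξ ≠ 0 ∨ γ ≠ 0) :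
    ξ ^ p - ξ * γ ^ (p - 1) + a * γ ^ p ≠ 0 := by
  have hp1 : 1 ≤ p := hp.out.one_lt.le
  by_cases hγ : γ = 0
  · subst hγ
    have hξ : ξ ≠ 0 := by simpa using h
    have h1 : p - 1 ≠ 0 := by have := hp.out.two_le; omega
    rw [zero_pow h1, zero_pow hp.out.ne_zero, mul_zero, mul_zero, sub_zero, add_zero]
    exact pow_ne_zero _ hξ
  · intro h0
    apply ha (ξ / γ)
    have h2 : γ ^ p = γ ^ (p - 1) * γ := by
      rw [← pow_succ]; congr 1; omega
    have h3 : γ ^ p ≠ 0 := pow_ne_zero _ hγ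
    have h4 : ξ / γ * γ ^ p = ξ * γ ^ (p - 1) := by
      rw [h2]; field_simp
    have h5 : γ ^ p * ((ξ / γ) ^ p - ξ / γ + a) = 0 := by
      rw [div_pow]
      have : γ ^ p * (ξ ^ p / γ ^ p - ξ / γ + a)
          = γ ^ p * (ξ ^ p / γ ^ p) - ξ / γ * γ ^ p + a * γ ^ p := by ring
      rw [this, h4, mul_div_cancel₀ _ h3, h0]
    rcases mul_eq_zero.mp h5 with h6 | h6
    · exact absurd h6 h3
    · exact h6

open MonomialOrder in
lemma coeff_form (a : F) (x G : MvPolynomial (Fin 2) F)
    (y : (Fin 2 → Fin p) → MvPolynomial (Fin 2) F) (s : Fin 2 →₀ ℕ)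
    (hx : degLex.toSyn (degLex.degree x) ≤ degLex.toSyn s)
    (hG : degLex.toSyn (degLex.degree G) ≤ degLex.toSyn s) :
    coeff (p • s) (form p a x G y) =
      (coeff s x) ^ p - coeff s x * (coeff s G) ^ (p - 1) + a * (coeff s G) ^ p := by
  have hp1 : 1 ≤ p := hp.out.one_lt.le
  have key : ∀ n : ℕ, coeff (n • s) (G ^ n) = (coeff s G) ^ n ∧
      degLex.toSyn (degLex.degree (G ^ n)) ≤ degLex.toSyn (n • s) := by
    intro n
    induction n with
    | zero => simp
    | succ n ih =>
      refine ⟨?_, ?_⟩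
      · rw [pow_succ, succ_nsmul, coeff_mul_of_add_of_degree_le ih.2 hG, ih.1, pow_succ]
      · rw [pow_succ, succ_nsmul, map_add]
        refine le_trans (degree_mul_le) ?_
        rw [map_add]
        exact add_le_add ih.2 hG
  have hmid : coeff (p • s) (x * G ^ (p - 1)) = coeff s x * (coeff s G) ^ (p - 1) := by
    have : p • s = s + (p - 1) • s := by
      rw [← succ_nsmul']; congr 1; omega
    rw [this, coeff_mul_of_add_of_degree_le hx (key (p - 1)).2, (key (p - 1)).1]
  unfold form
  rw [coeff_add, coeff_add, coeff_sub, coeff_pow_char_smul, hmid, coeff_C_mul,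
    coeff_pow_char_smul, coeff_sum]
  have : ∑ e, coeff (p • s) (mc p e * (y e) ^ p) = 0 :=
    Finset.sum_eq_zero (fun e _ => coeff_mc_mul p e (y e) s)
  rw [this, add_zero]

open MonomialOrder in
lemma bound (a : F) (ha : ∀ t : F, t ^ p - t + a ≠ 0) (x G : MvPolynomial (Fin 2) F)
    (y : (Fin 2 → Fin p) → MvPolynomial (Fin 2) F) :
    G.totalDegree ≤ (form p a x G y).totalDegree := by
  by_cases hG0 : G = 0
  · subst hG0; simp
  -- the maximal exponent
  obtain ⟨s, hsx, hsG, hne⟩ : ∃ s : Fin 2 →₀ ℕ,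
      degLex.toSyn (degLex.degree x) ≤ degLex.toSyn s ∧
      degLex.toSyn (degLex.degree G) ≤ degLex.toSyn s ∧ (coeff s x ≠ 0 ∨ coeff s G ≠ 0) := by
    by_cases h : degLex.toSyn (degLex.degree x) ≤ degLex.toSyn (degLex.degree G)
    · exact ⟨degLex.degree G, h, le_refl _, Or.inr (coeff_degree_ne_zero_iff.mpr hG0)⟩
    · push Not at h
      refine ⟨degLex.degree x, le_refl _, h.le, Or.inl (coeff_degree_ne_zero_iff.mpr ?_)⟩
      rintro rfl
      rw [degree_zero, map_zero] at h
      exact absurd h (not_lt.mpr (degLex.zero_le _))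
  have h1 := coeff_form p a x G y s hsx hsG
  have h2 : coeff (p • s) (form p a x G y) ≠ 0 := by
    rw [h1]; exact norm_ne_zero p a ha _ _ hne
  have h3 : (p • s).degree ≤ (form p a x G y).totalDegree := by
    have := le_totalDegree (mem_support_iff.mpr h2)
    simpa [Finsupp.degree_eq_sum, Finsupp.sum_fintype] using this
  have h4 : s.degree ≤ (p • s).degree := by
    have hp1 : 1 ≤ p := hp.out.one_lt.le
    rw [map_nsmul]
    simpa using Nat.le_mul_of_pos_left s.degree (by omega : 0 < p)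
  have h5 : G.totalDegree ≤ s.degree := by
    rw [MvPolynomial.totalDegree]
    apply Finset.sup_le
    intro t ht
    have h6 : degLex.toSyn t ≤ degLex.toSyn s := le_trans (degLex.le_degree ht) hsG
    have h7 : t.degree ≤ s.degree := Finsupp.DegLex.monotone_degree h6
    simpa [Finsupp.degree_eq_sum, Finsupp.sum_fintype] using h7
  omega

end Basic

end Pool.Agent.Helper737.FF
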