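import Mathlib
import Pool.Agent.Helper737.Bound

set_option autoImplicit false

namespace Pool.Agent.Helper737.FF

open MvPolynomial

section Sub

variable {F : Type} [Field F] (p : ℕ) [hp : Fact p.Prime] [CharP F p]

/-- the additive part of the form -/
noncomputable def form0 (G x : MvPolynomial (Fin 2) F)
    (y : (Fin 2 → Fin p) → MvPolynomial (Fin 2) F) : MvPolynomial (Fin 2) F :=
  x ^ p - x * G ^ (p - 1) + ∑ e, mc p e * (y e) ^ p

lemma form_eq (a : F) (x G : MvPolynomial (Fin 2) F)
    (y : (Fin 2 → Fin p) → MvPolynomial (Fin 2) F) :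
    form p a x G y = form0 p G x y + C a * G ^ p := by
  unfold form form0; ring

lemma form0_add (G x x' : MvPolynomial (Fin 2) F)
    (y y' : (Fin 2 → Fin p) → MvPolynomial (Fin 2) F) :
    form0 p G (x + x') (y + y') = form0 p G x y + form0 p G x' y' := by
  unfold form0
  simp only [Pi.add_apply, add_pow_char, mul_add, Finset.sum_add_distrib]
  ring

/-- the subgroup of values of the additive part -/
noncomputable def HF (G : MvPolynomial (Fin 2) F) : AddSubgroup (MvPolynomial (Fin 2) F) :=
  (AddMonoidHom.mk'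
    (fun z : MvPolynomial (Fin 2) F × ((Fin 2 → Fin p) → MvPolynomial (Fin 2) F) =>
      form0 p G z.1 z.2) (fun a b => form0_add p G a.1 b.1 a.2 b.2)).range

lemma mem_HF {G r : MvPolynomial (Fin 2) F} :
    r ∈ HF p G ↔ ∃ x y, form0 p G x y = r := by
  unfold HF
  rw [AddMonoidHom.mem_range]
  constructor
  · rintro ⟨⟨x, y⟩, h⟩; exact ⟨x, y, h⟩
  · rintro ⟨x, y, h⟩; exact ⟨⟨x, y⟩, h⟩

lemma pow_sub_mem_HF (G t : MvPolynomial (Fin 2) F) : t ^ p - t * G ^ (p - 1) ∈ HF p G := by
  rw [mem_HF]
  refine ⟨t, 0, ?_⟩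
  unfold form0
  simp [zero_pow hp.out.ne_zero]

lemma exists_root [Finite F] (κ : F) : ∃ κ' : F, κ' ^ p = κ := by
  obtain ⟨κ', h⟩ := (bijective_frobenius F p).2 κ
  exact ⟨κ', h⟩

lemma monomial_mem_HF [Finite F] (G : MvPolynomial (Fin 2) F) (s : Fin 2 →₀ ℕ) (κ : F)
    (i : Fin 2) (hi : ¬ p ∣ s i) : monomial s κ ∈ HF p G := by
  classical
  rw [mem_HF]
  obtain ⟨κ', hκ⟩ := exists_root p κ
  let e : Fin 2 → Fin p := fun j => ⟨s j % p, Nat.mod_lt _ hp.out.pos⟩
  let s' : Fin 2 →₀ ℕ := Finsupp.equivFunOnFinite.symm (fun j => s j / p)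
  refine ⟨0, Pi.single e (monomial s' κ'), ?_⟩
  have h1 : form0 p G 0 (Pi.single e (monomial s' κ')) = mc p e * (monomial s' κ') ^ p := by
    unfold form0
    rw [Finset.sum_eq_single e]
    · simp [zero_pow hp.out.ne_zero]
    · intro b _ hb
      simp [Pi.single_eq_of_ne hb, zero_pow hp.out.ne_zero]
    · intro h; exact absurd (Finset.mem_univ e) h
  rw [h1, mc, if_neg]
  · rw [monomial_pow, monomial_mul, hκ, one_mul]
    have h2 : ex p e + p • s' = s := by
      ext j
      simp only [Finsupp.add_apply, ex_apply, Finsupp.smul_apply, smul_eq_mul]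
      exact Nat.mod_add_div (s j) p
    rw [h2]
  · push Not
    refine ⟨i, ?_⟩
    intro h
    exact hi (Nat.dvd_of_mod_eq_zero h)

lemma exists_smul_of_dvd (s : Fin 2 →₀ ℕ) (h : ∀ i, p ∣ s i) : ∃ s' : Fin 2 →₀ ℕ, s = p • s' := by
  refine ⟨Finsupp.equivFunOnFinite.symm (fun j => s j / p), ?_⟩
  ext j
  simp only [Finsupp.smul_apply, smul_eq_mul]
  exact (Nat.mul_div_cancel' (h j)).symm

lemma monomial_mem_H1 [Finite F] : ∀ (n : ℕ) (s : Fin 2 →₀ ℕ) (κ : F), s.degree = n → s ≠ 0 →
    monomial s κ ∈ HF p (1 : MvPolynomial (Fin 2) F) := by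
  intro n
  induction n using Nat.strong_induction_on with
  | _ n ih =>
    intro s κ hs hs0
    by_cases h : ∀ i, p ∣ s i
    · obtain ⟨s', rfl⟩ := exists_smul_of_dvd p s h
      obtain ⟨κ', hκ⟩ := exists_root p κ
      have hs'0 : s' ≠ 0 := by rintro rfl; simp at hs0
      have hpos : 0 < s'.degree := by
        rw [Nat.pos_iff_ne_zero]; intro h0; exact hs'0 ((Finsupp.degree_eq_zero_iff s').mp h0)
      have hlt : s'.degree < n := by
        rw [← hs, map_nsmul, smul_eq_mul]
        have := hp.out.one_lt
        nlinarith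
      have h1 : monomial (p • s') κ = ((monomial s' κ') ^ p - (monomial s' κ') * 1 ^ (p - 1))
          + monomial s' κ' := by
        rw [monomial_pow, hκ]; simp
      rw [h1]
      exact AddSubgroup.add_mem _ (pow_sub_mem_HF p 1 _) (ih _ hlt s' κ' rfl hs'0)
    · push Not at h
      obtain ⟨i, hi⟩ := h
      exact monomial_mem_HF p 1 s κ i hi

lemma mem_H1 [Finite F] (r : MvPolynomial (Fin 2) F) (hr : coeff 0 r = 0) :
    r ∈ HF p (1 : MvPolynomial (Fin 2) F) := by
  rw [r.as_sum]
  apply AddSubgroup.sum_mem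
  intro s hs
  apply monomial_mem_H1 p _ s _ rfl
  rintro rfl
  exact (mem_support_iff.mp hs) hr

lemma mul_mem_HF (G r : MvPolynomial (Fin 2) F) (hr : r ∈ HF p (1 : MvPolynomial (Fin 2) F)) :
    G ^ p * r ∈ HF p G := by
  rw [mem_HF] at hr ⊢
  obtain ⟨x, y, rfl⟩ := hr
  refine ⟨G * x, fun e => G * y e, ?_⟩
  unfold form0
  have h1 : G ^ p = G * G ^ (p - 1) := by
    rw [← pow_succ']; congr 1; have := hp.out.one_lt; omega
  have h2 : ∑ e, mc p e * (G * y e) ^ p = G ^ p * ∑ e, mc p e * (y e) ^ p := by
    rw [Finset.mul_sum]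
    apply Finset.sum_congr rfl
    intro e _
    rw [mul_pow]; ring
  rw [h2, mul_pow, one_pow, mul_one, mul_add, mul_sub]
  rw [show G * x * G ^ (p - 1) = (G * G ^ (p - 1)) * x by ring, ← h1]

lemma finite_totalDegree [Finite F] (n : ℕ) :
    {v : MvPolynomial (Fin 2) F | v.totalDegree ≤ n}.Finite := by
  classical
  let B : Fin 2 →₀ ℕ := Finsupp.equivFunOnFinite.symm (fun _ => n)
  have hB : (Set.Iic B).Finite := Set.finite_Iic B
  haveI : Finite (Set.Iic B) := hB
  haveI : Finite ((Set.Iic B) → F) := inferInstance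
  apply Set.Finite.of_finite_image (f := fun v => (fun s : Set.Iic B => coeff (s : Fin 2 →₀ ℕ) v))
  · exact Set.toFinite _
  · intro v hv w hw hvw
    ext s
    by_cases hs : s ∈ Set.Iic B
    · exact congrFun hvw ⟨s, hs⟩
    · have : n < s.degree := by
        by_contra hcon
        apply hs
        intro i
        have h1 : s i ≤ s.degree := Finsupp.le_degree i s
        simp only [B, Finsupp.equivFunOnFinite_symm_apply_apply]
        omega
      have h2 : ∀ u : MvPolynomial (Fin 2) F, u.totalDegree ≤ n → coeff s u = 0 := by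
        intro u hu
        apply coeff_eq_zero_of_totalDegree_lt
        have h3 : s.degree = ∑ i ∈ s.support, s i := rfl
        omega
      rw [h2 v hv, h2 w hw]

lemma reduce_HF [Finite F] (G : MvPolynomial (Fin 2) F) : ∀ (n : ℕ) (r : MvPolynomial (Fin 2) F),
    r.totalDegree ≤ n → ∃ v : MvPolynomial (Fin 2) F, v.totalDegree ≤ p * G.totalDegree ∧
      r - v ∈ HF p G := by
  intro n
  induction n using Nat.strong_induction_on with
  | _ n ih =>
    -- first the monomials
    have hmon : ∀ (s : Fin 2 →₀ ℕ) (κ : F), s.degree ≤ n → ∃ v : MvPolynomial (Fin 2) F,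
        v.totalDegree ≤ p * G.totalDegree ∧ monomial s κ - v ∈ HF p G := by
      intro s κ hs
      by_cases hle : s.degree ≤ p * G.totalDegree
      · refine ⟨monomial s κ, ?_, by simp⟩
        refine le_trans (totalDegree_monomial_le s κ) ?_
        exact hle
      · by_cases h : ∀ i, p ∣ s i
        · obtain ⟨s', rfl⟩ := exists_smul_of_dvd p s h
          obtain ⟨κ', hκ⟩ := exists_root p κ
          rw [map_nsmul, smul_eq_mul] at hle hs
          have hp2 := hp.out.two_le
          have hlt : G.totalDegree < s'.degree := by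
            by_contra hcon
            push Not at hcon
            exact hle (Nat.mul_le_mul_left p hcon)
          set t : MvPolynomial (Fin 2) F := monomial s' κ' with ht
          have htd : t.totalDegree ≤ s'.degree := totalDegree_monomial_le s' κ'
          have hdeg : (t * G ^ (p - 1)).totalDegree < n := by
            have h1 : (t * G ^ (p - 1)).totalDegree ≤ s'.degree + (p - 1) * G.totalDegree := by
              refine le_trans (totalDegree_mul _ _) ?_
              exact add_le_add htd (totalDegree_pow _ _)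
            have h2 : s'.degree + (p - 1) * G.totalDegree < p * s'.degree := by
              have h3 : (p - 1) * G.totalDegree < (p - 1) * s'.degree :=
                Nat.mul_lt_mul_of_pos_left hlt (by omega)
              have h4 : p * s'.degree = s'.degree + (p - 1) * s'.degree := by
                conv_lhs => rw [show p = 1 + (p - 1) by omega]
                ring
              omega
            omega
          obtain ⟨v, hv, hvm⟩ := ih _ hdeg (t * G ^ (p - 1)) le_rfl
          refine ⟨v, hv, ?_⟩
          have h5 : monomial (p • s') κ - v = (t ^ p - t * G ^ (p - 1)) + (t * G ^ (p - 1) - v) := by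
            rw [ht, monomial_pow, hκ]; ring
          rw [h5]
          exact AddSubgroup.add_mem _ (pow_sub_mem_HF p G t) hvm
        · push Not at h
          obtain ⟨i, hi⟩ := h
          exact ⟨0, by simp, by simpa using monomial_mem_HF p G s κ i hi⟩
    intro r hr
    choose! v hv hvm using hmon
    refine ⟨∑ s ∈ r.support, v s (coeff s r), ?_, ?_⟩
    · apply totalDegree_finsetSum_le
      intro s hs
      apply hv
      exact le_trans (le_totalDegree hs) hr
    · have : r - ∑ s ∈ r.support, v s (coeff s r)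
          = ∑ s ∈ r.support, (monomial s (coeff s r) - v s (coeff s r)) := by
        rw [Finset.sum_sub_distrib, ← r.as_sum]
      rw [this]
      apply AddSubgroup.sum_mem
      intro s hs
      apply hvm
      exact le_trans (le_totalDegree hs) hr

lemma finiteIndex_HF [Finite F] (G : MvPolynomial (Fin 2) F) : (HF p G).FiniteIndex := by
  have hfin := finite_totalDegree (F := F) (p * G.totalDegree)
  haveI : Finite {v : MvPolynomial (Fin 2) F | v.totalDegree ≤ p * G.totalDegree} := hfin
  haveI : Finite (MvPolynomial (Fin 2) F ⧸ HF p G) := by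
    apply Finite.of_surjective
      (fun v : {v : MvPolynomial (Fin 2) F | v.totalDegree ≤ p * G.totalDegree} =>
        (QuotientAddGroup.mk (v : MvPolynomial (Fin 2) F) : MvPolynomial (Fin 2) F ⧸ HF p G))
    intro q
    obtain ⟨r, rfl⟩ := QuotientAddGroup.mk_surjective q
    obtain ⟨v, hv, hvm⟩ := reduce_HF p G r.totalDegree r le_rfl
    refine ⟨⟨v, hv⟩, ?_⟩
    rw [QuotientAddGroup.eq]
    rwa [neg_add_eq_sub]
  exact AddSubgroup.finiteIndex_of_finite_quotient

end Sub

end Pool.Agent.Helper737.FF
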