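import Mathlib
import Pool.Agent.Helper737.Sub

set_option autoImplicit false

namespace Pool.Agent.Helper737.FF

open MvPolynomial

section Core

variable {F : Type} [Field F]

/-- polynomials in the first variable -/
noncomputable def iW : Polynomial F →ₐ[F] MvPolynomial (Fin 2) F := Polynomial.aeval (X 0)

/-- polynomials in the second variable -/
noncomputable def iZ : Polynomial F →ₐ[F] MvPolynomial (Fin 2) F := Polynomial.aeval (X 1)

lemma constantCoeff_iW (c : Polynomial F) : constantCoeff (iW c) = c.eval 0 := by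
  have h : (constantCoeff (R := F) (σ := Fin 2)).comp (iW (F := F)).toRingHom
      = Polynomial.evalRingHom 0 := by
    apply Polynomial.ringHom_ext
    · intro a; simp [iW]
    · simp [iW]
  exact congrArg (fun φ => φ c) h

lemma constantCoeff_iZ (c : Polynomial F) : constantCoeff (iZ c) = c.eval 0 := by
  have h : (constantCoeff (R := F) (σ := Fin 2)).comp (iZ (F := F)).toRingHom
      = Polynomial.evalRingHom 0 := by
    apply Polynomial.ringHom_ext
    · intro a; simp [iZ]
    · simp [iZ]
  exact congrArg (fun φ => φ c) h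

lemma monomial_split (s : Fin 2 →₀ ℕ) (κ : F) :
    monomial s κ = iZ (Polynomial.monomial (s 1) κ) * (X 0) ^ (s 0) := by
  simp only [iZ, Polynomial.aeval_monomial]
  rw [monomial_eq, Finsupp.prod_fintype _ _ (by intro i; simp), Fin.prod_univ_two]
  simp [algebraMap_eq]
  ring

lemma core [Finite F] (L : AddSubgroup (MvPolynomial (Fin 2) F)) (G f : MvPolynomial (Fin 2) F) (N : ℕ)
    (hG : G = X 0 ^ N + 1 + X 0 * f) (hN : f.degreeOf 0 + 1 < N)
    (hL : ∀ r : MvPolynomial (Fin 2) F, constantCoeff r = 0 → G * r ∈ L) (κ : F)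
    (hκ : C κ * G ∉ L) (U : AddSubgroup (Polynomial F))
    (hU : ∀ c, c ∈ U ↔ ∀ b, iZ b * iW c ∈ L) (hfin : U.FiniteIndex) :
    ∃ m : ℕ, 0 < m ∧ ∀ M : ℕ, m ∣ M → M ≠ 0 → (Polynomial.X ^ M - 1 : Polynomial F) ∉ U := by
  classical
  have hGc : constantCoeff G = 1 := by
    rw [hG]; simp; omega
  -- the auxiliary subgroup
  let φ : MvPolynomial (Fin 2) F →+ MvPolynomial (Fin 2) F :=
    AddMonoidHom.mk' (fun r => r - G * C (constantCoeff r)) (by
      intro a b; simp only [map_add]; ring)
  let L2 : AddSubgroup (MvPolynomial (Fin 2) F) := L.comap φ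
  have hL2 : ∀ r, r ∈ L2 ↔ r - G * C (constantCoeff r) ∈ L := fun r => Iff.rfl
  have hGL2 : ∀ r, G * r ∈ L2 := by
    intro r
    rw [hL2]
    have h1 : G * r - G * C (constantCoeff (G * r)) = G * (r - C (constantCoeff r)) := by
      rw [map_mul, hGc, one_mul]; ring
    rw [h1]
    apply hL
    simp
  let ψ : Polynomial F → (Polynomial F →+ MvPolynomial (Fin 2) F) := fun b =>
    AddMonoidHom.mk' (fun c => iZ b * iW c) (by intro a b'; simp only [map_add]; ring)
  let U2 : AddSubgroup (Polynomial F) := ⨅ b, L2.comap (ψ b)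
  have hU2 : ∀ c, c ∈ U2 ↔ ∀ b, iZ b * iW c ∈ L2 := by
    intro c
    simp only [U2, AddSubgroup.mem_iInf, AddSubgroup.mem_comap]
    rfl
  let K0 : AddSubgroup (Polynomial F) := (Polynomial.evalRingHom (0 : F)).toAddMonoidHom.ker
  have hK0 : K0.FiniteIndex := by
    infer_instance
  have hU2fin : U2.FiniteIndex := by
    have h1 : (U ⊓ K0).FiniteIndex := inferInstance
    apply AddSubgroup.finiteIndex_of_le (H := U ⊓ K0)
    intro c hc
    rw [hU2]
    intro b
    obtain ⟨hc1, hc2⟩ := AddSubgroup.mem_inf.mp hc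
    have hc3 : c.eval 0 = 0 := hc2
    rw [hL2, map_mul, constantCoeff_iW, constantCoeff_iZ, hc3]
    simpa using (hU c).mp hc1 b
  -- pigeonhole
  haveI : Finite (Polynomial F ⧸ U2) := AddSubgroup.finite_quotient_of_finiteIndex
  obtain ⟨n, n', hnn, hpig⟩ := Finite.exists_ne_map_eq_of_infinite
    (fun n : ℕ => (fun k : Fin N => (QuotientAddGroup.mk (Polynomial.X ^ (n + (k : ℕ))) :
      Polynomial F ⧸ U2)))
  wlog hlt : n < n' generalizing n n'
  · exact this n' n hnn.symm hpig.symm (by omega)
  have hbase : ∀ k, k < N → ∀ b : Polynomial F,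
      (X 0 ^ n - X 0 ^ n' : MvPolynomial (Fin 2) F) * (iZ b * X 0 ^ k) ∈ L2 := by
    intro k hk b
    have h1 := congrFun hpig ⟨k, hk⟩
    simp only at h1
    rw [QuotientAddGroup.eq] at h1
    have h2 := (hU2 _).mp h1 b
    have h3 : (X 0 ^ n - X 0 ^ n' : MvPolynomial (Fin 2) F) * (iZ b * X 0 ^ k)
        = - (iZ b * iW (-Polynomial.X ^ (n + k) + Polynomial.X ^ (n' + k))) := by
      simp [iW, pow_add]; ring
    rw [h3]
    exact AddSubgroup.neg_mem _ h2
  have hQ : ∀ (j : ℕ) (r : MvPolynomial (Fin 2) F), (∀ s ∈ r.support, s 0 ≤ j) →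
      (X 0 ^ n - X 0 ^ n' : MvPolynomial (Fin 2) F) * r ∈ L2 := by
    intro j
    induction j using Nat.strong_induction_on with
    | _ j ih =>
      intro r hr
      rw [r.as_sum, Finset.mul_sum]
      apply AddSubgroup.sum_mem
      intro s hs
      set κ' := coeff s r
      by_cases hsN : s 0 < N
      · rw [monomial_split]
        exact hbase _ hsN _
      · push Not at hsN
        have hsj := hr s hs
        -- monomial s = monomial (s - N e0) * W ^ N
        set t : Fin 2 →₀ ℕ := s - Finsupp.single 0 N with ht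
        have hst : t + Finsupp.single 0 N = s := by
          apply tsub_add_cancel_of_le
          intro i
          fin_cases i
          · simpa using hsN
          · simp
        have h1 : (monomial s κ' : MvPolynomial (Fin 2) F) = monomial t κ' * X 0 ^ N := by
          rw [X_pow_eq_monomial, monomial_mul, mul_one, hst]
        have h2 : (monomial s κ' : MvPolynomial (Fin 2) F)
            = G * monomial t κ' - monomial t κ' * (1 + X 0 * f) := by
          rw [h1, hG]; ring
        rw [h2, mul_sub]
        apply AddSubgroup.sub_mem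
        · rw [mul_left_comm]; exact hGL2 _
        · have ht0 : t 0 = s 0 - N := by simp [ht]
          by_cases hj0 : j = 0
          · omega
          apply ih (j - 1) (by omega)
          intro u hu
          have h3 : degreeOf 0 (monomial t κ' * (1 + X 0 * f)) ≤ j - 1 := by
            refine le_trans (degreeOf_mul_le _ _ _) ?_
            have h4 : degreeOf 0 (monomial t κ') ≤ t 0 := by
              rw [degreeOf_le_iff]
              intro m hm
              have := support_monomial_subset hm
              rw [Finset.mem_singleton] at this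
              rw [this]
            have h5 : degreeOf 0 (1 + X 0 * f) ≤ 1 + degreeOf 0 f := by
              refine le_trans (degreeOf_add_le _ _ _) ?_
              apply max_le
              · simp [degreeOf_one]
              · refine le_trans (degreeOf_mul_le _ _ _) ?_
                have : degreeOf (0 : Fin 2) (X 0 : MvPolynomial (Fin 2) F) ≤ 1 := by
                  rw [degreeOf_X]; simp
                omega
            omega
          exact le_trans (monomial_le_degreeOf 0 hu) h3
  have hQ' : ∀ r : MvPolynomial (Fin 2) F, (X 0 ^ n - X 0 ^ n' : MvPolynomial (Fin 2) F) * r ∈ L2 := by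
    intro r
    apply hQ (degreeOf 0 r)
    intro s hs
    exact monomial_le_degreeOf 0 hs
  refine ⟨n' - n, by omega, ?_⟩
  intro M hM hM0 hcon
  obtain ⟨t, rfl⟩ := hM
  have h1 : C κ * (X 0 ^ ((n' - n) * t) - 1) ∈ L := by
    have := (hU _).mp hcon (Polynomial.C κ)
    simpa [iZ, iW, algebraMap_eq] using this
  have h2 : ∀ r : MvPolynomial (Fin 2) F,
      (X 0 ^ n * (X 0 ^ ((n' - n) * t) - 1) : MvPolynomial (Fin 2) F) * r ∈ L2 := by
    intro r
    have h3 : (X 0 ^ (n' - n) - 1 : MvPolynomial (Fin 2) F) ∣ (X 0 ^ ((n' - n) * t) - 1) := by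
      have := sub_dvd_pow_sub_pow (X 0 ^ (n' - n) : MvPolynomial (Fin 2) F) 1 t
      rwa [one_pow, ← pow_mul] at this
    obtain ⟨T, hT⟩ := h3
    have h4 : (X 0 ^ n * (X 0 ^ ((n' - n) * t) - 1) : MvPolynomial (Fin 2) F) * r
        = - ((X 0 ^ n - X 0 ^ n') * (T * r)) := by
      rw [hT]
      have : (X 0 ^ n' : MvPolynomial (Fin 2) F) = X 0 ^ n * X 0 ^ (n' - n) := by
        rw [← pow_add]; congr 1; omega
      rw [this]; ring
    rw [h4]
    exact AddSubgroup.neg_mem _ (hQ' _)
  set A : MvPolynomial (Fin 2) F := X 0 ^ ((n' - n) * t) - 1 with hA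
  obtain ⟨N', rfl⟩ : ∃ N', N = N' + 1 := ⟨N - 1, by omega⟩
  set G1 : MvPolynomial (Fin 2) F := f + X 0 ^ N' with hG1
  have h5 : G = 1 + X 0 * G1 := by rw [hG, hG1]; ring
  have h6 : C κ * A ∈ L2 := by
    have h7 : G ∣ (G - X 0 * G1) ^ n - (- (X 0 * G1)) ^ n := by
      have := sub_dvd_pow_sub_pow (G - X 0 * G1) (- (X 0 * G1)) n
      simpa using this
    obtain ⟨T, hT⟩ := h7
    have h8 : (G - X 0 * G1) ^ n = 1 := by rw [h5]; simp
    rw [h8] at hT
    have h9 : C κ * A = (X 0 ^ n * A) * (C κ * (- G1) ^ n) + G * (C κ * A * T) := by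
      have : (1 : MvPolynomial (Fin 2) F) = (- (X 0 * G1)) ^ n + G * T := by rw [← hT]; ring
      calc C κ * A = C κ * A * 1 := by ring
        _ = C κ * A * ((- (X 0 * G1)) ^ n + G * T) := by rw [← this]
        _ = _ := by
          rw [show (- (X 0 * G1)) = X 0 * (- G1) by ring, mul_pow]; ring
    rw [h9]
    exact AddSubgroup.add_mem _ (h2 _) (hGL2 _)
  rw [hL2] at h6
  have h10 : constantCoeff (C κ * A) = - κ := by
    rw [map_mul, hA, map_sub, map_pow, constantCoeff_X, zero_pow hM0, constantCoeff_C, map_one]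
    ring
  rw [h10] at h6
  apply hκ
  have h11 : C κ * G = (C κ * A - G * C (-κ)) - C κ * A := by
    rw [C_neg]; ring
  rw [h11]
  exact AddSubgroup.sub_mem _ h6 h1

end Core

end Pool.Agent.Helper737.FF
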