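import Mathlib
import Pool.Agent.Helper737.Exist

set_option autoImplicit false

namespace Pool.Agent.Helper737.FF

open MvPolynomial
open scoped Pointwise

section Neumann

variable {F : Type} [Field F] (p : ℕ) [hp : Fact p.Prime] [CharP F p]

lemma finite_above {A : Type} [AddCommGroup A] (H : AddSubgroup A) [hH : H.FiniteIndex] :
    {L : AddSubgroup A | H ≤ L}.Finite := by
  haveI : Finite (A ⧸ H) := AddSubgroup.finite_quotient_of_finiteIndex
  haveI : Finite (AddSubgroup (A ⧸ H)) := inferInstance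
  apply Set.Finite.of_finite_image (f := fun L : AddSubgroup A => L.map (QuotientAddGroup.mk' H))
    (Set.toFinite _)
  intro L hL L' hL' h
  simp only at h
  have h1 := congrArg (AddSubgroup.comap (QuotientAddGroup.mk' H)) h
  rwa [AddSubgroup.comap_map_eq, AddSubgroup.comap_map_eq, QuotientAddGroup.ker_mk',
    sup_eq_left.mpr hL, sup_eq_left.mpr hL'] at h1

lemma exists_bc [Finite F] (G f : MvPolynomial (Fin 2) F) (N : ℕ)
    (hG : G = X 0 ^ N + 1 + X 0 * f) (hN : f.degreeOf 0 + 1 < N) (κ : F) :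
    ∃ b c : Polynomial F, c ≠ 0 ∧ (iZ b * iW c) ^ p - C (κ ^ p) * G ^ p ∈ HF p G := by
  classical
  by_contra hcon
  push Not at hcon
  -- the target
  set τ : MvPolynomial (Fin 2) F := C (κ ^ p) * G ^ p with hτ
  haveI hHF := finiteIndex_HF p G
  have hfin : {L : AddSubgroup (MvPolynomial (Fin 2) F) | HF p G ≤ L ∧ τ ∉ L}.Finite :=
    (finite_above (HF p G)).subset (fun L hL => hL.1)
  -- the subgroups U_L
  let ψ : Polynomial F → (Polynomial F →+ MvPolynomial (Fin 2) F) := fun b =>
    AddMonoidHom.mk' (fun c => (iZ b * iW c) ^ p) (by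
      intro a b'; simp only [map_add, mul_add, add_pow_char])
  let U : AddSubgroup (MvPolynomial (Fin 2) F) → AddSubgroup (Polynomial F) := fun L =>
    ⨅ b, L.comap (ψ b)
  have hU : ∀ L c, c ∈ U L ↔ ∀ b, (iZ b * iW c) ^ p ∈ L := by
    intro L c
    simp only [U, AddSubgroup.mem_iInf, AddSubgroup.mem_comap]
    rfl
  have hcover : ⋃ L ∈ hfin.toFinset, (0 : Polynomial F) +ᵥ (U L : Set (Polynomial F)) = Set.univ := by
    rw [Set.eq_univ_iff_forall]
    intro c
    simp only [zero_vadd, Set.mem_iUnion]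
    let χ : Polynomial F →+ MvPolynomial (Fin 2) F :=
      AddMonoidHom.mk' (fun b => (iZ b * iW c) ^ p) (by
        intro a b'; simp only [map_add, add_mul, add_pow_char])
    refine ⟨HF p G ⊔ χ.range, ?_, ?_⟩
    · rw [Set.Finite.mem_toFinset]
      refine ⟨le_sup_left, ?_⟩
      intro hmem
      rw [AddSubgroup.mem_sup] at hmem
      obtain ⟨h, hh, w, hw, hsum⟩ := hmem
      obtain ⟨b, rfl⟩ := hw
      have h1 : (iZ b * iW c) ^ p - τ ∈ HF p G := by
        have : (iZ b * iW c) ^ p - τ = - h := by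
          rw [← hsum]; simp [χ]
        rw [this]; exact AddSubgroup.neg_mem _ hh
      by_cases hc : c = 0
      · subst hc
        apply hcon 0 1 one_ne_zero
        simpa using h1
      · exact hcon b c hc h1
    · rw [SetLike.mem_coe, hU]
      intro b
      apply (le_sup_right : χ.range ≤ HF p G ⊔ χ.range)
      exact ⟨b, rfl⟩
  have hcover2 := AddSubgroup.leftCoset_cover_filter_FiniteIndex hcover
  -- the core lemma for each L
  have hcore : ∀ L ∈ hfin.toFinset.filter (fun L => (U L).FiniteIndex),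
      ∃ m : ℕ, 0 < m ∧ ∀ M : ℕ, m ∣ M → M ≠ 0 → (Polynomial.X ^ M - 1 : Polynomial F) ∉ U L := by
    intro L hL
    rw [Finset.mem_filter, Set.Finite.mem_toFinset] at hL
    obtain ⟨⟨hL1, hL2⟩, hL3⟩ := hL
    let fr : MvPolynomial (Fin 2) F →+ MvPolynomial (Fin 2) F :=
      AddMonoidHom.mk' (fun r => r ^ p) (by intro a b; exact add_pow_char _ _ _)
    apply core (L.comap fr) G f N hG hN ?_ κ ?_ (U L) ?_ hL3
    · intro r hr
      change (G * r) ^ p ∈ L
      apply hL1
      rw [mul_pow]
      apply mul_mem_HF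
      apply mem_H1
      have : constantCoeff (r ^ p) = 0 := by rw [map_pow, hr, zero_pow hp.out.ne_zero]
      exact this
    · intro hmem
      apply hL2
      have : (C κ * G) ^ p ∈ L := hmem
      rwa [mul_pow, ← C_pow] at this
    · intro c
      rw [hU]
      rfl
  choose! m hm1 hm2 using hcore
  set S := hfin.toFinset.filter (fun L => (U L).FiniteIndex) with hS
  set M := ∏ L ∈ S, m L with hM
  have hM0 : M ≠ 0 := by
    rw [hM, Finset.prod_ne_zero_iff]
    intro L hL
    exact (hm1 L hL).ne'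
  have hmem : (Polynomial.X ^ M - 1 : Polynomial F) ∈
      ⋃ L ∈ S, (0 : Polynomial F) +ᵥ (U L : Set (Polynomial F)) := by
    rw [hcover2]; exact Set.mem_univ _
  simp only [zero_vadd, Set.mem_iUnion] at hmem
  obtain ⟨L, hL, hmemL⟩ := hmem
  exact hm2 L hL M (Finset.dvd_prod_of_mem m hL) hM0 hmemL

end Neumann

end Pool.Agent.Helper737.FF
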