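import Mathlib
import Pool.Agent.Helper737.Exist2

set_option autoImplicit false

namespace Pool.Agent.Helper737.FF

open MvPolynomial

section Pell

variable {F : Type} [Field F]

/-- two-step polynomial presentation with the second variable outermost -/
noncomputable def toPP : MvPolynomial (Fin 2) F →+* Polynomial (Polynomial F) :=
  eval₂Hom (Polynomial.C.comp Polynomial.C) ![Polynomial.C Polynomial.X, Polynomial.X]

/-- the inverse presentation -/
noncomputable def ofPP : Polynomial (Polynomial F) →+* MvPolynomial (Fin 2) F :=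
  Polynomial.eval₂RingHom (iW (F := F)).toRingHom (X 1)

lemma ofPP_toPP (r : MvPolynomial (Fin 2) F) : ofPP (toPP r) = r := by
  have h : (ofPP (F := F)).comp toPP = RingHom.id _ := by
    apply MvPolynomial.ringHom_ext
    · intro a; simp [ofPP, toPP, iW, algebraMap_eq]
    · intro i
      fin_cases i <;> simp [ofPP, toPP, iW]
  exact congrArg (fun φ => φ r) h

lemma toPP_iW (c : Polynomial F) : toPP (iW c) = Polynomial.C c := by
  have h : (toPP (F := F)).comp (iW (F := F)).toRingHom = Polynomial.C := by
    apply Polynomial.ringHom_ext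
    · intro a; simp [toPP, iW, algebraMap_eq]
    · simp [toPP, iW]
  exact congrArg (fun φ => φ c) h

lemma exists_iW_of_natDegree (r : MvPolynomial (Fin 2) F) (h : (toPP r).natDegree = 0) :
    ∃ c, r = iW c := by
  obtain ⟨c, hc⟩ := Polynomial.natDegree_eq_zero.mp h
  refine ⟨c, ?_⟩
  rw [← ofPP_toPP r, ← hc]
  simp [ofPP]

lemma iW_injective : Function.Injective (iW (F := F)) := by
  intro a b h
  have := congrArg toPP h
  rw [toPP_iW, toPP_iW] at this
  exact Polynomial.C_injective this

lemma aniso : ∀ (n : ℕ) (u v : Polynomial F), u.natDegree + v.natDegree ≤ n →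
    u ^ 2 + Polynomial.X * u * v + Polynomial.X * v ^ 2 = 0 → u = 0 ∧ v = 0 := by
  intro n
  induction n using Nat.strong_induction_on with
  | _ n ih =>
    intro u v hn h
    have hX : (Polynomial.X : Polynomial F) ≠ 0 := Polynomial.X_ne_zero
    have h1 : (Polynomial.X : Polynomial F) ∣ u := by
      apply Polynomial.prime_X.dvd_of_dvd_pow (n := 2)
      refine ⟨-(u * v + v ^ 2), ?_⟩
      linear_combination h
    obtain ⟨u', rfl⟩ := h1
    have h2 : Polynomial.X * u' ^ 2 + Polynomial.X * u' * v + v ^ 2 = 0 := by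
      apply mul_left_cancel₀ hX
      linear_combination h
    have h3 : (Polynomial.X : Polynomial F) ∣ v := by
      apply Polynomial.prime_X.dvd_of_dvd_pow (n := 2)
      refine ⟨-(u' ^ 2 + u' * v), ?_⟩
      linear_combination h2
    obtain ⟨v', rfl⟩ := h3
    have h4 : u' ^ 2 + Polynomial.X * u' * v' + Polynomial.X * v' ^ 2 = 0 := by
      apply mul_left_cancel₀ hX
      linear_combination h2
    by_cases hu : u' = 0
    · subst hu
      have : v' = 0 := by simpa using h4
      simp [this]
    · exfalso
      have h5 : (Polynomial.X * u').natDegree = u'.natDegree + 1 := by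
        rw [Polynomial.natDegree_X_mul hu]
      have h6 : v'.natDegree ≤ (Polynomial.X * v').natDegree := by
        by_cases hv : v' = 0
        · simp [hv]
        · rw [Polynomial.natDegree_X_mul hv]; omega
      exact hu (ih (u'.natDegree + v'.natDegree) (by omega) u' v' le_rfl h4).1

lemma pell_natDegree (x y : Polynomial (Polynomial F))
    (h : x ^ 2 + Polynomial.C Polynomial.X * x * y + Polynomial.C Polynomial.X * y ^ 2 = 1) :
    x.natDegree = 0 ∧ y.natDegree = 0 := by
  set m := max x.natDegree y.natDegree with hm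
  by_cases h0 : m = 0
  · constructor
    · have := le_max_left x.natDegree y.natDegree; omega
    · have := le_max_right x.natDegree y.natDegree; omega
  · exfalso
    have hx : x.natDegree ≤ m := le_max_left _ _
    have hy : y.natDegree ≤ m := le_max_right _ _
    have h1 : (x * x).coeff (m + m) = x.coeff m * x.coeff m :=
      Polynomial.coeff_mul_add_eq_of_natDegree_le hx hx
    have h2 : (x * y).coeff (m + m) = x.coeff m * y.coeff m :=
      Polynomial.coeff_mul_add_eq_of_natDegree_le hx hy
    have h3 : (y * y).coeff (m + m) = y.coeff m * y.coeff m :=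
      Polynomial.coeff_mul_add_eq_of_natDegree_le hy hy
    have h4 : (x * x + Polynomial.C Polynomial.X * (x * y) + Polynomial.C Polynomial.X * (y * y)).coeff
        (m + m) = 0 := by
      have : x * x + Polynomial.C Polynomial.X * (x * y) + Polynomial.C Polynomial.X * (y * y) = 1 := by
        rw [← h]; ring
      rw [this, Polynomial.coeff_one, if_neg (by omega)]
    rw [Polynomial.coeff_add, Polynomial.coeff_add, Polynomial.coeff_C_mul, Polynomial.coeff_C_mul,
      h1, h2, h3] at h4
    have h5 := aniso _ (x.coeff m) (y.coeff m) le_rfl (by linear_combination h4)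
    rcases max_choice x.natDegree y.natDegree with hc | hc
    · have h6 : x ≠ 0 := by
        intro hx0
        apply h0
        rw [hm, hc, hx0, Polynomial.natDegree_zero]
      have : x.coeff x.natDegree ≠ 0 := by
        rw [Polynomial.coeff_natDegree]; exact Polynomial.leadingCoeff_ne_zero.mpr h6
      apply this
      rw [← hc, ← hm]; exact h5.1
    · have h6 : y ≠ 0 := by
        intro hy0
        apply h0
        rw [hm, hc, hy0, Polynomial.natDegree_zero]
      have : y.coeff y.natDegree ≠ 0 := by
        rw [Polynomial.coeff_natDegree]; exact Polynomial.leadingCoeff_ne_zero.mpr h6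
      apply this
      rw [← hc, ← hm]; exact h5.2

lemma pell_mem (x y : MvPolynomial (Fin 2) F)
    (h : x ^ 2 + X 0 * x * y + X 0 * y ^ 2 = 1) : ∃ c, y = iW c := by
  apply exists_iW_of_natDegree
  refine (pell_natDegree (toPP x) (toPP y) ?_).2
  have h1 := congrArg toPP h
  have h2 : toPP (X 0 : MvPolynomial (Fin 2) F) = Polynomial.C Polynomial.X := by simp [toPP]
  simpa only [map_add, map_mul, map_pow, map_one, h2] using h1

/-- the Pell sequence -/
noncomputable def ps (F : Type) [Field F] : ℕ → Polynomial F × Polynomial F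
  | 0 => (1, 0)
  | n + 1 => ((1 - Polynomial.X) * (ps F n).1 - Polynomial.X * (ps F n).2, (ps F n).1 + (ps F n).2)

lemma ps_norm (n : ℕ) : (ps F n).1 ^ 2 + Polynomial.X * (ps F n).1 * (ps F n).2
    + Polynomial.X * (ps F n).2 ^ 2 = 1 := by
  induction n with
  | zero => simp [ps]
  | succ n ih =>
    rw [← ih]
    simp only [ps]
    ring

lemma ps_coeff (n : ℕ) : (∀ j, n < j → (ps F n).1.coeff j = 0) ∧ (ps F n).1.coeff n = (-1) ^ n ∧
    (∀ j, n ≤ j → (ps F n).2.coeff j = 0) := by
  induction n with
  | zero =>
    refine ⟨?_, by simp [ps], by simp [ps]⟩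
    intro j hj
    simp only [ps]
    rw [Polynomial.coeff_one, if_neg (by omega)]
  | succ n ih =>
    obtain ⟨h1, h2, h3⟩ := ih
    have hc : ∀ j, (ps F (n + 1)).1.coeff (j + 1) =
        (ps F n).1.coeff (j + 1) - (ps F n).1.coeff j - (ps F n).2.coeff j := by
      intro j
      simp only [ps]
      rw [sub_mul, one_mul, Polynomial.coeff_sub, Polynomial.coeff_sub, Polynomial.coeff_X_mul,
        Polynomial.coeff_X_mul]
    refine ⟨?_, ?_, ?_⟩
    · intro j hj
      obtain ⟨j', rfl⟩ : ∃ j', j = j' + 1 := ⟨j - 1, by omega⟩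
      rw [hc, h1 _ (by omega), h1 _ (by omega), h3 _ (by omega)]
      ring
    · rw [hc, h1 _ (by omega), h2, h3 _ le_rfl]
      ring
    · intro j hj
      simp only [ps, Polynomial.coeff_add]
      rw [h1 _ (by omega), h3 _ (by omega), add_zero]

lemma ps_ne_zero (n : ℕ) (hn : 0 < n) : (ps F n).2 ≠ 0 := by
  obtain ⟨m, rfl⟩ : ∃ m, n = m + 1 := ⟨n - 1, by omega⟩
  intro h
  have h1 : (ps F (m + 1)).2.coeff m = (-1) ^ m := by
    simp only [ps, Polynomial.coeff_add]
    rw [(ps_coeff m).2.1, (ps_coeff m).2.2 m le_rfl, add_zero]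
  rw [h, Polynomial.coeff_zero] at h1
  exact pow_ne_zero m (neg_ne_zero.mpr one_ne_zero) h1.symm

lemma exists_pell [Finite F] (c : Polynomial F) (hc : c ≠ 0) : ∃ x y : Polynomial F,
    x ^ 2 + Polynomial.X * x * y + Polynomial.X * y ^ 2 = 1 ∧ c ∣ y ∧ y ≠ 0 := by
  classical
  have hfinite : Finite (AdjoinRoot c) := by
    haveI : Module.Finite F (AdjoinRoot c) := (AdjoinRoot.powerBasis hc).finite
    exact Module.finite_of_finite F
  let w : AdjoinRoot c := AdjoinRoot.root c
  let σ : Equiv.Perm (AdjoinRoot c × AdjoinRoot c) :=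
    { toFun := fun z => ((1 - w) * z.1 - w * z.2, z.1 + z.2)
      invFun := fun z => (z.1 + w * z.2, z.2 - z.1 - w * z.2)
      left_inv := by
        intro z; ext <;> simp <;> ring
      right_inv := by
        intro z; ext <;> simp <;> ring }
  have hσ : ∀ n : ℕ, (σ ^ n) (1, 0) = (AdjoinRoot.mk c (ps F n).1, AdjoinRoot.mk c (ps F n).2) := by
    intro n
    induction n with
    | zero => simp [ps]
    | succ n ih =>
      rw [pow_succ', Equiv.Perm.mul_apply, ih]
      simp only [ps, σ, Equiv.coe_fn_mk, map_sub, map_mul, map_add, map_one]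
      rfl
  have hpos : 0 < orderOf σ := orderOf_pos σ
  refine ⟨(ps F (orderOf σ)).1, (ps F (orderOf σ)).2, ps_norm _, ?_, ps_ne_zero _ hpos⟩
  have h1 := hσ (orderOf σ)
  rw [pow_orderOf_eq_one, Equiv.Perm.one_apply] at h1
  have h2 := congrArg Prod.snd h1
  simp only at h2
  rw [← AdjoinRoot.mk_eq_zero, ← h2]

lemma exists_cert (y : Polynomial F) (hy : y ≠ 0) : ∃ u v w : Polynomial F,
    (Polynomial.X * u - 1) * ((Polynomial.X + 1) * v - 1) = y * w := by
  obtain ⟨q, hq, hndvd⟩ := Polynomial.exists_eq_pow_rootMultiplicity_mul_and_not_dvd y hy 0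
  set n := Polynomial.rootMultiplicity 0 y
  rw [map_zero, sub_zero] at hq hndvd
  have h1 : IsCoprime (Polynomial.X : Polynomial F) q :=
    (Polynomial.prime_X.irreducible.coprime_iff_not_dvd).mpr hndvd
  have h2 : IsCoprime (Polynomial.X + 1 : Polynomial F) (Polynomial.X ^ n) := by
    apply IsCoprime.pow_right
    exact ⟨1, -1, by ring⟩
  obtain ⟨a, b, hab⟩ := h1
  obtain ⟨a', b', hab'⟩ := h2
  refine ⟨a, a', b * b', ?_⟩
  have h3 : Polynomial.X * a - 1 = - (b * q) := by linear_combination hab
  have h4 : (Polynomial.X + 1) * a' - 1 = - (b' * Polynomial.X ^ n) := by linear_combination hab'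
  rw [h3, h4, hq]
  ring

lemma cert_ne_zero (y u v w : MvPolynomial (Fin 2) F)
    (h : (X 0 * u - 1) * ((X 0 + 1) * v - 1) = y * w) : y ≠ 0 := by
  rintro rfl
  rw [zero_mul] at h
  rcases mul_eq_zero.mp h with h1 | h1
  · have := congrArg (MvPolynomial.eval (fun _ => (0 : F))) h1
    simp at this
  · have := congrArg (MvPolynomial.eval (fun _ => (-1 : F))) h1
    simp at this

lemma dvd_mem (c v : MvPolynomial (Fin 2) F) (y : Polynomial F) (hy : y ≠ 0)
    (h : iW y = c * v) : ∃ c', c = iW c' := by
  apply exists_iW_of_natDegree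
  have h1 : Polynomial.C y = toPP c * toPP v := by rw [← toPP_iW, h, map_mul]
  have h2 : toPP c * toPP v ≠ 0 := by
    rw [← h1]; simpa using hy
  have h3 := congrArg Polynomial.natDegree h1
  rw [Polynomial.natDegree_C, Polynomial.natDegree_mul (left_ne_zero_of_mul h2)
    (right_ne_zero_of_mul h2)] at h3
  omega

lemma link_eq (c g : Polynomial F) (s : MvPolynomial (Fin 2) F)
    (h : iW c - iZ g = (X 0 - X 1) * s) : c = g := by
  have h1 := congrArg (MvPolynomial.aeval (fun _ : Fin 2 => (Polynomial.X : Polynomial F))) h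
  have h2 : ∀ c : Polynomial F, MvPolynomial.aeval (fun _ : Fin 2 => (Polynomial.X : Polynomial F))
      (iW c) = c := by
    intro c
    have : ((MvPolynomial.aeval (fun _ : Fin 2 => (Polynomial.X : Polynomial F))).comp
      (iW (F := F))) = AlgHom.id F _ := by
      apply Polynomial.algHom_ext; simp [iW]
    exact congrArg (fun φ => φ c) this
  have h3 : ∀ c : Polynomial F, MvPolynomial.aeval (fun _ : Fin 2 => (Polynomial.X : Polynomial F))
      (iZ c) = c := by
    intro c
    have : ((MvPolynomial.aeval (fun _ : Fin 2 => (Polynomial.X : Polynomial F))).comp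
      (iZ (F := F))) = AlgHom.id F _ := by
      apply Polynomial.algHom_ext; simp [iZ]
    exact congrArg (fun φ => φ c) this
  rw [map_sub, h2, h3, map_mul, map_sub, aeval_X, aeval_X, sub_self, zero_mul] at h1
  exact sub_eq_zero.mp h1

lemma exists_link (c : Polynomial F) : ∃ s : MvPolynomial (Fin 2) F,
    iW c - iZ c = (X 0 - X 1) * s := by
  have : (X 0 - X 1 : MvPolynomial (Fin 2) F) ∣ iW c - iZ c := by
    induction c using Polynomial.induction_on' with
    | add a b ha hb =>
      rw [map_add, map_add]
      have : iW a + iW b - (iZ a + iZ b) = (iW a - iZ a) + (iW b - iZ b) := by ring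
      rw [this]
      exact dvd_add ha hb
    | monomial n a =>
      simp only [iW, iZ, Polynomial.aeval_monomial]
      rw [← mul_sub]
      exact Dvd.dvd.mul_left (sub_dvd_pow_sub_pow _ _ n) _
  exact this

end Pell

end Pool.Agent.Helper737.FF
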