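import Mathlib
import Pool.Agent.Helper737.Pell

set_option autoImplicit false

namespace Pool.Agent.Helper737.FF

open MvPolynomial

section Final

variable {F : Type} [Field F]

lemma exists_a [Finite F] (p : ℕ) [hp : Fact p.Prime] : ∃ a : F, ∀ t : F, t ^ p - t + a ≠ 0 := by
  by_contra hcon
  push Not at hcon
  have hsurj : Function.Surjective (fun t : F => t ^ p - t) := by
    intro b
    obtain ⟨t, ht⟩ := hcon (-b)
    exact ⟨t, by linear_combination ht⟩
  have hinj := Finite.injective_iff_surjective.mpr hsurj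
  have : (0 : F) = 1 := hinj (by simp [zero_pow hp.out.ne_zero])
  exact zero_ne_one this

/-- witness indices -/
abbrev Wit (p : ℕ) := Fin 11 ⊕ (Fin 2 → Fin p)

/-- the number of witnesses -/
abbrev wm (p : ℕ) : ℕ := Fintype.card (Wit p)

/-- the variables -/
noncomputable def vy (F : Type) [Field F] (p : ℕ) (i : Wit p) :
    MvPolynomial (Option (Fin 3 ⊕ Fin (wm p))) (MvPolynomial (Fin 2) F) :=
  X (some (Sum.inr (Fintype.equivFin (Wit p) i)))

/-- the system of equations -/
noncomputable def sys (p : ℕ) (a : F) : Fin 6 →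
    MvPolynomial (Option (Fin 3 ⊕ Fin (wm p))) (MvPolynomial (Fin 2) F) :=
  ![vy F p (Sum.inl 0) - X (some (Sum.inl 1)) - C (X 0 - X 1) * vy F p (Sum.inl 2),
    vy F p (Sum.inl 1) - X (some (Sum.inl 2)) - C (X 0 - X 1) * vy F p (Sum.inl 3),
    vy F p (Sum.inl 4) ^ 2 + C (X 0) * vy F p (Sum.inl 4) * vy F p (Sum.inl 5)
      + C (X 0) * vy F p (Sum.inl 5) ^ 2 - 1,
    vy F p (Sum.inl 5) - vy F p (Sum.inl 0) * vy F p (Sum.inl 1) * vy F p (Sum.inl 6),
    (C (X 0) * vy F p (Sum.inl 7) - 1) * ((C (X 0) + 1) * vy F p (Sum.inl 8) - 1)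
      - vy F p (Sum.inl 5) * vy F p (Sum.inl 9),
    (X (some (Sum.inl 0)) * vy F p (Sum.inl 0)) ^ p -
      (vy F p (Sum.inl 10) ^ p
        - vy F p (Sum.inl 10) * (1 + C (X 0) * (X none + vy F p (Sum.inl 1))) ^ (p - 1)
        + C (C a) * (1 + C (X 0) * (X none + vy F p (Sum.inl 1))) ^ p
        + ∑ e, C (mc p e) * (vy F p (Sum.inr e)) ^ p)]

/-- the meaning of the system -/
lemma sys_iff (p : ℕ) (a : F) (f : MvPolynomial (Fin 2) F) (g : Fin 3 → Polynomial F)
    (y : Fin (wm p) → MvPolynomial (Fin 2) F) (z : Wit p → MvPolynomial (Fin 2) F)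
    (hz : ∀ i, y (Fintype.equivFin (Wit p) i) = z i) :
    (∀ j : Fin 6, MvPolynomial.eval
      (fun i => Option.elim i f
        (Sum.elim (fun a => Polynomial.aeval (MvPolynomial.X 1 : MvPolynomial (Fin 2) F) (g a)) y))
      (sys p a j) = 0) ↔
    (z (Sum.inl 0) - iZ (g 1) = (X 0 - X 1) * z (Sum.inl 2)
    ∧ z (Sum.inl 1) - iZ (g 2) = (X 0 - X 1) * z (Sum.inl 3)
    ∧ z (Sum.inl 4) ^ 2 + X 0 * z (Sum.inl 4) * z (Sum.inl 5) + X 0 * z (Sum.inl 5) ^ 2 = 1
    ∧ z (Sum.inl 5) = z (Sum.inl 0) * z (Sum.inl 1) * z (Sum.inl 6)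
    ∧ (X 0 * z (Sum.inl 7) - 1) * ((X 0 + 1) * z (Sum.inl 8) - 1)
      = z (Sum.inl 5) * z (Sum.inl 9)
    ∧ (iZ (g 0) * z (Sum.inl 0)) ^ p = form p a (z (Sum.inl 10))
        (1 + X 0 * (f + z (Sum.inl 1))) (fun e => z (Sum.inr e))) := by
  have hv : ∀ i, MvPolynomial.eval
      (fun i => Option.elim i f
        (Sum.elim (fun a => Polynomial.aeval (MvPolynomial.X 1 : MvPolynomial (Fin 2) F) (g a)) y))
      (vy F p i) = z i := by
    intro i
    rw [vy, eval_X]
    simp only [Option.elim, Sum.elim_inr]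
    exact hz i
  have hg : ∀ k : Fin 3, MvPolynomial.eval
      (fun i => Option.elim i f
        (Sum.elim (fun a => Polynomial.aeval (MvPolynomial.X 1 : MvPolynomial (Fin 2) F) (g a)) y))
      (X (some (Sum.inl k))) = iZ (g k) := by
    intro k
    rw [eval_X]
    rfl
  have hf : MvPolynomial.eval
      (fun i => Option.elim i f
        (Sum.elim (fun a => Polynomial.aeval (MvPolynomial.X 1 : MvPolynomial (Fin 2) F) (g a)) y))
      (X none) = f := by
    rw [eval_X]
    rfl
  simp only [Fin.forall_fin_succ, sys, Matrix.cons_val_zero, Matrix.cons_val_succ,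
    map_sub, map_add, map_mul, map_pow, map_one, map_sum, eval_C, hv, hg, hf, form,
    IsEmpty.forall_iff, and_true]
  simp only [sub_eq_zero]

theorem main (F : Type) [Field F] [Fintype F] :
      ∃ n m k : ℕ, ∃ P : Fin k → MvPolynomial (Option (Fin n ⊕ Fin m)) (MvPolynomial (Fin 2) F),
        (∀ f : MvPolynomial (Fin 2) F, ∃ g : Fin n → Polynomial F,
          ∃ y : Fin m → MvPolynomial (Fin 2) F, ∀ j : Fin k,
            MvPolynomial.eval
              (fun i => Option.elim i f
                (Sum.elim (fun a => Polynomial.aeval (MvPolynomial.X 1 : MvPolynomial (Fin 2) F) (g a)) y))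
              (P j) = 0) ∧
        (∀ g : Fin n → Polynomial F,
          {f : MvPolynomial (Fin 2) F | ∃ y : Fin m → MvPolynomial (Fin 2) F, ∀ j : Fin k,
            MvPolynomial.eval
              (fun i => Option.elim i f
                (Sum.elim (fun a => Polynomial.aeval (MvPolynomial.X 1 : MvPolynomial (Fin 2) F) (g a)) y))
              (P j) = 0}.Finite) := by
  obtain ⟨p, hchar⟩ := CharP.exists F
  haveI := hchar
  haveI hp : Fact p.Prime := ⟨CharP.char_is_prime F p⟩
  obtain ⟨a, ha⟩ := exists_a (F := F) p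
  refine ⟨3, wm p, 6, sys p a, ?_, ?_⟩
  · intro f
    obtain ⟨κ, hκ⟩ := exists_root p a
    set N := f.degreeOf 0 + 2 with hN
    set G : MvPolynomial (Fin 2) F := X 0 ^ N + 1 + X 0 * f with hG
    obtain ⟨b, c, hc, hmem⟩ := exists_bc p G f N hG (by omega) κ
    rw [mem_HF] at hmem
    obtain ⟨x, ye, hx⟩ := hmem
    have hcd : c * Polynomial.X ^ (N - 1) ≠ 0 :=
      mul_ne_zero hc (pow_ne_zero _ Polynomial.X_ne_zero)
    obtain ⟨x1, y1, hpell, ⟨v1, hv1⟩, hy1⟩ := exists_pell (c * Polynomial.X ^ (N - 1)) hcd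
    obtain ⟨u, v, w, hcert⟩ := exists_cert y1 hy1
    obtain ⟨s1, hs1⟩ := exists_link c
    obtain ⟨s2, hs2⟩ := exists_link (Polynomial.X ^ (N - 1) : Polynomial F)
    let z : Wit p → MvPolynomial (Fin 2) F := Sum.elim
      ![iW c, iW (Polynomial.X ^ (N - 1)), s1, s2, iW x1, iW y1, iW v1, iW u, iW v, iW w, x] ye
    refine ⟨![b, c, Polynomial.X ^ (N - 1)],
      fun i => z ((Fintype.equivFin (Wit p)).symm i), ?_⟩
    rw [sys_iff p a f _ _ z (by intro i; simp)]
    have hiWX : iW (Polynomial.X : Polynomial F) = X 0 := by simp [iW]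
    refine ⟨?_, ?_, ?_, ?_, ?_, ?_⟩
    · simpa [z] using hs1
    · simpa [z] using hs2
    · have := congrArg iW hpell
      simpa [z, hiWX] using this
    · have := congrArg iW hv1
      simpa [z, hiWX] using this
    · have := congrArg iW hcert
      simpa [z, hiWX] using this
    · have h1 : (1 + X 0 * (f + X 0 ^ (N - 1)) : MvPolynomial (Fin 2) F) = G := by
        rw [hG, show N = (N - 1) + 1 by omega]; simp only [Nat.add_sub_cancel]; ring
      have h2 : (iZ b * iW c) ^ p = form p a x G ye := by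
        rw [form_eq, hx, hκ]; ring
      simp only [z, Sum.elim_inl, Sum.elim_inr]
      simpa [hiWX, h1] using h2
  · intro g
    set h := (iZ (g 0) * iW (g 1)) ^ p with hh
    have hfin := finite_totalDegree (F := F) h.totalDegree
    have hinj : Function.Injective (fun f : MvPolynomial (Fin 2) F =>
        1 + X 0 * (f + iW (g 2))) := by
      intro f f' hff
      simp only [add_right_inj] at hff
      have := mul_left_cancel₀ (X_ne_zero (0 : Fin 2)) hff
      simpa using this
    apply Set.Finite.subset (hfin.preimage hinj.injOn)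
    rintro f ⟨y, hy⟩
    rw [sys_iff p a f g y (fun i => y (Fintype.equivFin (Wit p) i)) (by intro i; rfl)] at hy
    obtain ⟨h1, h2, h3, h4, h5, h6⟩ := hy
    obtain ⟨y1, hy1⟩ := pell_mem _ _ h3
    have hne := cert_ne_zero _ _ _ _ h5
    have hy1ne : y1 ≠ 0 := by
      rintro rfl
      rw [hy1, map_zero] at hne
      exact hne rfl
    rw [hy1] at h4
    obtain ⟨c, hc⟩ := dvd_mem (y (Fintype.equivFin (Wit p) (Sum.inl 0))) (y (Fintype.equivFin (Wit p) (Sum.inl 1)) *
      y (Fintype.equivFin (Wit p) (Sum.inl 6))) y1 hy1ne (by rw [h4]; ring)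
    obtain ⟨d, hd⟩ := dvd_mem (y (Fintype.equivFin (Wit p) (Sum.inl 1))) (y (Fintype.equivFin (Wit p) (Sum.inl 0)) *
      y (Fintype.equivFin (Wit p) (Sum.inl 6))) y1 hy1ne (by rw [h4]; ring)
    rw [hc] at h1 h6
    rw [hd] at h2 h6
    have hcg := link_eq _ _ _ h1
    have hdg := link_eq _ _ _ h2
    subst hcg
    subst hdg
    rw [Set.mem_preimage, Set.mem_ofPred_eq, hh, h6]
    exact bound p a ha _ _ _

end Final

end Pool.Agent.Helper737.FF
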