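import Mathlib

set_option autoImplicit false

namespace Pool.Agent.Helper737.MetaCpc

open Set

section Order

variable {Y : Type*}

/-- The preorder attached to a family of sets. -/
def le (C : Set (Set Y)) (p q : Y) : Prop := ∀ A ∈ C, q ∈ A → p ∈ A

/-- Principal down set. -/
def dn (C : Set (Set Y)) (q : Y) : Set Y := {p | le C p q}

/-- Principal up set. -/
def up (C : Set (Set Y)) (p : Y) : Set Y := {q | le C p q}

lemma le_refl (C : Set (Set Y)) (p : Y) : le C p p := fun _ _ h => h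

lemma le_trans {C : Set (Set Y)} {p q r : Y} (h1 : le C p q) (h2 : le C q r) : le C p r :=
  fun A hA hr => h1 A hA (h2 A hA hr)

/-- Minimal points of a set. -/
def MinPt (C : Set (Set Y)) (F : Set Y) (m : Y) : Prop := m ∈ F ∧ ∀ q ∈ F, le C q m → le C m q

/-- The class of a point in a set. -/
def cls (C : Set (Set Y)) (F : Set Y) (m : Y) : Set Y := F ∩ dn C m

/-- The minimal classes of a set. -/
def MM (C : Set (Set Y)) (F : Set Y) : Set (Set Y) := {K | ∃ m, MinPt C F m ∧ K = cls C F m}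

lemma cls_eq {C : Set (Set Y)} {F : Set Y} {m q : Y} (hm : MinPt C F m) (hq : q ∈ cls C F m) :
    MinPt C F q ∧ cls C F q = cls C F m := by
  have hqm : le C q m := hq.2
  have hmq : le C m q := hm.2 q hq.1 hqm
  refine ⟨⟨hq.1, fun r hr hrq => ?_⟩, ?_⟩
  · exact le_trans hqm (hm.2 r hr (le_trans hrq hqm))
  · ext r
    constructor
    · rintro ⟨h1, h2⟩
      exact ⟨h1, le_trans h2 hqm⟩
    · rintro ⟨h1, h2⟩
      exact ⟨h1, le_trans h2 hmq⟩

lemma MM_disj {C : Set (Set Y)} {F : Set Y} {K K' : Set Y} (hK : K ∈ MM C F) (hK' : K' ∈ MM C F)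
    {q : Y} (h1 : q ∈ K) (h2 : q ∈ K') : K = K' := by
  obtain ⟨m, hm, rfl⟩ := hK
  obtain ⟨m', hm', rfl⟩ := hK'
  rw [← (cls_eq hm h1).2, ← (cls_eq hm' h2).2]

lemma MM_sub {C : Set (Set Y)} {F : Set Y} {K : Set Y} (hK : K ∈ MM C F) : K ⊆ F := by
  obtain ⟨m, hm, rfl⟩ := hK
  exact inter_subset_left

lemma MM_nonempty {C : Set (Set Y)} {F : Set Y} {K : Set Y} (hK : K ∈ MM C F) : K.Nonempty := by
  obtain ⟨m, hm, rfl⟩ := hK
  exact ⟨m, hm.1, le_refl C m⟩

end Order

section Top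

variable {Y : Type*} [TopologicalSpace Y] {C : Set (Set Y)}

/-- Closure preserving family of compact closed sets. -/
structure Cpc (C : Set (Set Y)) : Prop where
  cc : ∀ A ∈ C, IsCompact A ∧ IsClosed A
  cp : ∀ G ⊆ C, IsClosed (⋃₀ G)

lemma isOpen_up (hC : Cpc C) (p : Y) : IsOpen (up C p) := by
  have h : up C p = (⋃₀ {A | A ∈ C ∧ p ∉ A})ᶜ := by
    ext q
    simp only [up, le, mem_ofPred_eq, mem_compl_iff, mem_sUnion, not_exists, not_and]
    constructor
    · intro h A hA hq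
      exact hA.2 (h A hA.1 hq)
    · intro h A hA hq
      by_contra hp
      exact h A ⟨hA, hp⟩ hq
  rw [h]
  exact (hC.cp _ (fun A hA => hA.1)).isOpen_compl

lemma isClosed_dn (hC : Cpc C) (q : Y) : IsClosed (dn C q) := by
  have h : dn C q = ⋂₀ {A | A ∈ C ∧ q ∈ A} := by
    ext p
    simp only [dn, le, mem_ofPred_eq, mem_sInter]
    constructor
    · intro h A hA
      exact h A hA.1 hA.2
    · intro h A hA hq
      exact h A ⟨hA, hq⟩
  rw [h]
  exact isClosed_sInter (fun A hA => (hC.cc A hA.1).2)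

lemma isCompact_dn (hC : Cpc C) {q : Y} (hq : q ∈ ⋃₀ C) : IsCompact (dn C q) := by
  obtain ⟨A, hA, hqA⟩ := hq
  exact (hC.cc A hA).1.of_isClosed_subset (isClosed_dn hC q) (fun p hp => hp A hA hqA)

omit [TopologicalSpace Y] in
lemma dn_sub {q : Y} (hq : q ∈ ⋃₀ C) : dn C q ⊆ ⋃₀ C := by
  obtain ⟨A, hA, hqA⟩ := hq
  exact fun p hp => ⟨A, hA, hp A hA hqA⟩

lemma exists_min (hC : Cpc C) {F : Set Y} (hF : IsClosed F) {y : Y} (hy : y ∈ ⋃₀ C) (hyF : y ∈ F) :
    ∃ m, MinPt C F m ∧ le C m y := by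
  classical
  let T := {q : Y // q ∈ F ∧ le C q y}
  have key : ∃ m : T, ∀ a : T, le C a.1 m.1 → le C m.1 a.1 := by
    refine exists_maximal_of_chains_bounded (r := fun a b : T => le C b.1 a.1) ?_ ?_
    · intro c hc
      have hrefl : Std.Refl (fun a b : T => le C b.1 a.1) := ⟨fun a => le_refl C a.1⟩
      by_cases hne : c.Nonempty
      · have hne' : Nonempty c := hne.to_subtype
        have hint : (⋂ i : c, (dn C i.1.1 ∩ F)).Nonempty := by
          apply IsCompact.nonempty_iInter_of_directed_nonempty_isCompact_isClosed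
          · intro i j
            rcases hc.total i.2 j.2 with h | h
            · exact ⟨j, fun x hx => ⟨le_trans hx.1 h, hx.2⟩, fun x hx => hx⟩
            · exact ⟨i, fun x hx => hx, fun x hx => ⟨le_trans hx.1 h, hx.2⟩⟩
          · intro i
            exact ⟨i.1.1, le_refl C _, i.1.2.1⟩
          · intro i
            exact (isCompact_dn hC (dn_sub hy i.1.2.2)).inter_right hF
          · intro i
            exact (isClosed_dn hC _).inter hF
        obtain ⟨r, hr⟩ := hint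
        rw [mem_iInter] at hr
        obtain ⟨i0⟩ := hne'
        refine ⟨⟨r, (hr i0).2, le_trans (hr i0).1 i0.1.2.2⟩, fun a ha => ?_⟩
        exact (hr ⟨a, ha⟩).1
      · rw [not_nonempty_iff_eq_empty] at hne
        subst hne
        exact ⟨⟨y, hyF, le_refl C y⟩, fun a ha => absurd ha (notMem_empty a)⟩
    · intro a b c hab hbc
      exact le_trans hbc hab
  obtain ⟨m, hm⟩ := key
  refine ⟨m.1, ⟨m.2.1, fun q hq hqm => ?_⟩, m.2.2⟩
  exact hm ⟨q, hq, le_trans hqm m.2.2⟩ hqm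

lemma MM_compact (hC : Cpc C) {F : Set Y} (hF : IsClosed F) (hFP : F ⊆ ⋃₀ C) {K : Set Y}
    (hK : K ∈ MM C F) : IsCompact K := by
  obtain ⟨m, hm, rfl⟩ := hK
  rw [cls, inter_comm]
  exact (isCompact_dn hC (hFP hm.1)).inter_right hF

lemma MM_closed (hC : Cpc C) {F : Set Y} (hF : IsClosed F) {A : Set (Set Y)}
    (hA : A ⊆ MM C F) : IsClosed (⋃₀ A) := by
  rw [← closure_subset_iff_isClosed]
  intro p hp
  have hpF : p ∈ F := by
    have : closure (⋃₀ A) ⊆ F :=
      closure_minimal (sUnion_subset fun K hK => MM_sub (hA hK)) hF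
    exact this hp
  rw [mem_closure_iff] at hp
  obtain ⟨q, hq1, K, hK, hqK⟩ := hp (up C p) (isOpen_up hC p) (le_refl C p)
  refine ⟨K, hK, ?_⟩
  obtain ⟨m, hm, rfl⟩ := hA hK
  exact ⟨hpF, le_trans hq1 hqK.2⟩

lemma fin_min (hC : Cpc C) {F : Set Y} (hF : IsClosed F) {y : Y}
    (hy : y ∈ ⋃₀ C) : {K | K ∈ MM C F ∧ ∃ p ∈ K, le C p y}.Finite := by
  classical
  have hcomp : IsCompact (dn C y ∩ F) := (isCompact_dn hC hy).inter_right hF
  let I := {m : Y // MinPt C F m ∧ le C m y}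
  obtain ⟨t, ht⟩ := hcomp.elim_finite_subcover (fun m : I => up C m.1)
    (fun m => isOpen_up hC m.1) (by
      intro q hq
      obtain ⟨m, hm, hmq⟩ := exists_min hC hF (dn_sub hy hq.1) hq.2
      exact mem_iUnion.2 ⟨⟨m, hm, le_trans hmq hq.1⟩, hmq⟩)
  refine (t.finite_toSet.image (fun m : I => cls C F m.1)).subset ?_
  rintro K ⟨⟨m, hm, rfl⟩, p, hp, hpy⟩
  obtain ⟨h1, h2⟩ := cls_eq hm hp
  have hpm : p ∈ dn C y ∩ F := ⟨hpy, hp.1⟩
  have := ht hpm
  rw [mem_iUnion₂] at this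
  obtain ⟨i, hit, hi⟩ := this
  refine ⟨i, hit, ?_⟩
  have hi' : le C i.1 p := hi
  have : i.1 ∈ cls C F p := ⟨i.2.1.1, hi'⟩
  simp only
  rw [← h2, (cls_eq h1 this).2]

/-- The first player wins. -/
lemma game (hC : Cpc C) (F : ℕ → Set Y) (hF : ∀ k, IsClosed (F k)) (hFP : ∀ k, F k ⊆ ⋃₀ C)
    (hdec : ∀ k, F (k + 1) ⊆ F k) (hdis : ∀ k, ∀ K ∈ MM C (F k), Disjoint K (F (k + 1)))
    {y : Y} (hy : y ∈ ⋃₀ C) (hne : ∀ k, (dn C y ∩ F k).Nonempty) : False := by
  have hanti : Antitone F := antitone_nat_of_succ_le hdec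
  have h1 : (⋂ k, (dn C y ∩ F k)).Nonempty := by
    apply IsCompact.nonempty_iInter_of_sequence_nonempty_isCompact_isClosed
    · intro k
      exact inter_subset_inter_right _ (hdec k)
    · exact hne
    · exact (isCompact_dn hC hy).inter_right (hF 0)
    · intro k
      exact (isClosed_dn hC y).inter (hF k)
  obtain ⟨y1, hy1⟩ := h1
  rw [mem_iInter] at hy1
  have hFc : IsClosed (⋂ k, F k) := isClosed_iInter hF
  obtain ⟨m, hm, hmy⟩ := exists_min hC hFc (dn_sub hy (hy1 0).1)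
    (mem_iInter.2 fun k => (hy1 k).2)
  have hmF : ∀ k, m ∈ F k := mem_iInter.1 hm.1
  have hmP : m ∈ ⋃₀ C := hFP 0 (hmF 0)
  have h2 : ∃ k, dn C m ∩ F k ∩ (up C m)ᶜ = ∅ := by
    by_contra hcon
    push Not at hcon
    have h3 : (⋂ k, (dn C m ∩ F k ∩ (up C m)ᶜ)).Nonempty := by
      apply IsCompact.nonempty_iInter_of_sequence_nonempty_isCompact_isClosed
      · intro k
        exact inter_subset_inter_left _ (inter_subset_inter_right _ (hdec k))
      · intro k
        exact hcon k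
      · exact ((isCompact_dn hC hmP).inter_right (hF 0)).inter_right
          (isOpen_up hC m).isClosed_compl
      · intro k
        exact ((isClosed_dn hC m).inter (hF k)).inter (isOpen_up hC m).isClosed_compl
    obtain ⟨q, hq⟩ := h3
    rw [mem_iInter] at hq
    exact (hq 0).2 (hm.2 q (mem_iInter.2 fun k => (hq k).1.2) (hq 0).1.1)
  obtain ⟨k, hk⟩ := h2
  have hmin : MinPt C (F k) m := by
    refine ⟨hmF k, fun q hq hqm => ?_⟩
    by_contra hcon
    have : q ∈ dn C m ∩ F k ∩ (up C m)ᶜ := ⟨⟨hqm, hq⟩, hcon⟩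
    rw [hk] at this
    exact this
  have := hdis k (cls C (F k) m) ⟨m, hmin, rfl⟩
  exact disjoint_left.1 this ⟨hmF k, le_refl C m⟩ (hmF (k + 1))

end Top

end Pool.Agent.Helper737.MetaCpc
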