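import Mathlib
import Pool.Agent.Helper737.MetaCpc

set_option autoImplicit false

namespace Pool.Agent.Helper737.MetaCpc

open Set

variable {Y X : Type*} [TopologicalSpace Y] [TopologicalSpace X]

/-- The choices made along the tree. -/
structure Data (C : Set (Set Y)) (U : Set (Set (Y × X))) where
  W : Set Y → Set Y → Set Y
  V : Set Y → Set (Set X)
  G : Set Y → Set X → Set Y
  Q : Set Y → Set X → Set (Set (Y × X))
  D : Set (Y × X)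
  hWo : ∀ F, IsClosed F → F ⊆ ⋃₀ C → ∀ K ∈ MM C F, IsOpen (W F K)
  hWK : ∀ F, IsClosed F → F ⊆ ⋃₀ C → ∀ K ∈ MM C F, K ⊆ W F K
  hWf : ∀ z ∈ D, ∀ F, IsClosed F → F ⊆ ⋃₀ C → {K | K ∈ MM C F ∧ z.1 ∈ W F K}.Finite
  hVo : ∀ K, IsCompact K → ∀ v ∈ V K, IsOpen v
  hVc : ∀ K, IsCompact K → ∀ x : X, ∃ v ∈ V K, x ∈ v
  hVf : ∀ K, IsCompact K → ∀ x : X, {v | v ∈ V K ∧ x ∈ v}.Finite
  hGo : ∀ K, IsCompact K → ∀ v ∈ V K, IsOpen (G K v)
  hGK : ∀ K, IsCompact K → ∀ v ∈ V K, K ⊆ G K v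
  hQf : ∀ K, IsCompact K → ∀ v ∈ V K, (Q K v).Finite
  hQU : ∀ K, IsCompact K → ∀ v ∈ V K, Q K v ⊆ U
  hQc : ∀ K, IsCompact K → ∀ v ∈ V K, G K v ×ˢ v ⊆ ⋃₀ (Q K v)

variable {C : Set (Set Y)} {U : Set (Set (Y × X))}

/-- Active pairs. -/
def Aset (d : Data C U) (F : Set Y) (z : Y × X) : Set (Set Y × Set X) :=
  {a | a.1 ∈ MM C F ∧ a.2 ∈ d.V a.1 ∧ z.1 ∈ d.W F a.1 ∧ z.2 ∈ a.2}

/-- One step. -/
def step (d : Data C U) (s : Set (Y × X) × Set Y) (A : Set (Set Y × Set X)) :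
    Set (Y × X) × Set Y :=
  (s.1 ∩ ⋂ a ∈ A, (d.W s.2 a.1) ×ˢ a.2,
    s.2 \ ((⋃ K ∈ {K | K ∈ MM C s.2 ∧ ∀ a ∈ A, a.1 ≠ K}, d.W s.2 K) ∪
      ⋃ a ∈ A, (d.G a.1 a.2 ∩ d.W s.2 a.1)))

/-- Good states. -/
def Good (C : Set (Set Y)) (s : Set (Y × X) × Set Y) : Prop :=
  IsOpen s.1 ∧ IsClosed s.2 ∧ s.2 ⊆ ⋃₀ C

lemma Aset_finite (hC : Cpc C) (d : Data C U) {F : Set Y} (hF : IsClosed F) (hFP : F ⊆ ⋃₀ C)
    {z : Y × X} (hz : z ∈ d.D) : (Aset d F z).Finite := by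
  have h1 := d.hWf z hz F hF hFP
  have : Aset d F z ⊆ ⋃ K ∈ {K | K ∈ MM C F ∧ z.1 ∈ d.W F K},
      (fun v => (K, v)) '' {v | v ∈ d.V K ∧ z.2 ∈ v} := by
    rintro ⟨K, v⟩ ⟨ha1, ha2, ha3, ha4⟩
    simp only [mem_iUnion]
    exact ⟨K, ⟨ha1, ha3⟩, v, ⟨ha2, ha4⟩, rfl⟩
  refine (h1.biUnion fun K hK => ?_).subset this
  exact (d.hVf K (MM_compact hC hF hFP hK.1) z.2).image _

lemma step_good (hC : Cpc C) (d : Data C U) {s : Set (Y × X) × Set Y} (hs : Good C s)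
    {z : Y × X} (hz : z ∈ d.D) {A : Set (Set Y × Set X)} (hA : A ⊆ Aset d s.2 z) :
    Good C (step d s A) := by
  obtain ⟨h1, h2, h3⟩ := hs
  have hfin : A.Finite := (Aset_finite hC d h2 h3 hz).subset hA
  refine ⟨?_, ?_, ?_⟩
  · refine h1.inter (hfin.isOpen_biInter fun a ha => ?_)
    obtain ⟨ha1, ha2, ha3, ha4⟩ := hA ha
    exact (d.hWo _ h2 h3 _ ha1).prod (d.hVo _ (MM_compact hC h2 h3 ha1) _ ha2)
  · refine h2.sdiff (IsOpen.union ?_ ?_)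
    · exact isOpen_biUnion fun K hK => d.hWo _ h2 h3 _ hK.1
    · refine isOpen_biUnion fun a ha => ?_
      obtain ⟨ha1, ha2, ha3, ha4⟩ := hA ha
      exact (d.hGo _ (MM_compact hC h2 h3 ha1) _ ha2).inter (d.hWo _ h2 h3 _ ha1)
  · exact fun y hy => h3 hy.1

lemma step_sub (d : Data C U) (s : Set (Y × X) × Set Y) (A : Set (Set Y × Set X)) :
    (step d s A).2 ⊆ s.2 := fun _ hy => hy.1

lemma step_dis (hC : Cpc C) (d : Data C U) {s : Set (Y × X) × Set Y} (hs : Good C s)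
    {z : Y × X} {A : Set (Set Y × Set X)} (hA : A ⊆ Aset d s.2 z)
    {K : Set Y} (hK : K ∈ MM C s.2) : Disjoint K (step d s A).2 := by
  obtain ⟨h1, h2, h3⟩ := hs
  rw [disjoint_left]
  intro y hy hy2
  apply hy2.2
  by_cases h : ∃ a ∈ A, a.1 = K
  · obtain ⟨a, ha, rfl⟩ := h
    right
    simp only [mem_iUnion]
    exact ⟨a, ha, d.hGK _ (MM_compact hC h2 h3 hK) _ (hA ha).2.1 hy, d.hWK _ h2 h3 _ hK hy⟩
  · left
    simp only [mem_iUnion]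
    refine ⟨K, ⟨hK, fun a ha he => h ⟨a, ha, he⟩⟩, d.hWK _ h2 h3 _ hK hy⟩

/-- The branch of a point. -/
def st (d : Data C U) (z : Y × X) : ℕ → Set (Y × X) × Set Y
  | 0 => (univ, ⋃₀ C)
  | k + 1 => step d (st d z k) (Aset d (st d z k).2 z)

lemma st_good (hC : Cpc C) (d : Data C U) {z : Y × X} (hz : z ∈ d.D) (k : ℕ) :
    Good C (st d z k) := by
  induction k with
  | zero => exact ⟨isOpen_univ, hC.cp C subset_rfl, subset_rfl⟩
  | succ k ih => exact step_good hC d ih hz subset_rfl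

lemma mem_st (d : Data C U) (z : Y × X) (k : ℕ) : z ∈ (st d z k).1 := by
  induction k with
  | zero => exact mem_univ _
  | succ k ih =>
    refine ⟨ih, ?_⟩
    simp only [mem_iInter]
    intro a ha
    exact ⟨ha.2.2.1, ha.2.2.2⟩

/-- Members of the families at a state. -/
def fam (d : Data C U) (s : Set (Y × X) × Set Y) : Set (Set (Y × X)) :=
  {O | ∃ a : Set Y × Set X, a.1 ∈ MM C s.2 ∧ a.2 ∈ d.V a.1 ∧ ∃ u ∈ d.Q a.1 a.2,
    O = s.1 ∩ ((d.W s.2 a.1 ∩ d.G a.1 a.2) ×ˢ a.2) ∩ u}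

/-- The family of level k. -/
def lev (d : Data C U) (k : ℕ) : Set (Set (Y × X)) := {O | ∃ z ∈ d.D, O ∈ fam d (st d z k)}

lemma fam_open (hC : Cpc C) (d : Data C U) (hU : ∀ u ∈ U, IsOpen u)
    {s : Set (Y × X) × Set Y} (hs : Good C s) {O : Set (Y × X)} (hO : O ∈ fam d s) :
    IsOpen O := by
  obtain ⟨h1, h2, h3⟩ := hs
  obtain ⟨a, ha1, ha2, u, hu, rfl⟩ := hO
  have hc := MM_compact hC h2 h3 ha1
  exact (h1.inter (((d.hWo _ h2 h3 _ ha1).inter (d.hGo _ hc _ ha2)).prod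
    (d.hVo _ hc _ ha2))).inter (hU u (d.hQU _ hc _ ha2 hu))

lemma fam_refine (hC : Cpc C) (d : Data C U)
    {s : Set (Y × X) × Set Y} (hs : Good C s) {O : Set (Y × X)} (hO : O ∈ fam d s) :
    ∃ u ∈ U, O ⊆ u := by
  obtain ⟨h1, h2, h3⟩ := hs
  obtain ⟨a, ha1, ha2, u, hu, rfl⟩ := hO
  have hc := MM_compact hC h2 h3 ha1
  exact ⟨u, d.hQU _ hc _ ha2 hu, inter_subset_right⟩

lemma fam_fin (hC : Cpc C) (d : Data C U)
    {s : Set (Y × X) × Set Y} (hs : Good C s) {z : Y × X} (hz : z ∈ d.D) :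
    {O | O ∈ fam d s ∧ z ∈ O}.Finite := by
  obtain ⟨h1, h2, h3⟩ := hs
  have hfin := Aset_finite hC d h2 h3 hz
  have hsub : {O | O ∈ fam d s ∧ z ∈ O} ⊆ ⋃ a ∈ Aset d s.2 z,
      (fun u => s.1 ∩ ((d.W s.2 a.1 ∩ d.G a.1 a.2) ×ˢ a.2) ∩ u) '' (d.Q a.1 a.2) := by
    rintro O ⟨⟨a, ha1, ha2, u, hu, rfl⟩, hzO⟩
    simp only [mem_iUnion]
    exact ⟨a, ⟨ha1, ha2, hzO.1.2.1.1, hzO.1.2.2⟩, u, hu, rfl⟩
  refine (hfin.biUnion fun a ha => ?_).subset hsub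
  exact (d.hQf _ (MM_compact hC h2 h3 ha.1) _ ha.2.1).image _

lemma Aset_mono (d : Data C U) {z z' : Y × X} {k : ℕ} (h : z' ∈ (st d z (k + 1)).1) :
    Aset d (st d z k).2 z ⊆ Aset d (st d z k).2 z' := by
  intro a ha
  have h2 := h.2
  simp only [mem_iInter] at h2
  have := h2 a ha
  exact ⟨ha.1, ha.2.1, this.1, this.2⟩

lemma st_fin (hC : Cpc C) (d : Data C U) {z' : Y × X} (hz' : z' ∈ d.D) (k : ℕ) :
    {s | ∃ z ∈ d.D, s = st d z k ∧ z' ∈ (st d z k).1}.Finite := by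
  induction k with
  | zero =>
    refine (finite_singleton ((univ : Set (Y × X)), ⋃₀ C)).subset ?_
    rintro s ⟨z, hz, rfl, h⟩
    rfl
  | succ k ih =>
    have hsub : {s | ∃ z ∈ d.D, s = st d z (k + 1) ∧ z' ∈ (st d z (k + 1)).1} ⊆
        ⋃ s ∈ {s | ∃ z ∈ d.D, s = st d z k ∧ z' ∈ (st d z k).1},
          (fun A => step d s A) '' {A | A ⊆ Aset d s.2 z'} := by
      rintro s ⟨z, hz, rfl, h⟩
      simp only [mem_iUnion]
      exact ⟨st d z k, ⟨z, hz, rfl, h.1⟩, Aset d (st d z k).2 z, Aset_mono d h, rfl⟩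
    refine (ih.biUnion fun s hs => ?_).subset hsub
    obtain ⟨z, hz, rfl, h⟩ := hs
    obtain ⟨h1, h2, h3⟩ := st_good hC d hz k
    exact ((Aset_finite hC d h2 h3 hz').finite_subsets).image _

lemma lev_fin (hC : Cpc C) (d : Data C U) {z' : Y × X} (hz' : z' ∈ d.D) (k : ℕ) :
    {O | O ∈ lev d k ∧ z' ∈ O}.Finite := by
  have hsub : {O | O ∈ lev d k ∧ z' ∈ O} ⊆
      ⋃ s ∈ {s | ∃ z ∈ d.D, s = st d z k ∧ z' ∈ (st d z k).1}, {O | O ∈ fam d s ∧ z' ∈ O} := by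
    rintro O ⟨⟨z, hz, hO⟩, hzO⟩
    simp only [mem_iUnion]
    refine ⟨st d z k, ⟨z, hz, rfl, ?_⟩, hO, hzO⟩
    obtain ⟨a, ha1, ha2, u, hu, rfl⟩ := hO
    exact hzO.1.1
  refine ((st_fin hC d hz' k).biUnion fun s hs => ?_).subset hsub
  obtain ⟨z, hz, rfl, h⟩ := hs
  exact fam_fin hC d (st_good hC d hz k) hz'

lemma cover (hC : Cpc C) (d : Data C U) {z : Y × X} (hz : z ∈ d.D) (hzP : z.1 ∈ ⋃₀ C) :
    ∃ k, ∃ O ∈ lev d k, z ∈ O := by
  by_contra hcon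
  push Not at hcon
  have hmem : ∀ k, z.1 ∈ (st d z k).2 := by
    intro k
    induction k with
    | zero => exact hzP
    | succ k ih =>
      obtain ⟨h1, h2, h3⟩ := st_good hC d hz k
      refine ⟨ih, ?_⟩
      rintro (h | h)
      · simp only [mem_iUnion] at h
        obtain ⟨K, ⟨hK, hKa⟩, hKW⟩ := h
        obtain ⟨v, hv, hzv⟩ := d.hVc K (MM_compact hC h2 h3 hK) z.2
        exact hKa (K, v) ⟨hK, hv, hKW, hzv⟩ rfl
      · simp only [mem_iUnion] at h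
        obtain ⟨a, ha, hG, hW⟩ := h
        have hc := MM_compact hC h2 h3 ha.1
        obtain ⟨u, hu, hzu⟩ := d.hQc _ hc _ ha.2.1 (⟨hG, ha.2.2.2⟩ : z ∈ d.G a.1 a.2 ×ˢ a.2)
        exact hcon k _ ⟨z, hz, a, ha.1, ha.2.1, u, hu, rfl⟩
          ⟨⟨mem_st d z k, ⟨ha.2.2.1, hG⟩, ha.2.2.2⟩, hzu⟩
  refine game hC (fun k => (st d z k).2) (fun k => (st_good hC d hz k).2.1)
    (fun k => (st_good hC d hz k).2.2) (fun k => step_sub d _ _) (fun k K hK => ?_) hzP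
    (fun k => ⟨z.1, le_refl C _, hmem k⟩)
  exact step_dis hC d (st_good hC d hz k) subset_rfl hK

/-- Child relation at a point. -/
def child (d : Data C U) (z' : Y × X) (s' s : Set (Y × X) × Set Y) : Prop :=
  Good C s ∧ (∃ A ⊆ Aset d s.2 z', s' = step d s A) ∧ (dn C z'.1 ∩ s'.2).Nonempty

lemma child_wf (hC : Cpc C) (d : Data C U) {z' : Y × X} (hz' : z' ∈ d.D)
    (hzP : z'.1 ∈ ⋃₀ C) : WellFounded (child d z') := by
  rw [wellFounded_iff_isEmpty_descending_chain]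
  constructor
  rintro ⟨f, hf⟩
  have hg : ∀ n, Good C (f n) := fun n => (hf n).1
  refine game hC (fun k => (f k).2) (fun k => (hg k).2.1) (fun k => (hg k).2.2) ?_ ?_ hzP ?_
  · intro k
    obtain ⟨h1, ⟨A, hA, hAe⟩, h3⟩ := hf k
    rw [hAe]
    exact step_sub d _ _
  · intro k K hK
    obtain ⟨h1, ⟨A, hA, hAe⟩, h3⟩ := hf k
    rw [hAe]
    exact step_dis hC d h1 hA hK
  · intro k
    obtain ⟨h1, ⟨A, hA, hAe⟩, h3⟩ := hf k
    obtain ⟨y, hy1, hy2⟩ := h3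
    refine ⟨y, hy1, ?_⟩
    rw [hAe] at hy2
    exact step_sub d _ _ hy2

lemma desc_fin (hC : Cpc C) (d : Data C U) {z' : Y × X} (hz' : z' ∈ d.D)
    (hzP : z'.1 ∈ ⋃₀ C) (s : Set (Y × X) × Set Y) :
    {s' | Relation.ReflTransGen (child d z') s' s}.Finite := by
  refine (child_wf hC d hz' hzP).induction (C := fun s =>
    {s' | Relation.ReflTransGen (child d z') s' s}.Finite) s ?_
  intro s ih
  have hchild : {t | child d z' t s}.Finite := by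
    by_cases hs : Good C s
    · refine (((Aset_finite hC d hs.2.1 hs.2.2 hz').finite_subsets).image
        (fun A => step d s A)).subset ?_
      rintro t ⟨h1, ⟨A, hA, rfl⟩, h3⟩
      exact ⟨A, hA, rfl⟩
    · refine finite_empty.subset ?_
      rintro t ⟨h1, h2⟩
      exact hs h1
  have hsub : {s' | Relation.ReflTransGen (child d z') s' s} ⊆
      {s} ∪ ⋃ t ∈ {t | child d z' t s}, {s' | Relation.ReflTransGen (child d z') s' t} := by
    intro s' hs'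
    rcases Relation.ReflTransGen.cases_tail hs' with h | ⟨t, ht1, ht2⟩
    · left
      exact h.symm
    · right
      simp only [mem_iUnion]
      exact ⟨t, ht2, ht1⟩
  exact ((finite_singleton s).union (hchild.biUnion fun t ht => ih t ht)).subset hsub

/-- When the expansions are the principal up sets, all levels together are point finite. -/
lemma all_fin (hC : Cpc C) (d : Data C U) {z' : Y × X} (hz' : z' ∈ d.D)
    (hzP : z'.1 ∈ ⋃₀ C) (hW : ∀ F, ∀ K ∈ MM C F, z'.1 ∈ d.W F K → ∃ p ∈ K, le C p z'.1) :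
    {O | (∃ k, O ∈ lev d k) ∧ z' ∈ O}.Finite := by
  have hkey : ∀ z ∈ d.D, ∀ k, z' ∈ (st d z k).1 → (dn C z'.1 ∩ (st d z k).2).Nonempty →
      Relation.ReflTransGen (child d z') (st d z k) (univ, ⋃₀ C) := by
    intro z hz k
    induction k with
    | zero => intro _ _; exact Relation.ReflTransGen.refl
    | succ k ih =>
      intro h1 h2
      obtain ⟨y, hy1, hy2⟩ := h2
      have h3 := ih h1.1 ⟨y, hy1, step_sub d _ _ hy2⟩
      refine Relation.ReflTransGen.head ?_ h3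
      exact ⟨st_good hC d hz k, ⟨_, Aset_mono d h1, rfl⟩, y, hy1, hy2⟩
  have hsub : {O | (∃ k, O ∈ lev d k) ∧ z' ∈ O} ⊆
      ⋃ s ∈ {s | Relation.ReflTransGen (child d z') s (univ, ⋃₀ C)} ∩ {s | Good C s},
        {O | O ∈ fam d s ∧ z' ∈ O} := by
    rintro O ⟨⟨k, z, hz, hO⟩, hzO⟩
    simp only [mem_iUnion]
    refine ⟨st d z k, ⟨?_, st_good hC d hz k⟩, hO, hzO⟩
    obtain ⟨a, ha1, ha2, u, hu, rfl⟩ := hO
    obtain ⟨p, hp, hpz⟩ := hW _ _ ha1 hzO.1.2.1.1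
    exact hkey z hz k hzO.1.1 ⟨p, hpz, MM_sub ha1 hp⟩
  refine (((desc_fin hC d hz' hzP _).inter_of_left _).biUnion fun s hs => ?_).subset hsub
  exact fam_fin hC d hs.2 hz'

end Pool.Agent.Helper737.MetaCpc
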