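import Mathlib
import Pool.Agent.Helper737.MetaTree

set_option autoImplicit false

namespace Pool.Agent.Helper737.MetaCpc

open Set

/-- Every open cover has a point finite open refinement. -/
def Metacpt (Y : Type*) [TopologicalSpace Y] : Prop :=
  ∀ 𝒰 : Set (Set Y), (∀ U ∈ 𝒰, IsOpen U) → ⋃₀ 𝒰 = Set.univ →
    ∃ 𝒱 : Set (Set Y), (∀ V ∈ 𝒱, IsOpen V) ∧ ⋃₀ 𝒱 = Set.univ ∧
      (∀ V ∈ 𝒱, ∃ U ∈ 𝒰, V ⊆ U) ∧ ∀ y : Y, {V | V ∈ 𝒱 ∧ y ∈ V}.Finite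

variable {Y X : Type*} [TopologicalSpace Y] [TopologicalSpace X]

lemma tube (hX : Metacpt X) {U : Set (Set (Y × X))} (hU : ∀ u ∈ U, IsOpen u)
    (hcov : ⋃₀ U = univ) {K : Set Y} (hK : IsCompact K) :
    ∃ (V : Set (Set X)) (G : Set X → Set Y) (Q : Set X → Set (Set (Y × X))),
      (∀ v ∈ V, IsOpen v) ∧ (∀ x : X, ∃ v ∈ V, x ∈ v) ∧ (∀ x : X, {v | v ∈ V ∧ x ∈ v}.Finite) ∧
      (∀ v ∈ V, IsOpen (G v)) ∧ (∀ v ∈ V, K ⊆ G v) ∧ (∀ v ∈ V, (Q v).Finite) ∧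
      (∀ v ∈ V, Q v ⊆ U) ∧ (∀ v ∈ V, G v ×ˢ v ⊆ ⋃₀ (Q v)) := by
  have h1 : ∀ x : X, ∃ (q : Set (Set (Y × X))) (g : Set Y) (v : Set X), q.Finite ∧ q ⊆ U ∧
      IsOpen g ∧ IsOpen v ∧ K ⊆ g ∧ x ∈ v ∧ g ×ˢ v ⊆ ⋃₀ q := by
    intro x
    have hc : IsCompact (K ×ˢ ({x} : Set X)) := hK.prod isCompact_singleton
    obtain ⟨q, hqU, hqf, hq⟩ := hc.elim_finite_subcover_image (b := U) (c := id) hU (by
      intro z _
      have : z ∈ ⋃₀ U := by rw [hcov]; exact mem_univ z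
      obtain ⟨u, hu, hzu⟩ := this
      exact mem_biUnion hu hzu)
    have hq' : K ×ˢ ({x} : Set X) ⊆ ⋃₀ q := by
      intro z hz
      have := hq hz
      simp only [mem_iUnion, id] at this
      obtain ⟨u, hu, hzu⟩ := this
      exact ⟨u, hu, hzu⟩
    obtain ⟨g, v, hg, hv, hKg, hxv, hgv⟩ := generalized_tube_lemma hK isCompact_singleton
      (isOpen_sUnion fun u hu => hU u (hqU hu)) hq'
    exact ⟨q, g, v, hqf, hqU, hg, hv, hKg, hxv rfl, hgv⟩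
  choose q g v hqf hqU hg hv hKg hxv hgv using h1
  obtain ⟨V, hVo, hVc, hVr, hVf⟩ := hX (range v) (by rintro _ ⟨x, rfl⟩; exact hv x) (by
    rw [eq_univ_iff_forall]
    intro x
    exact ⟨v x, ⟨x, rfl⟩, hxv x⟩)
  have h3 : ∀ a : V, ∃ x : X, a.1 ⊆ v x := by
    intro a
    obtain ⟨_, ⟨x, rfl⟩, hx⟩ := hVr a.1 a.2
    exact ⟨x, hx⟩
  choose xs hxs using h3
  classical
  refine ⟨V, fun w => if h : w ∈ V then g (xs ⟨w, h⟩) else univ,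
    fun w => if h : w ∈ V then q (xs ⟨w, h⟩) else ∅, hVo, ?_, hVf, ?_, ?_, ?_, ?_, ?_⟩
  · intro x
    have : x ∈ ⋃₀ V := by rw [hVc]; exact mem_univ x
    exact this
  · intro w hw
    simp only [hw, dif_pos]
    exact hg _
  · intro w hw
    simp only [hw, dif_pos]
    exact hKg _
  · intro w hw
    simp only [hw, dif_pos]
    exact hqf _
  · intro w hw
    simp only [hw, dif_pos]
    exact hqU _
  · intro w hw
    simp only [hw, dif_pos]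
    exact fun z hz => hgv (xs ⟨w, hw⟩) ⟨hz.1, hxs ⟨w, hw⟩ hz.2⟩

lemma expand (hY : Metacpt Y) {C : Set (Set Y)} (hC : Cpc C) {F : Set Y} (hF : IsClosed F) :
    ∃ W : Set Y → Set Y, (∀ K ∈ MM C F, IsOpen (W K)) ∧ (∀ K ∈ MM C F, K ⊆ W K) ∧
      ∀ y, {K | K ∈ MM C F ∧ y ∈ W K}.Finite := by
  by_cases hne : (MM C F).Nonempty
  · obtain ⟨𝒢, h1, h2, h3, h4⟩ := hY ((fun K => (⋃₀ (MM C F \ {K}))ᶜ) '' MM C F) (by
      rintro _ ⟨K, hK, rfl⟩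
      exact (MM_closed hC hF sdiff_subset).isOpen_compl) (by
      rw [eq_univ_iff_forall]
      intro y
      by_cases hy : ∃ K ∈ MM C F, y ∈ K
      · obtain ⟨K, hK, hyK⟩ := hy
        refine ⟨_, ⟨K, hK, rfl⟩, ?_⟩
        rintro ⟨K', ⟨hK', hne'⟩, hy'⟩
        exact hne' (MM_disj hK' hK hy' hyK)
      · obtain ⟨K, hK⟩ := hne
        refine ⟨_, ⟨K, hK, rfl⟩, ?_⟩
        rintro ⟨K', ⟨hK', hne'⟩, hy'⟩
        exact hy ⟨K', hK', hy'⟩)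
    refine ⟨fun K => ⋃₀ {G | G ∈ 𝒢 ∧ (G ∩ K).Nonempty}, ?_, ?_, ?_⟩
    · intro K hK
      exact isOpen_sUnion fun G hG => h1 G hG.1
    · intro K hK y hy
      have : y ∈ ⋃₀ 𝒢 := by rw [h2]; exact mem_univ y
      obtain ⟨G, hG, hyG⟩ := this
      exact ⟨G, ⟨hG, y, hyG, hy⟩, hyG⟩
    · intro y
      have hex : ∀ G ∈ 𝒢, ∃ K : Set Y, ∀ K' ∈ MM C F, (G ∩ K').Nonempty → K' = K := by
        intro G hG
        obtain ⟨_, ⟨K, hK, rfl⟩, hGK⟩ := h3 G hG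
        refine ⟨K, fun K' hK' hne' => ?_⟩
        by_contra hcon
        obtain ⟨w, hw1, hw2⟩ := hne'
        exact hGK hw1 ⟨K', ⟨hK', hcon⟩, hw2⟩
      choose! κ hκ using hex
      refine ((h4 y).image κ).subset ?_
      rintro K ⟨hK, G, ⟨hG, hGK⟩, hyG⟩
      exact ⟨G, ⟨hG, hyG⟩, (hκ G hG K hK hGK).symm⟩
  · rw [not_nonempty_iff_eq_empty] at hne
    refine ⟨fun _ => univ, fun _ _ => isOpen_univ, fun _ _ => subset_univ _, fun y => ?_⟩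
    rw [hne]
    exact finite_empty.subset (fun K hK => hK.1)

lemma sigma_case (hY : Metacpt Y) (hX : Metacpt X) {C : Set (Set Y)} (hC : Cpc C)
    {U : Set (Set (Y × X))} (hU : ∀ u ∈ U, IsOpen u) (hcov : ⋃₀ U = univ) :
    ∃ L : ℕ → Set (Set (Y × X)), (∀ k, ∀ O ∈ L k, IsOpen O ∧ ∃ u ∈ U, O ⊆ u) ∧
      (∀ k z, {O | O ∈ L k ∧ z ∈ O}.Finite) ∧ ∀ z : Y × X, z.1 ∈ ⋃₀ C → ∃ k, ∃ O ∈ L k, z ∈ O := by
  have h1 : ∀ K : Set Y, ∃ (V : Set (Set X)) (G : Set X → Set Y) (Q : Set X → Set (Set (Y × X))),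
      IsCompact K → (∀ v ∈ V, IsOpen v) ∧ (∀ x : X, ∃ v ∈ V, x ∈ v) ∧
      (∀ x : X, {v | v ∈ V ∧ x ∈ v}.Finite) ∧
      (∀ v ∈ V, IsOpen (G v)) ∧ (∀ v ∈ V, K ⊆ G v) ∧ (∀ v ∈ V, (Q v).Finite) ∧
      (∀ v ∈ V, Q v ⊆ U) ∧ (∀ v ∈ V, G v ×ˢ v ⊆ ⋃₀ (Q v)) := by
    intro K
    by_cases hK : IsCompact K
    · obtain ⟨V, G, Q, h⟩ := tube hX hU hcov hK
      exact ⟨V, G, Q, fun _ => h⟩
    · exact ⟨∅, fun _ => ∅, fun _ => ∅, fun h => absurd h hK⟩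
  choose V G Q hVGQ using h1
  have h2 : ∀ F : Set Y, ∃ W : Set Y → Set Y, IsClosed F → (∀ K ∈ MM C F, IsOpen (W K)) ∧
      (∀ K ∈ MM C F, K ⊆ W K) ∧ ∀ y, {K | K ∈ MM C F ∧ y ∈ W K}.Finite := by
    intro F
    by_cases hF : IsClosed F
    · obtain ⟨W, hW⟩ := expand hY hC hF
      exact ⟨W, fun _ => hW⟩
    · exact ⟨fun _ => ∅, fun h => absurd h hF⟩
  choose W hW using h2
  let d : Data C U :=
    { W := W, V := V, G := G, Q := Q, D := univ,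
      hWo := fun F hF _ => (hW F hF).1
      hWK := fun F hF _ => (hW F hF).2.1
      hWf := fun z _ F hF _ => (hW F hF).2.2 z.1
      hVo := fun K hK => (hVGQ K hK).1
      hVc := fun K hK => (hVGQ K hK).2.1
      hVf := fun K hK => (hVGQ K hK).2.2.1
      hGo := fun K hK => (hVGQ K hK).2.2.2.1
      hGK := fun K hK => (hVGQ K hK).2.2.2.2.1
      hQf := fun K hK => (hVGQ K hK).2.2.2.2.2.1
      hQU := fun K hK => (hVGQ K hK).2.2.2.2.2.2.1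
      hQc := fun K hK => (hVGQ K hK).2.2.2.2.2.2.2 }
  refine ⟨lev d, ?_, fun k z => lev_fin hC d (mem_univ z) k, fun z hz =>
    cover hC d (mem_univ z) hz⟩
  rintro k O ⟨z, hz, hO⟩
  exact ⟨fam_open hC d hU (st_good hC d hz k) hO, fam_refine hC d (st_good hC d hz k) hO⟩

lemma pf_case (hX : Metacpt X) {C : Set (Set Y)} (hC : Cpc C)
    {U : Set (Set (Y × X))} (hU : ∀ u ∈ U, IsOpen u) (hcov : ⋃₀ U = univ) :
    ∃ L : Set (Set (Y × X)), (∀ O ∈ L, IsOpen O ∧ ∃ u ∈ U, O ⊆ u) ∧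
      (∀ z : Y × X, z.1 ∈ ⋃₀ C → {O | O ∈ L ∧ z ∈ O}.Finite) ∧
      ∀ z : Y × X, z.1 ∈ ⋃₀ C → ∃ O ∈ L, z ∈ O := by
  have h1 : ∀ K : Set Y, ∃ (V : Set (Set X)) (G : Set X → Set Y) (Q : Set X → Set (Set (Y × X))),
      IsCompact K → (∀ v ∈ V, IsOpen v) ∧ (∀ x : X, ∃ v ∈ V, x ∈ v) ∧
      (∀ x : X, {v | v ∈ V ∧ x ∈ v}.Finite) ∧
      (∀ v ∈ V, IsOpen (G v)) ∧ (∀ v ∈ V, K ⊆ G v) ∧ (∀ v ∈ V, (Q v).Finite) ∧
      (∀ v ∈ V, Q v ⊆ U) ∧ (∀ v ∈ V, G v ×ˢ v ⊆ ⋃₀ (Q v)) := by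
    intro K
    by_cases hK : IsCompact K
    · obtain ⟨V, G, Q, h⟩ := tube hX hU hcov hK
      exact ⟨V, G, Q, fun _ => h⟩
    · exact ⟨∅, fun _ => ∅, fun _ => ∅, fun h => absurd h hK⟩
  choose V G Q hVGQ using h1
  let d : Data C U :=
    { W := fun _ K => ⋃ p ∈ K, up C p, V := V, G := G, Q := Q, D := {z | z.1 ∈ ⋃₀ C},
      hWo := fun F _ _ K _ => isOpen_biUnion fun p _ => isOpen_up hC p
      hWK := fun F _ _ K _ y hy => by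
        simp only [mem_iUnion]
        exact ⟨y, hy, le_refl C y⟩
      hWf := fun z hz F hF _ => by
        refine (fin_min hC hF hz).subset ?_
        rintro K ⟨hK, hzK⟩
        simp only [mem_iUnion] at hzK
        obtain ⟨p, hp, hpz⟩ := hzK
        exact ⟨hK, p, hp, hpz⟩
      hVo := fun K hK => (hVGQ K hK).1
      hVc := fun K hK => (hVGQ K hK).2.1
      hVf := fun K hK => (hVGQ K hK).2.2.1
      hGo := fun K hK => (hVGQ K hK).2.2.2.1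
      hGK := fun K hK => (hVGQ K hK).2.2.2.2.1
      hQf := fun K hK => (hVGQ K hK).2.2.2.2.2.1
      hQU := fun K hK => (hVGQ K hK).2.2.2.2.2.2.1
      hQc := fun K hK => (hVGQ K hK).2.2.2.2.2.2.2 }
  refine ⟨{O | ∃ k, O ∈ lev d k}, ?_, ?_, ?_⟩
  · rintro O ⟨k, z, hz, hO⟩
    exact ⟨fam_open hC d hU (st_good hC d hz k) hO, fam_refine hC d (st_good hC d hz k) hO⟩
  · intro z hz
    refine all_fin hC d hz hz (fun F K _ hzK => ?_)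
    simp only [d, mem_iUnion] at hzK
    obtain ⟨p, hp, hpz⟩ := hzK
    exact ⟨p, hp, hpz⟩
  · intro z hz
    obtain ⟨k, O, hO, hzO⟩ := cover hC d hz hz
    exact ⟨O, ⟨k, hO⟩, hzO⟩

lemma shrink (hX : Metacpt X) {C : Set (Set Y)} (hC : Cpc C)
    (T : ℕ → Set (Y × X)) (hTo : ∀ k, IsOpen (T k)) (hTm : Monotone T)
    (hTc : ∀ z, ∃ k, z ∈ T k) :
    ∃ H : ℕ → Set (Y × X), (∀ k, IsClosed (H k)) ∧ (∀ k, H k ⊆ T k) ∧ Monotone H ∧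
      ∀ z : Y × X, z.1 ∈ ⋃₀ C → ∃ k, z ∈ H k := by
  obtain ⟨L, hL1, hL2, hL3⟩ := pf_case hX hC (U := range T)
    (by rintro _ ⟨k, rfl⟩; exact hTo k) (by
      rw [eq_univ_iff_forall]
      intro z
      obtain ⟨k, hk⟩ := hTc z
      exact ⟨T k, ⟨k, rfl⟩, hk⟩)
  refine ⟨fun k => {z | z.1 ∈ ⋃₀ C ∧ ∀ O ∈ L, z ∈ O → O ⊆ T k}, ?_, ?_, ?_, ?_⟩
  · intro k
    have : {z : Y × X | z.1 ∈ ⋃₀ C ∧ ∀ O ∈ L, z ∈ O → O ⊆ T k} =
        (Prod.fst ⁻¹' (⋃₀ C)) ∩ (⋃₀ {O | O ∈ L ∧ ¬ O ⊆ T k})ᶜ := by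
      ext z
      constructor
      · rintro ⟨h1, h2⟩
        refine ⟨h1, ?_⟩
        rintro ⟨O, ⟨hO, hOT⟩, hzO⟩
        exact hOT (h2 O hO hzO)
      · rintro ⟨h1, h2⟩
        refine ⟨h1, fun O hO hzO => ?_⟩
        by_contra hcon
        exact h2 ⟨O, ⟨hO, hcon⟩, hzO⟩
    show IsClosed {z : Y × X | z.1 ∈ ⋃₀ C ∧ ∀ O ∈ L, z ∈ O → O ⊆ T k}
    rw [this]
    exact ((hC.cp C subset_rfl).preimage continuous_fst).inter
      (isOpen_sUnion fun O hO => (hL1 O hO.1).1).isClosed_compl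
  · rintro k z ⟨h1, h2⟩
    obtain ⟨O, hO, hzO⟩ := hL3 z h1
    exact h2 O hO hzO hzO
  · rintro k l hkl z ⟨h1, h2⟩
    exact ⟨h1, fun O hO hzO => (h2 O hO hzO).trans (hTm hkl)⟩
  · intro z hz
    have hfin := hL2 z hz
    have hex : ∀ O ∈ L, ∃ k, O ⊆ T k := by
      intro O hO
      obtain ⟨_, ⟨k, rfl⟩, hk⟩ := (hL1 O hO).2
      exact ⟨k, hk⟩
    choose! κ hκ using hex
    obtain ⟨b, hb⟩ := (hfin.image κ).bddAbove
    refine ⟨b, hz, fun O hO hzO => ?_⟩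
    exact (hκ O hO).trans (hTm (hb ⟨O, ⟨hO, hzO⟩, rfl⟩))

theorem main (hY : Metacpt Y) (hX : Metacpt X) (F : ℕ → Set (Set Y)) (hF : ∀ n, Cpc (F n))
    (hFc : ∀ y : Y, ∃ n, y ∈ ⋃₀ F n) : Metacpt (Y × X) := by
  intro U hU hcov
  have h1 := fun n => sigma_case hY hX (hF n) hU hcov
  choose L hL1 hL2 hL3 using h1
  let Lj : ℕ → Set (Set (Y × X)) := fun j => L (Nat.unpair j).1 (Nat.unpair j).2
  let T : ℕ → Set (Y × X) := fun k => ⋃ j ∈ Iic k, ⋃₀ (Lj j)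
  have hTo : ∀ k, IsOpen (T k) := fun k => isOpen_biUnion fun j _ =>
    isOpen_sUnion fun O hO => (hL1 _ _ O hO).1
  have hTm : Monotone T := fun k l hkl => biUnion_subset_biUnion_left (Iic_subset_Iic.2 hkl)
  have hTc : ∀ z : Y × X, ∃ k, ∃ O ∈ Lj k, z ∈ O := by
    intro z
    obtain ⟨n, hn⟩ := hFc z.1
    obtain ⟨k, O, hO, hz⟩ := hL3 n z hn
    refine ⟨Nat.pair n k, O, ?_, hz⟩
    simp only [Lj, Nat.unpair_pair]
    exact hO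
  have hTc' : ∀ z, ∃ k, z ∈ T k := by
    intro z
    obtain ⟨k, O, hO, hz⟩ := hTc z
    refine ⟨k, ?_⟩
    simp only [T, mem_iUnion]
    exact ⟨k, mem_Iic.2 le_rfl, O, hO, hz⟩
  have h2 := fun n => shrink hX (hF n) T hTo hTm hTc'
  choose H hH1 hH2 hH3 hH4 using h2
  let HH : ℕ → Set (Y × X) := fun k => ⋃ n ∈ Iic k, H n k
  have hHHc : ∀ k, IsClosed (HH k) := fun k => (finite_Iic k).isClosed_biUnion fun n _ => hH1 n k
  have hHHT : ∀ k, HH k ⊆ T k := fun k => iUnion₂_subset fun n _ => hH2 n k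
  have hHHm : Monotone HH := by
    intro k l hkl z hz
    simp only [HH, mem_iUnion] at hz ⊢
    obtain ⟨n, hn, hz⟩ := hz
    exact ⟨n, mem_Iic.2 ((mem_Iic.1 hn).trans hkl), hH3 n hkl hz⟩
  have hHHu : ∀ z, ∃ k, z ∈ HH k := by
    intro z
    obtain ⟨n, hn⟩ := hFc z.1
    obtain ⟨k, hk⟩ := hH4 n z hn
    refine ⟨max n k, ?_⟩
    simp only [HH, mem_iUnion]
    exact ⟨n, mem_Iic.2 (le_max_left _ _), hH3 n (le_max_right _ _) hk⟩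
  let D : ℕ → Set (Y × X) := fun j => ⋃ i ∈ Iio j, HH i
  have hDc : ∀ j, IsClosed (D j) := fun j => (finite_Iio j).isClosed_biUnion fun i _ => hHHc i
  refine ⟨{O | ∃ j, ∃ V ∈ Lj j, O = V \ D j}, ?_, ?_, ?_, ?_⟩
  · rintro O ⟨j, V, hV, rfl⟩
    exact (hL1 _ _ V hV).1.sdiff (hDc j)
  · rw [eq_univ_iff_forall]
    intro z
    classical
    let j := Nat.find (hTc z)
    obtain ⟨V, hV, hzV⟩ := Nat.find_spec (hTc z)
    refine ⟨V \ D j, ⟨j, V, hV, rfl⟩, hzV, ?_⟩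
    intro hzD
    simp only [D, mem_iUnion] at hzD
    obtain ⟨i, hi, hzi⟩ := hzD
    have hzT := hHHT i hzi
    simp only [T, mem_iUnion] at hzT
    obtain ⟨l, hl, O, hO, hzO⟩ := hzT
    exact Nat.find_min (hTc z) (lt_of_le_of_lt hl hi) ⟨O, hO, hzO⟩
  · rintro O ⟨j, V, hV, rfl⟩
    obtain ⟨u, hu, hVu⟩ := (hL1 _ _ V hV).2
    exact ⟨u, hu, sdiff_subset.trans hVu⟩
  · intro z
    obtain ⟨k, hk⟩ := hHHu z
    have hsub : {O | (∃ j, ∃ V ∈ Lj j, O = V \ D j) ∧ z ∈ O} ⊆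
        ⋃ j ∈ Iic k, (fun V => V \ D j) '' {V | V ∈ Lj j ∧ z ∈ V} := by
      rintro O ⟨⟨j, V, hV, rfl⟩, hzO⟩
      simp only [mem_iUnion]
      refine ⟨j, ?_, V, ⟨hV, hzO.1⟩, rfl⟩
      by_contra hcon
      apply hzO.2
      simp only [D, mem_iUnion]
      exact ⟨k, mem_Iio.2 (not_le.1 hcon), hk⟩
    refine ((finite_Iic k).biUnion fun j _ => ?_).subset hsub
    exact (hL2 _ _ z).image _

end Pool.Agent.Helper737.MetaCpc
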